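import Mathlib
import Pool.Agent.Work.MP_2d1b31_co.Defs
import Pool.Agent.Work.MP_2d1b31_co.TN.Defs

set_option autoImplicit false

/-!
Graphs embedded in (possibly infinite) translation planes. FIXED definitions.

`M` is an abelian group and `H a` (`a : A`) are subgroups with pairwise trivial intersection. The
*points* are the elements of `M` (affine points) and of `A` (directions); the *lines* are the cosets
of the `H a` (the coset `m + H a` contains its elements and the direction `a`) and the line at
infinity, which contains all directions. Two points are on at most one line. Every translation plane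
(in particular every plane over a division ring) is of this form.
-/

namespace Pool.Agent.SC4.TP

/-- `G` is embedded in the plane of `M`, `H`: the vertex `u` is the point `pt u`, and it is also the
line `dir u`, `base u` (that is `base u + H (dir u)`) if `u ≠ w`, the line at infinity if `u = w`;
different vertices are different points and different lines; adjacent vertices are incident. -/
structure Emb {V : Type} (G : SimpleGraph V) (w : V) {M : Type} [AddCommGroup M] {A : Type}
    (H : A → AddSubgroup M) (pt : V → M ⊕ A) (dir : V → A) (base : V → M) : Prop where
  spread : ∀ a b, a ≠ b → H a ⊓ H b = ⊥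
  inj : Function.Injective pt
  line : ∀ v v', v ≠ w → v' ≠ w → dir v = dir v' → base v - base v' ∈ H (dir v) → v = v'
  axis : ∀ u, G.Adj u w → ∃ a, pt u = Sum.inr a
  aff : ∀ u v m, G.Adj u v → v ≠ w → pt u = Sum.inl m → m - base v ∈ H (dir v)
  inf : ∀ u v a, G.Adj u v → v ≠ w → pt u = Sum.inr a → a = dir v

/-- `G` is embedded in a translation plane (a group with subgroups of pairwise trivial intersection)
such that the vertex `w` is the line at infinity. -/
def TransPlane {V : Type} (G : SimpleGraph V) (w : V) : Prop :=
  ∃ (M : Type) (_ : AddCommGroup M) (A : Type) (H : A → AddSubgroup M) (pt : V → M ⊕ A)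
    (dir : V → A) (base : V → M), Emb G w H pt dir base

/-- The same with a group of order `q ^ 2` and subgroups of order `q`. -/
def FinPlane {V : Type} (G : SimpleGraph V) (w : V) (q : ℕ) : Prop :=
  ∃ (M : Type) (_ : AddCommGroup M) (A : Type) (H : A → AddSubgroup M) (pt : V → M ⊕ A)
    (dir : V → A) (base : V → M), Emb G w H pt dir base ∧ Nat.card M = q ^ 2 ∧
      ∀ a, Nat.card (H a) = q

/-- `G` is linear over the division ring `K`: the vertex `u` is a point `p u` and a line `l u` of the
projective plane over `K` (homogeneous coordinates, points up to factors on the left, lines up to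
factors on the right), different vertices are different points and different lines, and adjacent
vertices are incident. -/
def LinearOver (K : Type) [DivisionRing K] {V : Type} (G : SimpleGraph V) : Prop :=
  ∃ p l : V → Fin 3 → K, (∀ u, p u ≠ 0) ∧ (∀ u, l u ≠ 0) ∧
    (∀ u v, u ≠ v → ∀ t : K, p u ≠ fun i => t * p v i) ∧
    (∀ u v, u ≠ v → ∀ t : K, l u ≠ fun i => l v i * t) ∧
    ∀ u v, G.Adj u v → ∑ i, p u i * l v i = 0

end Pool.Agent.SC4.TP
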