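import Mathlib
import Pool.Agent.Work.MP_2d1b31_co.TP.Defs

set_option autoImplicit false

/-
MODULE TP/Pol (size M). The polarity graph of the plane over a finite field K, |K| = q, and some
induced subgraphs.
Vertices PV = (K x K) ⊕ K ⊕ Unit (q^2 + q + 1 elements): (x,y), (m), oo. Coordinates
p(x,y) = (x, y, 1), p(m) = (1, m, 0), p(oo) = (0, 1, 0); l(x,y) = (x, -1, -y), l(m) = (1, 0, -m),
l(oo) = (0, 0, 1). u ~ v iff u <> v and p(u) . l(v) = 0 (symmetric): (x,y) ~ (x',y') iff y + y' = x x';
(m) ~ (x,y) iff x = m; (m) ~ oo; (m) not ~ (m'), oo not ~ (x,y). The points are pairwise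
non-proportional, the lines too. Every induced subgraph is linear over K (restrict p, l), and may be
transported to Fin N (Fintype.equivFin).
Polar line Q(u) = {v : p(u) . l(v) = 0}: Q(x,y) = {(x', x x' - y)} ∪ {(x)}, Q(m) = {(m, y')} ∪ {oo},
Q(oo) = {(m)} ∪ {oo}: q + 1 elements; N(u) = Q(u) \ {u}.
(a) The whole graph: all degrees >= q.
(b) z = (0,0). For s in K: D_s = {(x, s x) : x <> 0} ∪ {(s)} (q elements; D_s ∪ {z} = the line Y = s X,
 it is Q((s,0)): the POLE of this line is the vertex (s,0)). The D_s are disjoint. Q((0)) = {X = 0}.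
 All lines through z are Q(v) with v in {(s,0)} ∪ {(0)} = Q(z).
 Take S in K with 0 in S, |S| = t + 1 (possible as t + 1 <= q), S' in S, |S'| = t, with 0 in S' if
 t >= 1. Choose R with {z} ∪ D_{S'} ⊂ R ⊂ {z} ∪ D_S, |R| = 1 + t q + y (y <= q;
 Finset.exists_subsuperset_card_eq). V0 = PV \ R, |V0| = q^2 + q - t q - y.
 All the poles (s,0), s in S, are in R (t = 0: (0,0) = z; t >= 1: (0,0) = z and (s,0) in D_0 ⊂ D_{S'}).
 For u in V0 (not in R): |Q(u) cap R| <= t + 1: Q(u) meets each line Y = s X, s in S, in at most one point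
 (u is not its pole, so Q(u) is a different line; direct computation), and if z in Q(u) then Q(u) meets
 R only in z (for v in Q(u) cap D_s and z in Q(u) the line Q(u) would be Y = s X).
 Hence deg(u) in the induced graph >= (q + 1) - 1 - (t + 1).
(c) any N <= q^2 + q + 1: the graph without edges on N of the vertices.
-/

namespace Pool.Agent.SC4.TP

private abbrev PV (K : Type) : Type := (K × K) ⊕ K ⊕ Unit

private def pp {K : Type} [Field K] : PV K → Fin 3 → K
  | Sum.inl (x, y) => ![x, y, 1]
  | Sum.inr (Sum.inl m) => ![1, m, 0]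
  | Sum.inr (Sum.inr _) => ![0, 1, 0]

private def ll {K : Type} [Field K] : PV K → Fin 3 → K
  | Sum.inl (x, y) => ![x, -1, -y]
  | Sum.inr (Sum.inl m) => ![1, 0, -m]
  | Sum.inr (Sum.inr _) => ![0, 0, 1]

private def IncP {K : Type} [Field K] (u v : PV K) : Prop := ∑ i, pp u i * ll v i = 0

private theorem inc_aa {K : Type} [Field K] (x y x' y' : K) :
    IncP (Sum.inl (x, y)) (Sum.inl (x', y')) ↔ x * x' = y + y' := by
  unfold IncP pp ll
  rw [Fin.sum_univ_three]
  simp only [Matrix.cons_val_zero, Matrix.cons_val_one, Matrix.cons_val]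
  constructor
  · intro h
    linear_combination h
  · intro h
    linear_combination h

private theorem inc_am {K : Type} [Field K] (x y m : K) :
    IncP (Sum.inl (x, y)) (Sum.inr (Sum.inl m)) ↔ x = m := by
  unfold IncP pp ll
  rw [Fin.sum_univ_three]
  simp only [Matrix.cons_val_zero, Matrix.cons_val_one, Matrix.cons_val]
  constructor
  · intro h
    linear_combination h
  · intro h
    linear_combination h

private theorem inc_ao {K : Type} [Field K] (x y : K) :
    ¬ IncP (Sum.inl (x, y)) (Sum.inr (Sum.inr ())) := by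
  unfold IncP pp ll
  rw [Fin.sum_univ_three]
  simp

private theorem inc_ma {K : Type} [Field K] (x y m : K) :
    IncP (Sum.inr (Sum.inl m)) (Sum.inl (x, y)) ↔ x = m := by
  unfold IncP pp ll
  rw [Fin.sum_univ_three]
  simp only [Matrix.cons_val_zero, Matrix.cons_val_one, Matrix.cons_val]
  constructor
  · intro h
    linear_combination h
  · intro h
    linear_combination h

private theorem inc_mm {K : Type} [Field K] (m m' : K) :
    ¬ IncP (Sum.inr (Sum.inl m)) (Sum.inr (Sum.inl m')) := by
  unfold IncP pp ll
  rw [Fin.sum_univ_three]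
  simp

private theorem inc_mo {K : Type} [Field K] (m : K) :
    IncP (Sum.inr (Sum.inl m)) (Sum.inr (Sum.inr ())) := by
  unfold IncP pp ll
  rw [Fin.sum_univ_three]
  simp

private theorem inc_oa {K : Type} [Field K] (x y : K) :
    ¬ IncP (Sum.inr (Sum.inr ())) (Sum.inl (x, y)) := by
  unfold IncP pp ll
  rw [Fin.sum_univ_three]
  simp

private theorem inc_om {K : Type} [Field K] (m : K) :
    IncP (Sum.inr (Sum.inr ())) (Sum.inr (Sum.inl m)) := by
  unfold IncP pp ll
  rw [Fin.sum_univ_three]
  simp

private theorem inc_oo {K : Type} [Field K] :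
    IncP (K := K) (Sum.inr (Sum.inr ())) (Sum.inr (Sum.inr ())) := by
  unfold IncP pp ll
  rw [Fin.sum_univ_three]
  simp

private theorem inc_symm {K : Type} [Field K] (u v : PV K) (h : IncP u v) : IncP v u := by
  rcases u with ⟨x, y⟩ | m | ⟨⟩ <;> rcases v with ⟨x', y'⟩ | m' | ⟨⟩
  · rw [inc_aa] at h ⊢
    linear_combination h
  · rw [inc_am] at h
    rwa [inc_ma]
  · exact absurd h (inc_ao _ _)
  · rw [inc_ma] at h
    rwa [inc_am]
  · exact absurd h (inc_mm _ _)
  · exact inc_om _
  · exact absurd h (inc_oa _ _)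
  · exact inc_mo _
  · exact inc_oo

private def polG (K : Type) [Field K] : SimpleGraph (PV K) where
  Adj u v := u ≠ v ∧ IncP u v
  symm := ⟨fun u v h => ⟨h.1.symm, inc_symm u v h.2⟩⟩
  loopless := ⟨fun u h => h.1 rfl⟩

private theorem pp_ne_zero {K : Type} [Field K] (u : PV K) : pp u ≠ 0 := by
  intro h
  rcases u with ⟨x, y⟩ | m | ⟨⟩
  · have := congrFun h 2
    simp [pp] at this
  · have := congrFun h 0
    simp [pp] at this
  · have := congrFun h 1
    simp [pp] at this

private theorem ll_ne_zero {K : Type} [Field K] (u : PV K) : ll u ≠ 0 := by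
  intro h
  rcases u with ⟨x, y⟩ | m | ⟨⟩
  · have := congrFun h 1
    simp [ll] at this
  · have := congrFun h 0
    simp [ll] at this
  · have := congrFun h 2
    simp [ll] at this

private theorem pp_prop {K : Type} [Field K] (u v : PV K) (huv : u ≠ v) (t : K) :
    pp u ≠ fun i => t * pp v i := by
  intro h
  have h0 := congrFun h 0
  have h1 := congrFun h 1
  have h2 := congrFun h 2
  rcases u with ⟨x, y⟩ | m | ⟨⟩ <;> rcases v with ⟨x', y'⟩ | m' | ⟨⟩ <;>
    simp only [pp, Matrix.cons_val_zero, Matrix.cons_val_one, Matrix.cons_val] at h0 h1 h2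
  · rw [mul_one] at h2
    rw [← h2, one_mul] at h0 h1
    exact huv (by rw [h0, h1])
  · simp at h2
  · simp at h2
  · rw [mul_one] at h2
    rw [← h2] at h0
    simp at h0
  · rw [mul_one] at h0
    rw [← h0, one_mul] at h1
    exact huv (by rw [h1])
  · simp at h0
  · rw [mul_one] at h2
    rw [← h2] at h1
    simp at h1
  · rw [mul_one] at h0
    rw [← h0] at h1
    simp at h1
  · exact huv rfl

private theorem ll_prop {K : Type} [Field K] (u v : PV K) (huv : u ≠ v) (t : K) :
    ll u ≠ fun i => ll v i * t := by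
  intro h
  have h0 := congrFun h 0
  have h1 := congrFun h 1
  have h2 := congrFun h 2
  rcases u with ⟨x, y⟩ | m | ⟨⟩ <;> rcases v with ⟨x', y'⟩ | m' | ⟨⟩ <;>
    simp only [ll, Matrix.cons_val_zero, Matrix.cons_val_one, Matrix.cons_val] at h0 h1 h2
  · have ht : t = 1 := by linear_combination h1
    subst ht
    have hx : x = x' := by linear_combination h0
    have hy : y = y' := by linear_combination -h2
    exact huv (by rw [hx, hy])
  · simp at h1
  · simp at h1
  · have ht : t = 0 := by linear_combination h1
    subst ht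
    simp at h0
  · have ht : t = 1 := by linear_combination -h0
    subst ht
    have hx : m = m' := by linear_combination -h2
    exact huv (by rw [hx])
  · simp at h0
  · have ht : t = 0 := by linear_combination h1
    subst ht
    simp at h2
  · have ht : t = 0 := by linear_combination -h0
    subst ht
    simp at h2
  · exact huv rfl

private theorem lin {K : Type} [Field K] {W : Type} (f : W → PV K) (hf : Function.Injective f) :
    LinearOver K ((polG K).comap f) := by
  refine ⟨fun u => pp (f u), fun u => ll (f u), fun u => pp_ne_zero _, fun u => ll_ne_zero _,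
    fun u v huv t => pp_prop _ _ (fun h => huv (hf h)) t,
    fun u v huv t => ll_prop _ _ (fun h => huv (hf h)) t, fun u v h => ?_⟩
  exact h.2

open Classical in
private theorem card_Q {K : Type} [Field K] [Fintype K] (u : PV K) :
    Fintype.card K + 1 ≤ (Finset.univ.filter fun v : PV K => IncP u v).card := by
  rw [← Fintype.card_option, ← Finset.card_univ]
  rcases u with ⟨x, y⟩ | m | ⟨⟩
  · refine Finset.card_le_card_of_injOn (fun o : Option K => match o with
      | some x' => (Sum.inl (x', x * x' - y) : PV K)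
      | none => Sum.inr (Sum.inl x)) ?_ ?_
    · rintro (_ | x') _
      · simp only [Finset.coe_filter, Finset.mem_univ, true_and, Set.mem_setOf_eq]
        rw [inc_am]
      · simp only [Finset.coe_filter, Finset.mem_univ, true_and, Set.mem_setOf_eq]
        rw [inc_aa]
        ring
    · rintro (_ | a) _ (_ | b) _ h <;> simp_all
  · refine Finset.card_le_card_of_injOn (fun o : Option K => match o with
      | some y' => (Sum.inl (m, y') : PV K)
      | none => Sum.inr (Sum.inr ())) ?_ ?_
    · rintro (_ | x') _
      · simp only [Finset.coe_filter, Finset.mem_univ, true_and, Set.mem_setOf_eq]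
        exact inc_mo _
      · simp only [Finset.coe_filter, Finset.mem_univ, true_and, Set.mem_setOf_eq]
        rw [inc_ma]
    · rintro (_ | a) _ (_ | b) _ h <;> simp_all
  · refine Finset.card_le_card_of_injOn (fun o : Option K => match o with
      | some m => (Sum.inr (Sum.inl m) : PV K)
      | none => Sum.inr (Sum.inr ())) ?_ ?_
    · rintro (_ | x') _
      · simp only [Finset.coe_filter, Finset.mem_univ, true_and, Set.mem_setOf_eq]
        exact inc_oo
      · simp only [Finset.coe_filter, Finset.mem_univ, true_and, Set.mem_setOf_eq]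
        exact inc_om _
    · rintro (_ | a) _ (_ | b) _ h <;> simp_all

open Classical in
/-- the induced subgraph on the complement of `R` -/
private theorem part_aux {K : Type} [Field K] [Fintype K] (R : Finset (PV K)) (N k : ℕ)
    (hN : Rᶜ.card = N)
    (hR : ∀ u, u ∉ R → ((Finset.univ.filter fun v : PV K => IncP u v) ∩ R).card ≤ k) :
    ∃ G : SimpleGraph (Fin N), LinearOver K G ∧ ∀ v, Fintype.card K ≤ G.degree v + k := by
  obtain ⟨e⟩ : Nonempty (Fin N ≃ {x // x ∈ Rᶜ}) := ⟨(Finset.equivFinOfCardEq hN).symm⟩
  obtain ⟨G, hG⟩ : ∃ G : SimpleGraph (Fin N),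
      G = (polG K).comap (fun i => ((e i : {x // x ∈ Rᶜ}) : PV K)) := ⟨_, rfl⟩
  refine ⟨G, hG ▸ lin _ (Subtype.val_injective.comp e.injective), fun i => ?_⟩
  set u : PV K := ((e i : {x // x ∈ Rᶜ}) : PV K) with hu
  have huR : u ∉ R := by
    have := (e i).2
    rwa [Finset.mem_compl] at this
  have h1 := card_Q u
  have h2 := hR u huR
  have h3 : (Finset.univ.filter fun v : PV K => IncP u v) \ (insert u
      ((Finset.univ.filter fun v : PV K => IncP u v) ∩ R)) ⊆
      (G.neighborFinset i).image
        (fun j => ((e j : {x // x ∈ Rᶜ}) : PV K)) := by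
    intro v hv
    simp only [Finset.mem_sdiff, Finset.mem_filter, Finset.mem_univ, true_and, Finset.mem_insert,
      Finset.mem_inter, not_or, not_and] at hv
    obtain ⟨hv1, hv2, hv3⟩ := hv
    have hvR : v ∈ Rᶜ := Finset.mem_compl.2 (hv3 hv1)
    rw [Finset.mem_image]
    refine ⟨e.symm ⟨v, hvR⟩, ?_, by simp⟩
    rw [SimpleGraph.mem_neighborFinset, hG, SimpleGraph.comap_adj]
    rw [Equiv.apply_symm_apply]
    exact ⟨Ne.symm hv2, hv1⟩
  have h4 := (Finset.card_le_card h3).trans Finset.card_image_le
  rw [SimpleGraph.card_neighborFinset_eq_degree] at h4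
  have h5 := Finset.le_card_sdiff (insert u ((Finset.univ.filter fun v : PV K => IncP u v) ∩ R))
    (Finset.univ.filter fun v : PV K => IncP u v)
  have h6 := Finset.card_insert_le u ((Finset.univ.filter fun v : PV K => IncP u v) ∩ R)
  omega

private theorem card_PV (K : Type) [Field K] [Fintype K] (q : ℕ) (hq : Fintype.card K = q) :
    Fintype.card (PV K) = q ^ 2 + q + 1 := by
  simp only [PV, Fintype.card_sum, Fintype.card_prod, Fintype.card_unit, hq]
  ring

open Classical in
theorem pol_full (K : Type) [Field K] [Fintype K] (q : ℕ) (hq : Fintype.card K = q) :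
    ∃ G : SimpleGraph (Fin (q ^ 2 + q + 1)), LinearOver K G ∧ ∀ v, q ≤ G.degree v := by
  have h := part_aux (K := K) ∅ (q ^ 2 + q + 1) 0 (by
    rw [Finset.compl_empty, Finset.card_univ, card_PV K q hq]) (fun u _ => by simp)
  obtain ⟨G, h1, h2⟩ := h
  refine ⟨G, h1, fun v => ?_⟩
  have := h2 v
  omega

open Classical in
/-- the points of the line `Y = s X` different from the origin -/
private noncomputable def psi {K : Type} [Field K] (a : K × K) : PV K :=
  if a.2 = 0 then Sum.inr (Sum.inl a.1) else Sum.inl (a.2, a.1 * a.2)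

private theorem psi_inj {K : Type} [Field K] : Function.Injective (psi (K := K)) := by
  rintro ⟨s, x⟩ ⟨s', x'⟩ h
  unfold psi at h
  simp only at h
  split_ifs at h with h1 h2 h2
  · simp only [Sum.inr.injEq, Sum.inl.injEq] at h
    rw [h, h1, h2]
  · simp only [Sum.inl.injEq, Prod.mk.injEq] at h
    obtain ⟨h3, h4⟩ := h
    subst h3
    have := mul_right_cancel₀ h1 h4
    rw [this]

open Classical in
private noncomputable def BB {K : Type} [Field K] [Fintype K] (S : Finset K) : Finset (PV K) :=
  insert (Sum.inl (0, 0)) ((S ×ˢ Finset.univ).image psi)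

open Classical in
private theorem z_notMem {K : Type} [Field K] [Fintype K] (S : Finset K) :
    (Sum.inl (0, 0) : PV K) ∉ (S ×ˢ Finset.univ).image psi := by
  intro h
  obtain ⟨⟨s, x⟩, _, h⟩ := Finset.mem_image.1 h
  unfold psi at h
  simp only at h
  split_ifs at h with h1
  simp only [Sum.inl.injEq, Prod.mk.injEq] at h
  exact h1 h.1

open Classical in
private theorem card_BB {K : Type} [Field K] [Fintype K] (S : Finset K) :
    (BB S).card = 1 + S.card * Fintype.card K := by
  unfold BB
  rw [Finset.card_insert_of_notMem (z_notMem S), Finset.card_image_of_injective _ psi_inj,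
    Finset.card_product, Finset.card_univ]
  ring

open Classical in
private theorem key1 {K : Type} [Field K] (u : PV K) (s x : K) (hz : IncP u (Sum.inl (0, 0)))
    (h : IncP u (psi (s, x))) : u = Sum.inl (s, 0) := by
  unfold psi at h
  simp only at h
  rcases u with ⟨a, b⟩ | m | ⟨⟩
  · rw [inc_aa] at hz
    have hb : b = 0 := by linear_combination -hz
    subst hb
    split_ifs at h with h1
    · rw [inc_am] at h
      rw [h]
    · rw [inc_aa] at h
      have h2 : a * x = s * x := by linear_combination h
      have := mul_right_cancel₀ h1 h2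
      rw [this]
  · rw [inc_ma] at hz
    split_ifs at h with h1
    · exact absurd h (inc_mm _ _)
    · rw [inc_ma] at h
      exact absurd (h.trans hz.symm) h1
  · exact absurd hz (inc_oa _ _)

open Classical in
private theorem key2 {K : Type} [Field K] (u : PV K) (s x x' : K)
    (hz : ¬ IncP u (Sum.inl (0, 0)))
    (h : IncP u (psi (s, x))) (h' : IncP u (psi (s, x'))) : x = x' := by
  unfold psi at h h'
  simp only at h h'
  rcases u with ⟨a, b⟩ | m | ⟨⟩
  · rw [inc_aa] at hz
    have hb : b ≠ 0 := by
      intro hb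
      exact hz (by rw [hb]; ring)
    split_ifs at h h' with h1 h2 h2
    · rw [h1, h2]
    · rw [inc_am] at h
      rw [inc_aa, h] at h'
      exact absurd (by linear_combination -h') hb
    · rw [inc_am] at h'
      rw [inc_aa, h'] at h
      exact absurd (by linear_combination -h) hb
    · rw [inc_aa] at h h'
      have h3 : (a - s) * x = b := by linear_combination h
      have h4 : (a - s) * x' = b := by linear_combination h'
      have h5 : a - s ≠ 0 := by
        intro h6
        rw [h6, zero_mul] at h3
        exact hb h3.symm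
      exact mul_left_cancel₀ h5 (h3.trans h4.symm)
  · split_ifs at h h' with h1 h2 h2
    · rw [h1, h2]
    · exact absurd h (inc_mm _ _)
    · exact absurd h' (inc_mm _ _)
    · rw [inc_ma] at h h'
      rw [h, h']
  · split_ifs at h h' with h1 h2 h2
    · rw [h1, h2]
    · exact absurd h' (inc_oa _ _)
    · exact absurd h (inc_oa _ _)
    · exact absurd h (inc_oa _ _)

open Classical in
private theorem key3 {K : Type} [Field K] [Fintype K] (S : Finset K) (u : PV K) (k : ℕ)
    (hk : S.card ≤ k) (hk1 : 1 ≤ k)
    (hu : ∀ s ∈ S, u ≠ Sum.inl (s, 0)) (R : Finset (PV K)) (hR : R ⊆ BB S) :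
    ((Finset.univ.filter fun v : PV K => IncP u v) ∩ R).card ≤ k := by
  by_cases hz : IncP u (Sum.inl (0, 0))
  · have h1 : (Finset.univ.filter fun v : PV K => IncP u v) ∩ R ⊆ {Sum.inl (0, 0)} := by
      intro v hv
      rw [Finset.mem_inter, Finset.mem_filter] at hv
      have h2 := hR hv.2
      unfold BB at h2
      rw [Finset.mem_insert, Finset.mem_image] at h2
      rcases h2 with h2 | ⟨⟨s, x⟩, h3, rfl⟩
      · rw [h2]
        exact Finset.mem_singleton_self _
      · exact absurd (key1 u s x hz hv.1.2) (hu s (Finset.mem_product.1 h3).1)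
    exact (Finset.card_le_card h1).trans (by simpa using hk1)
  · have h1 : (Finset.univ.filter fun v : PV K => IncP u v) ∩ R ⊆
        ((S ×ˢ (Finset.univ : Finset K)).filter fun a => IncP u (psi a)).image psi := by
      intro v hv
      rw [Finset.mem_inter, Finset.mem_filter] at hv
      have h2 := hR hv.2
      unfold BB at h2
      rw [Finset.mem_insert, Finset.mem_image] at h2
      rcases h2 with h2 | ⟨⟨s, x⟩, h3, rfl⟩
      · rw [h2] at hv
        exact absurd hv.1.2 hz
      · rw [Finset.mem_image]
        exact ⟨(s, x), Finset.mem_filter.2 ⟨h3, hv.1.2⟩, rfl⟩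
    refine (Finset.card_le_card h1).trans (Finset.card_image_le.trans (le_trans ?_ hk))
    refine Finset.card_le_card_of_injOn Prod.fst ?_ ?_
    · intro a ha
      rw [Finset.mem_coe, Finset.mem_filter, Finset.mem_product] at ha
      exact ha.1.1
    · rintro ⟨s, x⟩ ha ⟨s', x'⟩ hb h
      rw [Finset.mem_coe, Finset.mem_filter] at ha hb
      simp only at h
      subst h
      rw [key2 u s x x' hz ha.2 hb.2]

open Classical in
theorem pol_part (K : Type) [Field K] [Fintype K] (q : ℕ) (hq : Fintype.card K = q) (t y : ℕ)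
    (ht : t + 1 ≤ q) (hy : y ≤ q) :
    ∃ G : SimpleGraph (Fin (q ^ 2 + q - t * q - y)), LinearOver K G ∧
      ∀ v, q ≤ G.degree v + t + 1 := by
  obtain ⟨S, hS0, -, hSc⟩ := Finset.exists_subsuperset_card_eq (s := ({0} : Finset K))
    (t := Finset.univ) (n := t + 1) (Finset.subset_univ _) (by simp)
    (by rw [Finset.card_univ, hq]; exact ht)
  have h0S : (0 : K) ∈ S := hS0 (Finset.mem_singleton_self _)
  obtain ⟨S', hS'S, hS'c, hS'0⟩ : ∃ S' : Finset K, S' ⊆ S ∧ S'.card = t ∧ (1 ≤ t → (0 : K) ∈ S') := by
    rcases Nat.eq_zero_or_pos t with h | h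
    · exact ⟨∅, Finset.empty_subset _, by rw [h]; rfl, fun h' => by omega⟩
    · obtain ⟨S', h1, h2, h3⟩ := Finset.exists_subsuperset_card_eq (s := ({0} : Finset K))
        (t := S) (n := t) (Finset.singleton_subset_iff.2 h0S) (by rw [Finset.card_singleton]; exact h) (by omega)
      exact ⟨S', h2, h3, fun _ => h1 (Finset.mem_singleton_self _)⟩
  have hBB : BB S' ⊆ BB S := by
    unfold BB
    exact Finset.insert_subset_insert _ (Finset.image_subset_image
      (Finset.product_subset_product_left hS'S))
  obtain ⟨R, hR1, hR2, hRc⟩ := Finset.exists_subsuperset_card_eq (s := BB S') (t := BB S)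
    (n := 1 + t * q + y) hBB (by rw [card_BB, hS'c, hq]; omega)
    (by rw [card_BB, hSc, hq]; nlinarith)
  have hN : Rᶜ.card = q ^ 2 + q - t * q - y := by
    rw [Finset.card_compl, card_PV K q hq, hRc]
    omega
  have hpole : ∀ s ∈ S, (Sum.inl (s, 0) : PV K) ∈ R := by
    intro s hs
    by_cases hs0 : s = 0
    · rw [hs0]
      exact hR1 (by unfold BB; exact Finset.mem_insert_self _ _)
    · have ht1 : 1 ≤ t := by
        by_contra h
        have h1 : S.card = 1 := by omega
        obtain ⟨a, ha⟩ := Finset.card_eq_one.1 h1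
        rw [ha, Finset.mem_singleton] at hs h0S
        exact hs0 (hs.trans h0S.symm)
      refine hR1 ?_
      unfold BB
      rw [Finset.mem_insert, Finset.mem_image]
      right
      refine ⟨(0, s), Finset.mem_product.2 ⟨hS'0 ht1, Finset.mem_univ _⟩, ?_⟩
      unfold psi
      simp [hs0]
  obtain ⟨G, h1, h2⟩ := part_aux R _ (t + 1) hN (fun u hu => key3 S u (t + 1) hSc.le (by omega)
    (fun s hs h => hu (h ▸ hpole s hs)) R hR2)
  refine ⟨G, h1, fun v => ?_⟩
  have := h2 v
  omega

theorem pol_empty (K : Type) [Field K] [Fintype K] (q : ℕ) (hq : Fintype.card K = q) (N : ℕ)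
    (hN : N ≤ q ^ 2 + q + 1) : ∃ G : SimpleGraph (Fin N), LinearOver K G := by
  classical
  have h : Fintype.card (Fin N) ≤ Fintype.card (PV K) := by
    rw [Fintype.card_fin, card_PV K q hq]
    exact hN
  obtain ⟨f⟩ := Function.Embedding.nonempty_of_card_le h
  exact ⟨_, lin f f.injective⟩

end Pool.Agent.SC4.TP
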