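import Mathlib
import Pool.Agent.Work.MP_2d1b31_co.TP.Defs
import Pool.Agent.Work.MP_2d1b31_co.TP.Pol

set_option autoImplicit false

/-
MODULE TP/Lower (size S-M). Cites pol_part, pol_empty, pol_full.
(1) n <= q^2, s = sqrt n. If 2 s - q <= 10: N = n and pol_empty (C = 10). Otherwise q < 2 s, q^2 < 4 n,
 2 s > 10 + q so with s <= q: q > 10, hence n > q^2/4 >= 2 q. Let t = (q^2 - n) / (q - 1) (natural
 division), r = (q^2 - n) mod (q - 1), y = r + 1, so 1 <= y <= q - 1, q^2 - n = t (q - 1) + r, and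
 t <= (q^2 - 2 q)/(q - 1) < q - 1. pol_part gives a graph on N = q^2 + q - t q - y vertices with all
 degrees >= q - t - 1. N - n = q^2 + q - t q - (r + 1) - n = q + (t (q-1) + r) - t q - r - 1 = q - t - 1.
 So N <= deg v + n. And t <= (q^2 - n)/(q - 1) gives q - t - 1 >= (n - 2 q + 1)/(q - 1)
 = n/(q-1) - 2 - 1/(q-1) >= n/q - 3 >= 2 s - q - 3 (n/q + q >= 2 s).
(2) q^2 < n: the whole polarity graph, N = q^2 + q + 1 <= n + q.
A field with q elements for a prime power q = p^e: GaloisField p e.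
-/

namespace Pool.Agent.SC4.TP

open Classical in
theorem lower (K : Type) [Field K] [Fintype K] (n q : ℕ) (hq : Fintype.card K = q)
    (hn : 1 ≤ n) (hnq : n ≤ q ^ 2) :
    ∃ N : ℕ, (n : ℝ) + 2 * Real.sqrt n - q - 10 ≤ N ∧
      ∃ G : SimpleGraph (Fin N), LinearOver K G ∧ ∀ v, N ≤ G.degree v + n := by
  have hs0 : 0 ≤ Real.sqrt n := Real.sqrt_nonneg _
  have hsq : Real.sqrt n ^ 2 = n := Real.sq_sqrt (Nat.cast_nonneg n)
  have hnqr : (n : ℝ) ≤ (q : ℝ) ^ 2 := by exact_mod_cast hnq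
  have hsle : Real.sqrt n ≤ q := by
    rw [Real.sqrt_le_left (Nat.cast_nonneg q)]
    exact hnqr
  by_cases hA : 2 * Real.sqrt n - q ≤ 10
  · obtain ⟨G, hG⟩ := pol_empty K q hq n (by omega)
    exact ⟨n, by linarith, G, hG, fun v => Nat.le_add_left _ _⟩
  · push Not at hA
    have hq10 : (10 : ℝ) < q := by linarith
    have hq10' : 10 < q := by exact_mod_cast hq10
    have hn2 : 2 * q ≤ n := by
      have h1 : (2 * q : ℝ) ≤ n := by nlinarith
      exact_mod_cast h1
    obtain ⟨a, ha⟩ : ∃ a, q = a + 1 := ⟨q - 1, by omega⟩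
    obtain ⟨b, hb⟩ : ∃ b, q ^ 2 = n + b := ⟨q ^ 2 - n, by omega⟩
    have ha10 : 10 ≤ a := by omega
    set t : ℕ := b / a with ht
    set r : ℕ := b % a with hr
    have htr : a * t + r = b := Nat.div_add_mod b a
    have hra : r < a := Nat.mod_lt _ (by omega)
    have hsq' : q ^ 2 = q * a + q := by rw [ha]; ring
    have hta : t < a := by
      rw [ht]
      rw [Nat.div_lt_iff_lt_mul (by omega)]
      have h1 : q ^ 2 = a * a + 2 * a + 1 := by rw [ha]; ring
      omega
    obtain ⟨G, hG1, hG2⟩ := pol_part K q hq t (r + 1) (by omega) (by omega)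
    have hN : q ^ 2 + q - t * q - (r + 1) = n + (q - t - 1) := by
      have h1 : t * q = a * t + t := by rw [ha]; ring
      omega
    refine ⟨q ^ 2 + q - t * q - (r + 1), ?_, G, hG1, ?_⟩
    · rw [hN]
      have h2 : (((n + (q - t - 1) : ℕ)) : ℝ) = (n : ℝ) + (q - t - 1) := by
        have h3 : t + 1 ≤ q := by omega
        have h4 : ((q - t - 1 : ℕ) : ℝ) = (q : ℝ) - t - 1 := by
          rw [Nat.sub_sub, Nat.cast_sub h3]
          push_cast
          ring
        rw [Nat.cast_add, h4]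
      rw [h2]
      have h5 : (t : ℝ) * (q - 1) ≤ (q : ℝ) ^ 2 - n := by
        have h6 : (a : ℝ) = q - 1 := by rw [ha]; push_cast; ring
        have h7 : ((a * t + r : ℕ) : ℝ) = b := by exact_mod_cast htr
        have h8 : (q : ℝ) ^ 2 = n + b := by exact_mod_cast hb
        have h9 : (0 : ℝ) ≤ r := Nat.cast_nonneg r
        push_cast at h7
        rw [h8, ← h6]
        linarith
      have h10 : (t : ℝ) ≤ 2 * q - 2 * Real.sqrt n + 9 := by
        by_contra hcon
        push Not at hcon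
        have h11 : (2 * q - 2 * Real.sqrt n + 9) * (q - 1) < (t : ℝ) * (q - 1) :=
          mul_lt_mul_of_pos_right hcon (by linarith)
        nlinarith [sq_nonneg ((q : ℝ) - Real.sqrt n - 1)]
      linarith
    · intro v
      have h1 := hG2 v
      omega

open Classical in
theorem lower' (K : Type) [Field K] [Fintype K] (n q : ℕ) (hq : Fintype.card K = q)
    (hnq : q ^ 2 < n) :
    ∃ G : SimpleGraph (Fin (q ^ 2 + q + 1)), LinearOver K G ∧
      ∀ v, q ^ 2 + q + 1 ≤ G.degree v + n := by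
  obtain ⟨G, hG1, hG2⟩ := pol_full K q hq
  refine ⟨G, hG1, fun v => ?_⟩
  have h1 := hG2 v
  omega

end Pool.Agent.SC4.TP
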