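import Mathlib
import Pool.Agent.Work.MP_2d1b31_co.TP.Defs

set_option autoImplicit false

/-
MODULE TP/C4 (size S). An embedded graph has no 4-cycle. Let u <> v (points) have the two common
neighbours a <> b (lines); `C4Free`: u ≠ v → u~a → v~a → u~b → v~b → a = b.
If a = w: pt u, pt v are directions (axis) and, if b <> w, both are equal to dir b (inf), so pt u = pt v,
u = v by inj. Same if b = w. If a, b <> w: pt u = inl m, pt v = inl m': m - m' in H (dir a) and in
H (dir b), m <> m' so dir a = dir b by spread, and base a - base b = (m - base b) - (m - base a) in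
H (dir a), so a = b by `line`. pt u = inl m, pt v = inr c: c = dir a = dir b, base a - base b in
H (dir a), a = b. Both directions: both equal dir a, u = v.
`two` : two different lines through an affine point have different directions.
-/

namespace Pool.Agent.SC4.TP

private theorem c4_dir {V : Type} {G : SimpleGraph V} {w : V} {M : Type} [AddCommGroup M] {A : Type}
    {H : A → AddSubgroup M} {pt : V → M ⊕ A} {dir : V → A} {base : V → M}
    (hE : Emb G w H pt dir base) {u v a b : V} (huv : u ≠ v) (hub : G.Adj u b)
    (hvb : G.Adj v b) (hb : b ≠ w) (c d : A) (hc : pt u = Sum.inr c) (hd : pt v = Sum.inr d) : False := by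
  have h1 := hE.inf u b c hub hb hc
  have h2 := hE.inf v b d hvb hb hd
  apply huv
  apply hE.inj
  rw [hc, hd, h1, h2]

private theorem c4_mixed {V : Type} {G : SimpleGraph V} {w : V} {M : Type} [AddCommGroup M] {A : Type}
    {H : A → AddSubgroup M} {pt : V → M ⊕ A} {dir : V → A} {base : V → M}
    (hE : Emb G w H pt dir base) {u v a b : V} (hua : G.Adj u a) (hva : G.Adj v a) (hub : G.Adj u b)
    (hvb : G.Adj v b) (ha : a ≠ w) (hb : b ≠ w) (m : M) (c : A) (hm : pt u = Sum.inl m)
    (hc : pt v = Sum.inr c) : a = b := by
  have h1 := hE.inf v a c hva ha hc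
  have h2 := hE.inf v b c hvb hb hc
  have h3 := hE.aff u a m hua ha hm
  have h4 := hE.aff u b m hub hb hm
  have h5 : dir a = dir b := by rw [← h1, ← h2]
  apply hE.line a b ha hb h5
  rw [← h5] at h4
  have h6 := (H (dir a)).sub_mem h4 h3
  have h7 : m - base b - (m - base a) = base a - base b := by abel
  rwa [h7] at h6

theorem c4 {V : Type} {G : SimpleGraph V} {w : V} {M : Type} [AddCommGroup M] {A : Type}
    {H : A → AddSubgroup M} {pt : V → M ⊕ A} {dir : V → A} {base : V → M}
    (hE : Emb G w H pt dir base) : C4Free G := by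
  intro u v a b huv hua hva hub hvb
  by_contra hab
  by_cases ha : a = w
  · have hb : b ≠ w := fun h => hab (ha.trans h.symm)
    obtain ⟨c, hc⟩ := hE.axis u (ha ▸ hua)
    obtain ⟨d, hd⟩ := hE.axis v (ha ▸ hva)
    exact c4_dir hE (a := a) huv hub hvb hb c d hc hd
  by_cases hb : b = w
  · obtain ⟨c, hc⟩ := hE.axis u (hb ▸ hub)
    obtain ⟨d, hd⟩ := hE.axis v (hb ▸ hvb)
    exact c4_dir hE (a := a) huv hua hva ha c d hc hd
  rcases hu : pt u with m | c
  · rcases hv : pt v with m' | c'
    · have h1 := hE.aff u a m hua ha hu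
      have h2 := hE.aff v a m' hva ha hv
      have h3 := hE.aff u b m hub hb hu
      have h4 := hE.aff v b m' hvb hb hv
      have h5 : m - m' ∈ H (dir a) := by
        have := (H (dir a)).sub_mem h1 h2
        have e : m - base a - (m' - base a) = m - m' := by abel
        rwa [e] at this
      have h6 : m - m' ∈ H (dir b) := by
        have := (H (dir b)).sub_mem h3 h4
        have e : m - base b - (m' - base b) = m - m' := by abel
        rwa [e] at this
      by_cases hd : dir a = dir b
      · apply hab
        apply hE.line a b ha hb hd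
        rw [← hd] at h3
        have h7 := (H (dir a)).sub_mem h3 h1
        have e : m - base b - (m - base a) = base a - base b := by abel
        rwa [e] at h7
      · have h8 : m - m' ∈ H (dir a) ⊓ H (dir b) := ⟨h5, h6⟩
        rw [hE.spread _ _ hd] at h8
        have h9 : m - m' = 0 := by simpa using h8
        apply huv
        apply hE.inj
        rw [hu, hv, sub_eq_zero.1 h9]
    · exact hab (c4_mixed hE hua hva hub hvb ha hb m c' hu hv)
  · rcases hv : pt v with m' | c'
    · exact hab (c4_mixed hE hva hua hvb hub ha hb m' c hv hu)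
    · exact c4_dir hE (a := a) huv hub hvb hb c c' hu hv

theorem two {V : Type} {G : SimpleGraph V} {w : V} {M : Type} [AddCommGroup M] {A : Type}
    {H : A → AddSubgroup M} {pt : V → M ⊕ A} {dir : V → A} {base : V → M}
    (hE : Emb G w H pt dir base) (u v v' : V) (m : M) (hm : pt u = Sum.inl m) (h : G.Adj u v)
    (h' : G.Adj u v') (hvv : v ≠ v') : v ≠ w ∧ v' ≠ w ∧ dir v ≠ dir v' := by
  have hv : v ≠ w := by
    rintro rfl
    obtain ⟨a, ha⟩ := hE.axis u h
    rw [hm] at ha
    cases ha
  have hv' : v' ≠ w := by
    rintro rfl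
    obtain ⟨a, ha⟩ := hE.axis u h'
    rw [hm] at ha
    cases ha
  refine ⟨hv, hv', fun hd => hvv ?_⟩
  apply hE.line v v' hv hv' hd
  have h1 := hE.aff u v m h hv hm
  have h2 := hE.aff u v' m h' hv' hm
  rw [← hd] at h2
  have h3 := (H (dir v)).sub_mem h2 h1
  have e : m - base v' - (m - base v) = base v - base v' := by abel
  rwa [e] at h3

end Pool.Agent.SC4.TP
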