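import Mathlib
import Pool.Agent.Work.MP_2d1b31_co.TP.Defs
import Pool.Agent.Work.MP_2d1b31_co.TP.C4

set_option autoImplicit false

/-
MODULE TP/Few (size M). Cites c4, two.
T = {u : u not adjacent to w, and u is not an affine point of the coset m0 + W}. Claim |T| < k.
A vertex v <> w is a GOOD line if it has a neighbour x adjacent to w (x = x_v is unique: C4Free), else
BAD. BL = set of bad lines.
(0) |BL| <= zeta: the good lines are the disjoint union over x in N(w) of N(x) \ {w}, at least
(y + 1) y of them, and N - 1 = E + y = y^2 + zeta + y.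
(1) If x ~ w and pt x = inr a and x' ~ w, pt x' = inr a', x <> x': a <> a' (inj), |W ⊓ H a| |W ⊓ H a'|
= h^2 = |W| and the intersection is trivial, so W = (W ⊓ H a) + (W ⊓ H a') (every element of W is a sum).
(2) Let u in T and assume u is Joined to some x ~ w (then pt u is affine, see Start: if pt u = inr c
then c = dir v = a, u = x), pt u = inl m, m - m0 notin W, so u is in
Out := {u : Joined to some x, not an affine point of the coset}, |Out| <= 1312 k y.
Let v in N(u) be a good line (v <> w as u is not adjacent to w; x_v <> u). All elements s of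
N(v) \ {x_v} are Joined G w x_v s, affine. CLAIM: at most one good v in N(u) has an s in
N(v) \ {x_v} with pt s in m0 + W. Suppose v <> v' do, with s, s' (affine points m_s, m_s' in m0 + W).
dir v <> dir v' (two), m - m_s in H (dir v), m - m_s' in H (dir v'); m_s - m_s' in W = a1 + b1 by (1)
with a1 in W ⊓ H (dir v), b1 in W ⊓ H (dir v') (dir v = direction of x_v by inf). Then
(m - m_s) + a1 = (m - m_s') - b1 lies in H (dir v) ⊓ H (dir v') = bot, so m = m_s - a1 in m0 + W,
contradiction.
So all but one good v in N(u) have N(v) \ {x_v} contained in Out; the sets N(v) \ {x_v, u} have at least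
y - 1 elements and are disjoint (C4Free). With g the number of good lines in N(u):
(g - 1)(y - 1) <= 1312 k y <= 1313 k (y - 1), g <= 1314 k. So |N(u) cap BL| >= y + 1 - 1314 k.
(3) Let u in T not Joined to any x ~ w. Then every v in N(u) is bad (v <> w; a neighbour x ~ w of v
would give Joined G w x u, x <> u since u is not adjacent to w): |N(u) cap BL| >= y + 1.
(4) If |T| >= k take k elements; |N(u) cap N(u')| <= 1 for u <> u', so
|BL| >= k (y + 1 - 1314 k) - k^2 / 2, but 6 |BL| <= 6 zeta <= k y; contradiction with 100000 k <= y.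
-/

namespace Pool.Agent.SC4.TP

open Classical in
private theorem few_union {ι α : Type} (S : Finset ι) (B : ι → Finset α)
    (h : ∀ i ∈ S, ∀ j ∈ S, i ≠ j → (B i ∩ B j).card ≤ 1) :
    ∑ i ∈ S, (B i).card ≤ (S.biUnion B).card + S.card ^ 2 := by
  induction S using Finset.induction_on with
  | empty => simp
  | insert a s ha ih =>
    have ih' := ih (fun i hi j hj => h i (Finset.mem_insert_of_mem hi) j
      (Finset.mem_insert_of_mem hj))
    rw [Finset.sum_insert ha, Finset.biUnion_insert, Finset.card_insert_of_notMem ha]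
    have h1 := Finset.card_union_add_card_inter (B a) (s.biUnion B)
    have h2 : (B a ∩ s.biUnion B).card ≤ s.card := by
      have h3 : B a ∩ s.biUnion B = s.biUnion (fun i => B a ∩ B i) := by
        ext z
        simp only [Finset.mem_inter, Finset.mem_biUnion]
        constructor
        · rintro ⟨h4, i, hi, h5⟩
          exact ⟨i, hi, h4, h5⟩
        · rintro ⟨i, hi, h4, h5⟩
          exact ⟨h4, i, hi, h5⟩
      rw [h3]
      calc _ ≤ s.card * 1 := Finset.card_biUnion_le_card_mul _ _ _
            (fun i hi => h a (Finset.mem_insert_self _ _) i (Finset.mem_insert_of_mem hi)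
              (by rintro rfl; exact ha hi))
        _ = _ := mul_one _
    nlinarith

open Classical in
private theorem few_bl {V : Type} [Fintype V] {G : SimpleGraph V} (w : V) (hC : C4Free G)
    (y ζ E : ℕ) (hdeg : ∀ v, y + 1 ≤ G.degree v) (hcard : Fintype.card V = E + (y + 1))
    (hζ : E = y ^ 2 + ζ) :
    (Finset.univ.filter (fun v => v ≠ w ∧ ∀ x, G.Adj w x → ¬ G.Adj x v)).card ≤ ζ := by
  set BL := Finset.univ.filter (fun v => v ≠ w ∧ ∀ x, G.Adj w x → ¬ G.Adj x v) with hBL
  set Gd := (G.neighborFinset w).biUnion (fun x => (G.neighborFinset x).erase w) with hGd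
  have h1 : (y + 1) * y ≤ Gd.card := by
    rw [hGd, Finset.card_biUnion]
    · calc (y + 1) * y ≤ (G.neighborFinset w).card * y :=
            Nat.mul_le_mul_right _ (by rw [G.card_neighborFinset_eq_degree]; exact hdeg w)
        _ = ∑ x ∈ G.neighborFinset w, y := by rw [Finset.sum_const, smul_eq_mul]
        _ ≤ ∑ x ∈ G.neighborFinset w, ((G.neighborFinset x).erase w).card := by
          apply Finset.sum_le_sum
          intro x hx
          have hwx : w ∈ G.neighborFinset x := by
            rw [SimpleGraph.mem_neighborFinset]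
            exact ((G.mem_neighborFinset w x).mp hx).symm
          rw [Finset.card_erase_of_mem hwx, G.card_neighborFinset_eq_degree]
          have := hdeg x
          omega
    · intro x hx x' hx' hne
      have hx1 : G.Adj w x := (G.mem_neighborFinset w x).mp hx
      have hx1' : G.Adj w x' := (G.mem_neighborFinset w x').mp hx'
      refine Finset.disjoint_left.mpr ?_
      intro v hv hv'
      rw [Finset.mem_erase, SimpleGraph.mem_neighborFinset] at hv hv'
      exact hne (hC v w x x' hv.1 hv.2.symm hx1 hv'.2.symm hx1')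
  have h2 : Disjoint Gd BL := by
    refine Finset.disjoint_left.mpr ?_
    intro v hv hv'
    rw [hGd, Finset.mem_biUnion] at hv
    obtain ⟨x, hx, hv⟩ := hv
    rw [Finset.mem_erase, SimpleGraph.mem_neighborFinset] at hv
    rw [hBL, Finset.mem_filter] at hv'
    exact hv'.2.2 x ((G.mem_neighborFinset w x).mp hx) hv.2
  have h3 : Gd ∪ BL ⊆ Finset.univ.erase w := by
    intro v hv
    rw [Finset.mem_erase]
    refine ⟨?_, Finset.mem_univ _⟩
    rcases Finset.mem_union.mp hv with hv | hv
    · rw [hGd, Finset.mem_biUnion] at hv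
      obtain ⟨x, hx, hv⟩ := hv
      exact (Finset.mem_erase.mp hv).1
    · rw [hBL, Finset.mem_filter] at hv
      exact hv.2.1
  have h4 := Finset.card_le_card h3
  rw [Finset.card_union_of_disjoint h2, Finset.card_erase_of_mem (Finset.mem_univ w),
    Finset.card_univ, hcard, hζ] at h4
  have h5 : y ^ 2 + ζ + (y + 1) - 1 = y ^ 2 + ζ + y := by omega
  rw [h5] at h4
  nlinarith

private theorem few_sum {M : Type} [AddCommGroup M] (W H1 H2 : AddSubgroup M) (h : ℕ) [Finite W]
    (hW : Nat.card W = h ^ 2) (h1 : Nat.card (W ⊓ H1 : AddSubgroup M) = h)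
    (h2 : Nat.card (W ⊓ H2 : AddSubgroup M) = h) (hb : H1 ⊓ H2 = ⊥) (z : M) (hz : z ∈ W) :
    ∃ a ∈ W ⊓ H1, ∃ b ∈ W ⊓ H2, a + b = z := by
  let f : (W ⊓ H1 : AddSubgroup M) × (W ⊓ H2 : AddSubgroup M) → W :=
    fun p => ⟨p.1.1 + p.2.1, W.add_mem p.1.2.1 p.2.2.1⟩
  have hinj : Function.Injective f := by
    rintro ⟨⟨a, ha⟩, ⟨b, hb'⟩⟩ ⟨⟨a', ha'⟩, ⟨b', hb''⟩⟩ heq
    have heq' : a + b = a' + b' := congrArg Subtype.val heq
    have h3 : a - a' = b' - b := by
      rw [sub_eq_sub_iff_add_eq_add, heq', add_comm]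
    have h4 : a - a' ∈ H1 ⊓ H2 :=
      ⟨H1.sub_mem ha.2 ha'.2, by rw [h3]; exact H2.sub_mem hb''.2 hb'.2⟩
    rw [hb, AddSubgroup.mem_bot] at h4
    have h5 : a = a' := sub_eq_zero.mp h4
    subst h5
    have h6 : b = b' := by simpa using heq'
    subst h6
    rfl
  have hcard : Nat.card ((W ⊓ H1 : AddSubgroup M) × (W ⊓ H2 : AddSubgroup M)) = Nat.card W := by
    rw [Nat.card_prod, h1, h2, hW, sq]
  have hbij : Function.Bijective f :=
    (Nat.bijective_iff_injective_and_card f).mpr ⟨hinj, hcard⟩
  obtain ⟨⟨⟨a, ha⟩, ⟨b, hb'⟩⟩, hab⟩ := hbij.2 ⟨z, hz⟩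
  exact ⟨a, ha, b, hb', congrArg Subtype.val hab⟩

open Classical in
private theorem few_u {V : Type} [Fintype V] {G : SimpleGraph V} {w : V} {M : Type}
    [AddCommGroup M] {A : Type} {H : A → AddSubgroup M} {pt : V → M ⊕ A} {dir : V → A}
    {base : V → M} (hE : Emb G w H pt dir base) (y k : ℕ) (hk : 1 ≤ k) (hky : 100000 * k ≤ y)
    (hdeg : ∀ v, y + 1 ≤ G.degree v)
    (W : AddSubgroup M) (m0 : M) (h : ℕ) [Finite W] (hW : Nat.card W = h ^ 2)
    (hx : ∀ x a, G.Adj w x → pt x = Sum.inr a → Nat.card (W ⊓ H a : AddSubgroup M) = h)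
    (hout : (Finset.univ.filter (fun u => (∃ x, G.Adj w x ∧ TN.Joined G w x u) ∧
        ∀ m, pt u = Sum.inl m → m - m0 ∉ W)).card ≤ 1312 * k * y)
    (u : V) (hu : ¬ G.Adj w u) (huW : ∀ m, pt u = Sum.inl m → m - m0 ∉ W) :
    y + 1 ≤ (G.neighborFinset u ∩
      Finset.univ.filter (fun v => v ≠ w ∧ ∀ x, G.Adj w x → ¬ G.Adj x v)).card + 1314 * k := by
  have hC : C4Free G := c4 hE
  set BL := Finset.univ.filter (fun v => v ≠ w ∧ ∀ x, G.Adj w x → ¬ G.Adj x v) with hBL
  set Out := Finset.univ.filter (fun u => (∃ x, G.Adj w x ∧ TN.Joined G w x u) ∧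
        ∀ m, pt u = Sum.inl m → m - m0 ∉ W) with hOut
  set Gu := (G.neighborFinset u).filter (fun v => ∃ x, G.Adj w x ∧ G.Adj x v) with hGu
  have hGmem : ∀ v ∈ Gu, G.Adj u v ∧ v ≠ w ∧ ∃ x, G.Adj w x ∧ G.Adj x v := by
    intro v hv
    rw [hGu, Finset.mem_filter, SimpleGraph.mem_neighborFinset] at hv
    refine ⟨hv.1, ?_, hv.2⟩
    rintro rfl
    exact hu hv.1.symm
  have hsplit : (G.neighborFinset u).card ≤ (G.neighborFinset u ∩ BL).card + Gu.card := by
    calc (G.neighborFinset u).card ≤ ((G.neighborFinset u ∩ BL) ∪ Gu).card := by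
          apply Finset.card_le_card
          intro v hv
          rw [Finset.mem_union]
          by_cases h1 : ∃ x, G.Adj w x ∧ G.Adj x v
          · right
            rw [hGu, Finset.mem_filter]
            exact ⟨hv, h1⟩
          · left
            rw [Finset.mem_inter, hBL, Finset.mem_filter]
            refine ⟨hv, Finset.mem_univ _, ?_, ?_⟩
            · rintro rfl
              exact hu ((G.mem_neighborFinset u v).mp hv).symm
            · intro x hx1 hx2
              exact h1 ⟨x, hx1, hx2⟩
      _ ≤ _ := Finset.card_union_le _ _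
  have hdegu : y + 1 ≤ (G.neighborFinset u).card := by
    rw [G.card_neighborFinset_eq_degree]
    exact hdeg u
  suffices hG : Gu.card ≤ 1314 * k by omega
  -- the set of good lines with points outside of the coset
  set G1 := Gu.filter (fun v => ∀ s, G.Adj v s → ¬ G.Adj w s → ∀ m, pt s = Sum.inl m →
    m - m0 ∉ W) with hG1
  set G2 := Gu.filter (fun v => ¬ ∀ s, G.Adj v s → ¬ G.Adj w s → ∀ m, pt s = Sum.inl m →
    m - m0 ∉ W) with hG2
  have h12 : G1.card + G2.card = Gu.card := Finset.card_filter_add_card_filter_not _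
  have hc2 : G2.card ≤ 1 := by
    rw [Finset.card_le_one]
    intro v hv v' hv'
    by_contra hne
    rw [hG2, Finset.mem_filter] at hv hv'
    obtain ⟨hvG, hvs⟩ := hv
    obtain ⟨hvG', hvs'⟩ := hv'
    obtain ⟨huv, hvw, x, hwx, hxv⟩ := hGmem v hvG
    obtain ⟨huv', hvw', x', hwx', hxv'⟩ := hGmem v' hvG'
    push Not at hvs hvs'
    obtain ⟨s, hvs1, hvs2, ms, hms, hmsW⟩ := hvs
    obtain ⟨s', hvs1', hvs2', ms', hms', hmsW'⟩ := hvs'
    obtain ⟨a, ha⟩ := hE.axis x hwx.symm
    obtain ⟨a', ha'⟩ := hE.axis x' hwx'.symm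
    have hda : a = dir v := hE.inf x v a hxv hvw ha
    have hda' : a' = dir v' := hE.inf x' v' a' hxv' hvw' ha'
    have hux : u ≠ x := by rintro rfl; exact hu hwx
    -- u is affine
    obtain ⟨m, hm⟩ : ∃ m, pt u = Sum.inl m := by
      rcases hpu : pt u with m | c
      · exact ⟨m, rfl⟩
      · exfalso
        have hc : c = dir v := hE.inf u v c huv hvw hpu
        apply hux
        apply hE.inj
        rw [hpu, ha, hc, hda]
    obtain ⟨-, -, hdd⟩ := two hE u v v' m hm huv huv' hne
    have e1 : m - ms ∈ H (dir v) := by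
      have t1 := hE.aff u v m huv hvw hm
      have t2 := hE.aff s v ms hvs1.symm hvw hms
      have t3 := (H (dir v)).sub_mem t1 t2
      have t4 : m - base v - (ms - base v) = m - ms := by abel
      rwa [t4] at t3
    have e2 : m - ms' ∈ H (dir v') := by
      have t1 := hE.aff u v' m huv' hvw' hm
      have t2 := hE.aff s' v' ms' hvs1'.symm hvw' hms'
      have t3 := (H (dir v')).sub_mem t1 t2
      have t4 : m - base v' - (ms' - base v') = m - ms' := by abel
      rwa [t4] at t3
    have e3 : ms - ms' ∈ W := by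
      have t3 := W.sub_mem hmsW hmsW'
      have t4 : ms - m0 - (ms' - m0) = ms - ms' := by abel
      rwa [t4] at t3
    have hb : H (dir v) ⊓ H (dir v') = ⊥ := hE.spread _ _ hdd
    have c1 : Nat.card (W ⊓ H (dir v) : AddSubgroup M) = h := by
      rw [← hda]; exact hx x a hwx ha
    have c2 : Nat.card (W ⊓ H (dir v') : AddSubgroup M) = h := by
      rw [← hda']; exact hx x' a' hwx' ha'
    obtain ⟨a1, ha1, b1, hb1, hab⟩ := few_sum W _ _ h hW c1 c2 hb _ e3
    have e4 : (m - ms) + a1 ∈ H (dir v) ⊓ H (dir v') := by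
      refine ⟨(H (dir v)).add_mem e1 ha1.2, ?_⟩
      have t : (m - ms) + a1 = (m - ms') - b1 := by
        have t5 : a1 = ms - ms' - b1 := by rw [← hab]; abel
        rw [t5]; abel
      rw [t]
      exact (H (dir v')).sub_mem e2 hb1.2
    rw [hb, AddSubgroup.mem_bot] at e4
    apply huW m hm
    have t : m - m0 = (ms - m0) - a1 := by
      have t6 : m - m0 = ((m - ms) + a1) + ((ms - m0) - a1) := by abel
      rw [t6, e4, zero_add]
    rw [t]
    exact W.sub_mem hmsW ha1.1
  have hc1 : G1.card * (y - 1) ≤ 1312 * k * y := by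
    refine le_trans ?_ hout
    set D : V → Finset V := fun v => (G.neighborFinset v).filter (fun s => s ≠ u ∧ ¬ G.Adj w s)
      with hD
    calc G1.card * (y - 1) = ∑ v ∈ G1, (y - 1) := by rw [Finset.sum_const, smul_eq_mul]
      _ ≤ ∑ v ∈ G1, (D v).card := by
          apply Finset.sum_le_sum
          intro v hv
          have hvG : v ∈ Gu := (Finset.mem_filter.mp hv).1
          obtain ⟨huv, hvw, x, hwx, hxv⟩ := hGmem v hvG
          have hsub : G.neighborFinset v ⊆ insert x (insert u (D v)) := by
            intro s hs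
            rw [SimpleGraph.mem_neighborFinset] at hs
            rw [Finset.mem_insert, Finset.mem_insert]
            by_cases h1 : G.Adj w s
            · left
              exact hC v w s x hvw hs h1 hxv.symm hwx
            · right
              by_cases h2 : s = u
              · left; exact h2
              · right
                rw [hD]
                simp only [Finset.mem_filter, SimpleGraph.mem_neighborFinset]
                exact ⟨hs, h2, h1⟩
          have h3 := Finset.card_le_card hsub
          rw [G.card_neighborFinset_eq_degree] at h3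
          have h4 := Finset.card_insert_le x (insert u (D v))
          have h5 := Finset.card_insert_le u (D v)
          have h6 := hdeg v
          omega
      _ = (G1.biUnion D).card := by
          rw [Finset.card_biUnion]
          intro v hv v' hv' hne
          refine Finset.disjoint_left.mpr ?_
          intro s hs hs'
          rw [hD] at hs hs'
          simp only [Finset.mem_filter, SimpleGraph.mem_neighborFinset] at hs hs'
          have hvG : v ∈ Gu := (Finset.mem_filter.mp hv).1
          have hvG' : v' ∈ Gu := (Finset.mem_filter.mp hv').1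
          exact hne (hC u s v v' (fun h => hs.2.1 h.symm) (hGmem v hvG).1 hs.1.symm
            (hGmem v' hvG').1 hs'.1.symm)
      _ ≤ Out.card := by
          apply Finset.card_le_card
          intro s hs
          rw [Finset.mem_biUnion] at hs
          obtain ⟨v, hv, hs⟩ := hs
          rw [hD] at hs
          simp only [Finset.mem_filter, SimpleGraph.mem_neighborFinset] at hs
          rw [hG1, Finset.mem_filter] at hv
          obtain ⟨huv, hvw, x, hwx, hxv⟩ := hGmem v hv.1
          rw [hOut, Finset.mem_filter]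
          refine ⟨Finset.mem_univ _, ⟨x, hwx, v, hxv, hvw, hs.1, ?_⟩, ?_⟩
          · rintro rfl
            exact hs.2.2 hwx
          · exact hv.2 s hs.1 hs.2.2
  have hc1' : G1.card ≤ 1313 * k := by
    by_contra hcon
    push Not at hcon
    obtain ⟨z, hz⟩ : ∃ z, y = z + 1 := ⟨y - 1, by omega⟩
    rw [hz] at hc1 hky
    have e1 : z + 1 - 1 = z := by omega
    rw [e1] at hc1
    have e2 : (1313 * k + 1) * z ≤ G1.card * z := Nat.mul_le_mul_right _ hcon
    nlinarith
  omega

open Classical in
theorem few {V : Type} [Fintype V] {G : SimpleGraph V} {w : V} {M : Type} [AddCommGroup M]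
    {A : Type} {H : A → AddSubgroup M} {pt : V → M ⊕ A} {dir : V → A} {base : V → M}
    (hE : Emb G w H pt dir base) (y k ζ E : ℕ) (hk : 1 ≤ k) (hky : 100000 * k ≤ y)
    (hdeg : ∀ v, y + 1 ≤ G.degree v) (hcard : Fintype.card V = E + (y + 1))
    (hζ : E = y ^ 2 + ζ) (hζk : 6 * ζ ≤ k * y)
    (W : AddSubgroup M) (m0 : M) (h : ℕ) [Finite W] (hW : Nat.card W = h ^ 2)
    (hx : ∀ x a, G.Adj w x → pt x = Sum.inr a → Nat.card (W ⊓ H a : AddSubgroup M) = h)
    (hout : (Finset.univ.filter (fun u => (∃ x, G.Adj w x ∧ TN.Joined G w x u) ∧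
        ∀ m, pt u = Sum.inl m → m - m0 ∉ W)).card ≤ 1312 * k * y) :
    (Finset.univ.filter (fun u => ¬ G.Adj w u ∧ ∀ m, pt u = Sum.inl m → m - m0 ∉ W)).card < k := by
  have hC : C4Free G := c4 hE
  by_contra hcon
  push Not at hcon
  set T := Finset.univ.filter (fun u => ¬ G.Adj w u ∧ ∀ m, pt u = Sum.inl m → m - m0 ∉ W) with hT
  obtain ⟨S, hST, hSk⟩ := Finset.exists_subset_card_eq hcon
  set BL := Finset.univ.filter (fun v => v ≠ w ∧ ∀ x, G.Adj w x → ¬ G.Adj x v) with hBL
  have hBLc : BL.card ≤ ζ := few_bl w hC y ζ E hdeg hcard hζ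
  have hu : ∀ u ∈ S, y + 1 ≤ (G.neighborFinset u ∩ BL).card + 1314 * k := by
    intro u huS
    have huT := hST huS
    rw [hT, Finset.mem_filter] at huT
    exact few_u hE y k hk hky hdeg W m0 h hW hx hout u huT.2.1 huT.2.2
  have h1 := few_union S (fun u => G.neighborFinset u ∩ BL) (by
    intro u _ u' _ hne
    rw [Finset.card_le_one]
    intro a ha b hb
    simp only [Finset.mem_inter, SimpleGraph.mem_neighborFinset] at ha hb
    exact hC u u' a b hne ha.1.1 ha.2.1 hb.1.1 hb.2.1)
  have h2 : (S.biUnion (fun u => G.neighborFinset u ∩ BL)).card ≤ BL.card := by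
    apply Finset.card_le_card
    intro v hv
    rw [Finset.mem_biUnion] at hv
    obtain ⟨u, _, hv⟩ := hv
    exact (Finset.mem_inter.mp hv).2
  have h3 : S.card * (y + 1) ≤ ∑ u ∈ S, (G.neighborFinset u ∩ BL).card + S.card * (1314 * k) := by
    calc S.card * (y + 1) = ∑ u ∈ S, (y + 1) := by rw [Finset.sum_const, smul_eq_mul]
      _ ≤ ∑ u ∈ S, ((G.neighborFinset u ∩ BL).card + 1314 * k) := Finset.sum_le_sum hu
      _ = _ := by rw [Finset.sum_add_distrib, Finset.sum_const, smul_eq_mul]
  rw [hSk] at h1 h3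
  have h4 : k * (y + 1) ≤ ζ + k ^ 2 + k * (1314 * k) := by omega
  nlinarith

end Pool.Agent.SC4.TP
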