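import Mathlib
import Pool.Agent.Work.MP_2d1b31_co.TP.Defs
import Pool.Agent.Work.MP_2d1b31_co.TP.C4
import Pool.Agent.Work.MP_2d1b31_co.TN.Count
import Pool.Agent.Work.MP_2d1b31_co.TN.Assembly

set_option autoImplicit false

/-
MODULE TP/Start (size M). Cites c4, TN.count_of, TN.assembly.
I = all neighbours of w; |I| >= y + 1 >= 3. H' x := H a if pt x = inr a, else bot;
p u := m if pt u = inl m, else 0. For x in I: pt x = inr a for some a (axis). If Joined G w x u
(v with x ~ v, v <> w, v ~ u, u <> x): pt u cannot be a direction, since it would be dir v = a = pt x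
(inf) and u = x (inj); so pt u = inl (p u).
Hypotheses of count_of: hp by inj; hc: p u - base v, p u' - base v in H (dir v) and a = dir v (inf).
zeta <= y^2 because 6 zeta <= k y <= y^2. Trivial intersections of H' x, H' x' for x <> x' in I: the
directions of x and x' are different by inj.
D = E / y: y <= D (y^2 <= E) and D <= 2 y (E <= y^2 + k y / 6 <= 2 y^2). assembly (4000 k <= D,
6 zeta <= k y <= k D) gives W, h, m0 with h^2 <= |U| + 492 k D <= E + 984 k y <= y^2 + 985 k y,
y^2 <= |U| <= h^2 + 656 k D <= h^2 + 1312 k y, and at most 656 k D <= 1312 k y points of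
U = p({u : exists x in I, Joined G w x u}) outside m0 + W; p is injective on that set of vertices.
-/

namespace Pool.Agent.SC4.TP

open Classical in
private lemma lines_disj {V : Type} [Fintype V] (G : SimpleGraph V) (hG : C4Free G) (x : V)
    (A : Finset V) (hA : ∀ v ∈ A, G.Adj x v) :
    Set.PairwiseDisjoint (A : Set V) (fun v => (G.neighborFinset v).erase x) := by
  intro v hv v' hv' hne
  rw [Function.onFun, Finset.disjoint_left]
  intro u hu hu'
  rw [Finset.mem_erase, SimpleGraph.mem_neighborFinset] at hu hu'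
  exact hu.1 (hG v v' x u hne (hA v hv).symm (hA v' hv').symm hu.2 hu'.2).symm

open Classical in
private lemma lines_card {V : Type} [Fintype V] (G : SimpleGraph V) (hG : C4Free G) (y : ℕ)
    (hdeg : ∀ v, y + 1 ≤ G.degree v) (x : V)
    (A : Finset V) (hA : ∀ v ∈ A, G.Adj x v) :
    A.card * y ≤ (A.biUnion (fun v => (G.neighborFinset v).erase x)).card := by
  rw [Finset.card_biUnion (lines_disj G hG x A hA), ← smul_eq_mul]
  apply Finset.card_nsmul_le_sum
  intro v hv
  rw [Finset.card_erase_of_mem (by rw [SimpleGraph.mem_neighborFinset]; exact (hA v hv).symm)]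
  have := hdeg v
  rw [← SimpleGraph.card_neighborFinset_eq_degree] at this
  omega

open Classical in
private theorem count_of {V : Type} [Fintype V] (G : SimpleGraph V) (hG : C4Free G) (y : ℕ) (hy : 1 ≤ y)
    (hdeg : ∀ v, y + 1 ≤ G.degree v) (w : V) (I : Finset V) (hI : 1 ≤ I.card)
    (hwI : ∀ x ∈ I, G.Adj w x) {M : Type} [AddCommGroup M] (H : V → AddSubgroup M) (p : V → M)
    (hinj : ∀ x ∈ I, ∀ y ∈ I, ∀ u u', TN.Joined G w x u → TN.Joined G w y u' → p u = p u' → u = u')
    (hcls : ∀ x ∈ I, ∀ v u u', G.Adj x v → v ≠ w → G.Adj v u → G.Adj v u' → u ≠ x → u' ≠ x →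
      p u - p u' ∈ H x)
    (E ζ : ℕ) (hE : Fintype.card V = E + (y + 1)) (hζ : E = y ^ 2 + ζ) (hζy : ζ ≤ y ^ 2) :
    ∃ (U : Finset M) (J : V → Finset M),
      U = (I.biUnion (fun x => Finset.univ.filter (fun u => TN.Joined G w x u))).image p ∧
      (∀ x ∈ I, J x ⊆ U) ∧
      (∀ x ∈ I, ((J x).image (fun s => (s : M ⧸ H x))).card ≤ E / y) ∧
      (∀ x ∈ I, (U \ J x).card ≤ ζ) ∧
      (E / y) ^ 2 ≤ U.card + 3 * ζ ∧ U.card ≤ (E / y) ^ 2 + E / y ∧
      y ^ 2 ≤ U.card ∧ U.card ≤ E := by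
  let Jv : V → Finset V := fun x => Finset.univ.filter (fun u => TN.Joined G w x u)
  have memJ : ∀ x u, u ∈ Jv x ↔ TN.Joined G w x u := by
    intro x u
    simp [Jv]
  let Ln : V → Finset V := fun x => (G.neighborFinset x).erase w
  have hLn : ∀ x, ∀ v ∈ Ln x, G.Adj x v := by
    intro x v hv
    have := (Finset.mem_erase.mp hv).2
    rwa [SimpleGraph.mem_neighborFinset] at this
  have hJv : ∀ x, Jv x = (Ln x).biUnion (fun v => (G.neighborFinset v).erase x) := by
    intro x
    ext u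
    rw [memJ, Finset.mem_biUnion]
    constructor
    · rintro ⟨v, h1, h2, h3, h4⟩
      refine ⟨v, ?_, ?_⟩
      · rw [Finset.mem_erase, SimpleGraph.mem_neighborFinset]; exact ⟨h2, h1⟩
      · rw [Finset.mem_erase, SimpleGraph.mem_neighborFinset]; exact ⟨h4, h3⟩
    · rintro ⟨v, h1, h2⟩
      rw [Finset.mem_erase, SimpleGraph.mem_neighborFinset] at h1 h2
      exact ⟨v, h1.2, h1.1, h2.2, h2.1⟩
  have cLn : ∀ x ∈ I, (Ln x).card + 1 = G.degree x := by
    intro x hx
    have h1 : w ∈ G.neighborFinset x := by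
      rw [SimpleGraph.mem_neighborFinset]; exact (hwI x hx).symm
    have h2 := Finset.card_erase_add_one h1
    rw [SimpleGraph.card_neighborFinset_eq_degree] at h2
    exact h2
  -- (0)
  have h0 : ∀ x ∈ I, (Ln x).card * y ≤ E := by
    intro x hx
    have h1 := lines_card G hG y hdeg x (G.neighborFinset x)
      (fun v hv => by rwa [SimpleGraph.mem_neighborFinset] at hv)
    have h2 : ((G.neighborFinset x).biUnion (fun v => (G.neighborFinset v).erase x)).card
        ≤ (Finset.univ.erase x : Finset V).card := by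
      apply Finset.card_le_card
      intro u hu
      rw [Finset.mem_biUnion] at hu
      obtain ⟨v, _, hv⟩ := hu
      rw [Finset.mem_erase] at hv ⊢
      exact ⟨hv.1, Finset.mem_univ _⟩
    rw [Finset.card_erase_of_mem (Finset.mem_univ x), Finset.card_univ, hE] at h2
    rw [SimpleGraph.card_neighborFinset_eq_degree, ← cLn x hx] at h1
    have h3 : ((Ln x).card + 1) * y = (Ln x).card * y + y := by ring
    omega
  -- (1)
  have h1 : ∀ x ∈ I, y ^ 2 ≤ (Jv x).card := by
    intro x hx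
    have h2 := lines_card G hG y hdeg x (Ln x) (hLn x)
    rw [← hJv] at h2
    have h3 : y ≤ (Ln x).card := by
      have := hdeg x
      rw [← cLn x hx] at this
      omega
    calc y ^ 2 = y * y := pow_two y
      _ ≤ (Ln x).card * y := Nat.mul_le_mul_right _ h3
      _ ≤ _ := h2
  set Uv : Finset V := I.biUnion Jv with hUv
  have h3 : Uv.card ≤ E := by
    have h4 : Uv ⊆ (Finset.univ \ G.neighborFinset w) := by
      intro u hu
      rw [hUv, Finset.mem_biUnion] at hu
      obtain ⟨x, hx, hux⟩ := hu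
      rw [memJ] at hux
      obtain ⟨v, a1, a2, a3, a4⟩ := hux
      rw [Finset.mem_sdiff, SimpleGraph.mem_neighborFinset]
      refine ⟨Finset.mem_univ _, fun hadj => ?_⟩
      exact a4 (hG w v x u (Ne.symm a2) (hwI x hx) a1.symm hadj a3).symm
    have h5 := Finset.card_le_card h4
    rw [Finset.card_sdiff_of_subset (Finset.subset_univ _), Finset.card_univ,
      SimpleGraph.card_neighborFinset_eq_degree, hE] at h5
    have := hdeg w
    omega
  have hpinj : Set.InjOn p (Uv : Set V) := by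
    intro u hu u' hu' huu
    rw [Finset.mem_coe, hUv, Finset.mem_biUnion] at hu hu'
    obtain ⟨x, hx, hux⟩ := hu
    obtain ⟨x', hx', hux'⟩ := hu'
    rw [memJ] at hux hux'
    exact hinj x hx x' hx' u u' hux hux' huu
  have hJU : ∀ x ∈ I, Jv x ⊆ Uv := fun x hx => Finset.subset_biUnion_of_mem Jv hx
  have cU : (Uv.image p).card = Uv.card := Finset.card_image_of_injOn hpinj
  obtain ⟨x0, hx0⟩ := Finset.card_pos.mp (by omega : 0 < I.card)
  have hUy : y ^ 2 ≤ Uv.card := (h1 x0 hx0).trans (Finset.card_le_card (hJU x0 hx0))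
  have hDy : E / y * y ≤ E := Nat.div_mul_le_self E y
  have hyD : y ≤ E / y := by
    rw [Nat.le_div_iff_mul_le (by omega)]
    rw [hζ]; nlinarith
  refine ⟨Uv.image p, fun x => (Jv x).image p, rfl, ?_, ?_, ?_, ?_, ?_, ?_, ?_⟩
  · intro x hx
    exact Finset.image_subset_image (hJU x hx)
  · intro x hx
    have hk : (((Jv x).image p).image (QuotientAddGroup.mk' (H x))).card ≤ (Ln x).card := by
      let c : V → M ⧸ H x := fun v => if hv : ∃ u, G.Adj v u ∧ u ≠ x then
        QuotientAddGroup.mk' (H x) (p hv.choose) else 0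
      refine le_trans (Finset.card_le_card (t := (Ln x).image c) ?_) Finset.card_image_le
      intro q hq
      rw [Finset.mem_image] at hq
      obtain ⟨s, hs, hsq⟩ := hq
      rw [Finset.mem_image] at hs
      obtain ⟨u, hu, hus⟩ := hs
      rw [memJ] at hu
      obtain ⟨v, a1, a2, a3, a4⟩ := hu
      rw [Finset.mem_image]
      refine ⟨v, ?_, ?_⟩
      · rw [Finset.mem_erase, SimpleGraph.mem_neighborFinset]; exact ⟨a2, a1⟩
      · have hv : ∃ u, G.Adj v u ∧ u ≠ x := ⟨u, a3, a4⟩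
        have e1 : c v = QuotientAddGroup.mk' (H x) (p hv.choose) := dif_pos hv
        rw [e1, ← hsq, ← hus]
        show ((p hv.choose : M) : M ⧸ H x) = ((p u : M) : M ⧸ H x)
        rw [QuotientAddGroup.eq]
        have := hcls x hx v u hv.choose a1 a2 a3 hv.choose_spec.1 a4 hv.choose_spec.2
        rwa [sub_eq_neg_add] at this
    have hk2 : (Ln x).card ≤ E / y := by
      rw [Nat.le_div_iff_mul_le (by omega)]
      exact h0 x hx
    refine le_trans (le_of_eq ?_) (hk.trans hk2)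
    congr 1
    ext a
    simp [Finset.mem_image, eq_comm]
  · intro x hx
    have e1 : Uv.image p \ (Jv x).image p ⊆ (Uv \ Jv x).image p := by
      intro a ha
      rw [Finset.mem_sdiff, Finset.mem_image] at ha
      obtain ⟨⟨u, hu, hua⟩, hnot⟩ := ha
      rw [Finset.mem_image]
      refine ⟨u, ?_, hua⟩
      rw [Finset.mem_sdiff]
      refine ⟨hu, fun hcon => hnot ?_⟩
      rw [← hua]
      exact Finset.mem_image_of_mem p hcon
    refine (Finset.card_le_card e1).trans (Finset.card_image_le.trans ?_)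
    rw [Finset.card_sdiff_of_subset (hJU x hx)]
    have := h1 x hx
    omega
  · rw [cU]
    have h5 : (E / y) ^ 2 * y ^ 2 ≤ (y ^ 2 + ζ) ^ 2 := by
      calc (E / y) ^ 2 * y ^ 2 = (E / y * y) ^ 2 := by ring
        _ ≤ E ^ 2 := Nat.pow_le_pow_left hDy 2
        _ = _ := by rw [← hζ]
    have h6 : (E / y) ^ 2 ≤ y ^ 2 + 3 * ζ := by
      by_contra hcon
      push Not at hcon
      have hy2 : 0 < y ^ 2 := by positivity
      have h7 : (y ^ 2 + 3 * ζ + 1) * y ^ 2 ≤ (E / y) ^ 2 * y ^ 2 :=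
        Nat.mul_le_mul_right _ hcon
      nlinarith
    omega
  · rw [cU]
    have h5 : E < (E / y + 1) * y := by
      have h6 := Nat.div_add_mod E y
      have h7 := Nat.mod_lt E (by omega : 0 < y)
      nlinarith
    have h6 : (E / y + 1) * y ≤ (E / y + 1) * (E / y) := Nat.mul_le_mul_left _ hyD
    have h7 : (E / y + 1) * (E / y) = (E / y) ^ 2 + E / y := by ring
    omega
  · rw [cU]; exact hUy
  · rw [cU]; exact h3

open Classical in
private theorem def_add {M : Type*} [AddCommGroup M] (U : Finset M) (g h : M) :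
    (U.filter (fun u => u + (g + h) ∉ U)).card ≤
      (U.filter (fun u => u + g ∉ U)).card + (U.filter (fun u => u + h ∉ U)).card := by
  have h1 : U.filter (fun u => u + (g + h) ∉ U) ⊆ U.filter (fun u => u + g ∉ U) ∪
      (U.filter (fun u => u + h ∉ U)).image (fun v => v - g) := by
    intro u hu
    rw [Finset.mem_filter] at hu
    rw [Finset.mem_union, Finset.mem_filter, Finset.mem_image]
    by_cases h2 : u + g ∈ U
    · right
      refine ⟨u + g, ?_, by abel⟩
      rw [Finset.mem_filter]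
      refine ⟨h2, ?_⟩
      rw [add_assoc]
      exact hu.2
    · exact Or.inl ⟨hu.1, h2⟩
  refine (Finset.card_le_card h1).trans ((Finset.card_union_le _ _).trans ?_)
  exact Nat.add_le_add_left Finset.card_image_le _

open Classical in
private theorem conv {M : Type*} [AddCommGroup M] (X : AddSubgroup M) (S : Finset M) :
    (S.image (fun s => (s : M ⧸ X))) =
      S.image (fun s : M => (QuotientAddGroup.mk s : M ⧸ X)) := by
  ext q
  simp [Finset.bind_def]

open Classical in
private theorem step1 {M : Type*} [AddCommGroup M] {ι : Type*} (I : Finset ι)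
    (H : ι → AddSubgroup M) (hH : ∀ x ∈ I, ∀ y ∈ I, x ≠ y → H x ⊓ H y = ⊥)
    (U : Finset M) (J : ι → Finset M) (hJ : ∀ x ∈ I, J x ⊆ U) (D k ζ : ℕ)
    (hk : 1 ≤ k) (hD : 4000 * k ≤ D)
    (hcos : ∀ x ∈ I, ((J x).image (fun s => (s : M ⧸ H x))).card ≤ D)
    (hζ : ∀ x ∈ I, (U \ J x).card ≤ ζ) (hζk : 6 * ζ ≤ k * D)
    (hlo : D ^ 2 ≤ U.card + 3 * ζ) (x y z : ι) (hx : x ∈ I) (hy : y ∈ I) (hz : z ∈ I)
    (hxy : x ≠ y) (hxz : x ≠ z) (hyz : y ≠ z) :
    ∃ G : Finset M, (∀ g ∈ G, g ∈ H z) ∧ 9 * D ≤ 10 * G.card ∧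
      ∀ g ∈ G, (U.filter (fun u => u + g ∉ U)).card ≤ 82 * k * D := by
  set S := J x ∩ J y ∩ J z with hS
  have hSU : S ⊆ U := fun s hs => hJ x hx (Finset.mem_inter.1 (Finset.mem_inter.1 hs).1).1
  have hUS : (U \ S).card ≤ 3 * ζ := by
    have h1 : U \ S ⊆ (U \ J x) ∪ (U \ J y) ∪ (U \ J z) := by
      intro u hu
      simp only [hS, Finset.mem_sdiff, Finset.mem_inter, Finset.mem_union] at hu ⊢
      tauto
    have h2 := Finset.card_le_card h1
    have h3 := Finset.card_union_le ((U \ J x) ∪ (U \ J y)) (U \ J z)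
    have h4 := Finset.card_union_le (U \ J x) (U \ J y)
    have h5 := hζ x hx
    have h6 := hζ y hy
    have h7 := hζ z hz
    omega
  have hcard : (U \ S).card + S.card = U.card := Finset.card_sdiff_add_card_eq_card hSU
  have im : ∀ w ∈ I, S ⊆ J w → (S.image (fun s => (s : M ⧸ H w))).card ≤ D := by
    intro w hw hsub
    have h1 := hcos w hw
    rw [conv] at h1 ⊢
    exact (Finset.card_le_card (Finset.image_subset_image hsub)).trans h1
  have hx' : S ⊆ J x := fun s hs => (Finset.mem_inter.1 (Finset.mem_inter.1 hs).1).1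
  have hy' : S ⊆ J y := fun s hs => (Finset.mem_inter.1 (Finset.mem_inter.1 hs).1).2
  have hz' : S ⊆ J z := fun s hs => (Finset.mem_inter.1 hs).2
  obtain ⟨G, g1, g2, g3⟩ := TN.three (H x) (H y) (H z) (hH x hx y hy hxy) (hH x hx z hz hxz)
    (hH y hy z hz hyz) S D k hk (by omega) (im x hx hx') (im y hy hy') (im z hz hz') (by
      generalize D ^ 2 = D2 at *
      generalize k * D = kD at *
      omega)
  refine ⟨G, g1, g2, fun g hg => ?_⟩
  have h1 : U.filter (fun u => u + g ∉ U) ⊆ (U \ S) ∪ S.filter (fun s => s + g ∉ S) := by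
    intro u hu
    rw [Finset.mem_filter] at hu
    rw [Finset.mem_union, Finset.mem_sdiff, Finset.mem_filter]
    by_cases h2 : u ∈ S
    · exact Or.inr ⟨h2, fun h3 => hu.2 (hSU h3)⟩
    · exact Or.inl ⟨hu.1, h2⟩
  have h2 := Finset.card_le_card h1
  have h3 := Finset.card_union_le (U \ S) (S.filter (fun s => s + g ∉ S))
  have h4 := g3 g hg
  have e : 81 * k * D = 81 * (k * D) := by ring
  have e' : 82 * k * D = 82 * (k * D) := by ring
  rw [e] at h4
  rw [e']
  generalize k * D = kD at *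
  omega

private theorem card_dvd {M : Type*} [AddCommGroup M] (A B W : AddSubgroup M) (hA : A ≤ W)
    (hB : B ≤ W) (h : A ⊓ B = ⊥) : Nat.card A * Nat.card B ∣ Nat.card W := by
  rw [← Nat.card_prod]
  let f : A × B →+ W :=
    { toFun := fun p => ⟨(p.1 : M) + (p.2 : M), W.add_mem (hA p.1.2) (hB p.2.2)⟩
      map_zero' := by
        apply Subtype.ext
        simp
      map_add' := by
        intro p q
        apply Subtype.ext
        simp only [Prod.fst_add, Prod.snd_add, AddSubgroup.coe_add]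
        abel }
  refine AddSubgroup.card_dvd_of_injective f ?_
  rw [injective_iff_map_eq_zero]
  rintro ⟨⟨a, ha⟩, ⟨b, hb⟩⟩ hp
  have h1 : a + b = 0 := congrArg Subtype.val hp
  have h2 : a = -b := eq_neg_of_add_eq_zero_left h1
  have h3 : a ∈ A ⊓ B := ⟨ha, by rw [h2]; exact B.neg_mem hb⟩
  rw [h, AddSubgroup.mem_bot] at h3
  have h4 : b = 0 := by rw [h3, zero_add] at h1; exact h1
  subst h3
  subst h4
  rfl

open Classical in
private theorem assembly2 {M : Type*} [AddCommGroup M] {ι : Type*} (I : Finset ι) (hI : 3 ≤ I.card)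
    (H : ι → AddSubgroup M) (hH : ∀ x ∈ I, ∀ y ∈ I, x ≠ y → H x ⊓ H y = ⊥)
    (U : Finset M) (J : ι → Finset M) (hJ : ∀ x ∈ I, J x ⊆ U) (D k ζ : ℕ)
    (hk : 1 ≤ k) (hD : 4000 * k ≤ D)
    (hcos : ∀ x ∈ I, ((J x).image (fun s => (s : M ⧸ H x))).card ≤ D)
    (hζ : ∀ x ∈ I, (U \ J x).card ≤ ζ) (hζk : 6 * ζ ≤ k * D)
    (hlo : D ^ 2 ≤ U.card + 3 * ζ) (hhi : U.card ≤ D ^ 2 + D) :
    ∃ (W : AddSubgroup M) (h : ℕ), Finite W ∧ Nat.card W = h ^ 2 ∧
      (∀ x ∈ I, Nat.card (W ⊓ H x : AddSubgroup M) = h) ∧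
      h ^ 2 ≤ U.card + 492 * k * D ∧ U.card ≤ h ^ 2 + 656 * k * D ∧
      ∃ m0 : M, (U.filter (fun u => u - m0 ∉ W)).card ≤ 656 * k * D := by
  have st := step1 I H hH U J hJ D k ζ hk hD hcos hζ hζk hlo
  have hDD : 4000 * (k * D) ≤ D ^ 2 := by nlinarith
  have hD4 : 4000 ≤ D := by nlinarith
  have hD2 : 4000 * D ≤ D ^ 2 := by nlinarith
  obtain ⟨x0, hx0, y0, hy0, z0, hz0, hxy, hxz, hyz⟩ := Finset.two_lt_card.1 (show 2 < I.card by omega)
  -- W
  obtain ⟨G, g1, g2, g3⟩ := st x0 y0 z0 hx0 hy0 hz0 hxy hxz hyz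
  obtain ⟨G', k1, k2, k3⟩ := st x0 z0 y0 hx0 hz0 hy0 hxz hxy hyz.symm
  set R := (G ×ˢ G').image (fun p => p.1 + p.2) with hR
  have hRc : R.card = G.card * G'.card := by
    rw [hR, Finset.card_image_of_injOn, Finset.card_product]
    rintro ⟨a, b⟩ hp ⟨c, d⟩ hq he
    rw [Finset.mem_coe, Finset.mem_product] at hp hq
    simp only at hp hq he
    have h1 : a - c = d - b := by
      rw [sub_eq_sub_iff_add_eq_add, he]
      abel
    have h2 : a - c ∈ H z0 ⊓ H y0 := by
      refine ⟨(H z0).sub_mem (g1 a hp.1) (g1 c hq.1), ?_⟩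
      rw [h1]
      exact (H y0).sub_mem (k1 d hq.2) (k1 b hp.2)
    rw [hH z0 hz0 y0 hy0 hyz.symm, AddSubgroup.mem_bot] at h2
    have h3 : a = c := sub_eq_zero.1 h2
    have h4 : b = d := by
      rw [h2] at h1
      exact (sub_eq_zero.1 h1.symm).symm
    rw [h3, h4]
  have hRlo : 81 * D ^ 2 ≤ 100 * R.card := by
    rw [hRc]
    nlinarith [Nat.mul_le_mul g2 k2]
  have hkD : 164 * k * D = 164 * (k * D) := by ring
  have hRdef : ∀ g ∈ R, (U.filter (fun u => u + g ∉ U)).card ≤ 164 * k * D := by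
    intro g hg
    obtain ⟨⟨a, b⟩, hp, rfl⟩ := Finset.mem_image.1 hg
    rw [Finset.mem_product] at hp
    have h1 := def_add U a b
    have h2 := g3 a hp.1
    have h3 := k3 b hp.2
    have e : 164 * k * D = 82 * k * D + 82 * k * D := by ring
    rw [e]
    exact h1.trans (Nat.add_le_add h2 h3)
  have hUc : 3 * U.card ≤ 4 * R.card := by
    generalize D ^ 2 = D2 at *
    omega
  have hUlo : 3280 * (k * D) + 1 ≤ U.card := by
    have : 1 ≤ k * D := by nlinarith
    generalize D ^ 2 = D2 at *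
    generalize k * D = kD at *
    omega
  obtain ⟨W, m0, w1, w2, w3, w4, w5, w6⟩ := TN.gap U R (164 * k * D)
    (Finset.card_pos.1 (by omega)) hUc (by rw [hkD]; omega) hRdef
  have := w1
  have fin : ∀ z, Finite (W ⊓ H z : AddSubgroup M) := fun z =>
    Set.Finite.subset (s := (W : Set M)) (Set.toFinite _) (fun m hm => hm.1)
  -- the lower bound
  have low : ∀ z ∈ I, 9 * D ≤ 10 * Nat.card (W ⊓ H z : AddSubgroup M) := by
    intro z hz
    obtain ⟨x, hx, y, hy, hxy', hxz', hyz'⟩ : ∃ x ∈ I, ∃ y ∈ I, x ≠ y ∧ x ≠ z ∧ y ≠ z := by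
      by_cases h1 : x0 = z
      · exact ⟨y0, hy0, z0, hz0, hyz, fun h => hxy (h1.trans h.symm), fun h => hxz (h1.trans h.symm)⟩
      · by_cases h2 : y0 = z
        · exact ⟨x0, hx0, z0, hz0, hxz, h1, fun h => hyz (h2.trans h.symm)⟩
        · exact ⟨x0, hx0, y0, hy0, hxy, h1, h2⟩
    obtain ⟨Q, q1, q2, q3⟩ := st x y z hx hy hz hxy' hxz' hyz'
    refine q2.trans (Nat.mul_le_mul_left 10 ?_)
    have := fin z
    have h1 : ∀ g ∈ Q, g ∈ W ⊓ H z := by
      intro g hg
      refine ⟨(w2 g).2 ?_, q1 g hg⟩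
      have h2 := q3 g hg
      have e : 82 * k * D = 82 * (k * D) := by ring
      rw [e] at h2
      omega
    have h2 : Nat.card (Q : Set M) = Q.card := by
      rw [Nat.card_coe_set_eq, Set.ncard_coe_finset]
    rw [← h2]
    exact Nat.card_le_card_of_injective (fun q : (Q : Set M) => (⟨q.1, h1 q.1 q.2⟩ : (W ⊓ H z : AddSubgroup M)))
      (fun a b hab => by
        have h5 : (a : M) = (b : M) := by
          have := congrArg (fun q : (W ⊓ H z : AddSubgroup M) => (q : M)) hab
          exact this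
        exact Subtype.ext h5)
  have e3 : 3 * (164 * k * D) = 492 * (k * D) := by ring
  have prod : ∀ z ∈ I, ∀ z' ∈ I, z ≠ z' →
      Nat.card (W ⊓ H z : AddSubgroup M) * Nat.card (W ⊓ H z' : AddSubgroup M) = Nat.card W := by
    intro z hz z' hz' hne
    have h1 := card_dvd (W ⊓ H z) (W ⊓ H z') W inf_le_left inf_le_left (by
      have := hH z hz z' hz' hne
      rw [eq_bot_iff] at this ⊢
      exact (inf_le_inf inf_le_right inf_le_right).trans this)
    obtain ⟨q, hq⟩ := h1
    have l1 := low z hz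
    have l2 := low z' hz'
    have l3 := Nat.mul_le_mul l1 l2
    have hWpos : 0 < Nat.card W := Nat.card_pos
    set P := Nat.card (W ⊓ H z : AddSubgroup M) * Nat.card (W ⊓ H z' : AddSubgroup M) with hP
    have l4 : 81 * D ^ 2 ≤ 100 * P := by rw [hP]; nlinarith
    have l5 : Nat.card W < 2 * P := by
      rw [e3] at w5
      generalize D ^ 2 = D2 at *
      generalize k * D = kD at *
      omega
    have q1 : q = 1 := by
      rw [hq] at l5 hWpos
      have h2 : q < 2 := by
        by_contra hcon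
        push Not at hcon
        nlinarith
      have h3 : q ≠ 0 := by
        rintro rfl
        simp at hWpos
      omega
    rw [hq, q1, mul_one]
  have hpos : ∀ z ∈ I, 0 < Nat.card (W ⊓ H z : AddSubgroup M) := fun z hz => by
    have := low z hz
    omega
  have p1 := prod x0 hx0 y0 hy0 hxy
  have p2 := prod x0 hx0 z0 hz0 hxz
  have p3 := prod y0 hy0 z0 hz0 hyz
  have c1 : Nat.card (W ⊓ H y0 : AddSubgroup M) = Nat.card (W ⊓ H z0 : AddSubgroup M) :=
    Nat.eq_of_mul_eq_mul_left (hpos x0 hx0) (p1.trans p2.symm)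
  have c2 : Nat.card (W ⊓ H x0 : AddSubgroup M) = Nat.card (W ⊓ H z0 : AddSubgroup M) := by
    rw [mul_comm] at p1
    exact Nat.eq_of_mul_eq_mul_left (hpos y0 hy0) (p1.trans p3.symm)
  have hW : Nat.card W = Nat.card (W ⊓ H x0 : AddSubgroup M) ^ 2 := by
    rw [← p2, ← c2, sq]
  refine ⟨W, Nat.card (W ⊓ H x0 : AddSubgroup M), w1, hW, ?_, ?_, ?_, m0, ?_⟩
  · intro x hx
    by_cases h1 : x = x0
    · rw [h1]
    · have h2 := prod x0 hx0 x hx (Ne.symm h1)
      rw [hW, sq] at h2
      exact Nat.eq_of_mul_eq_mul_left (hpos x0 hx0) h2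
  · rw [← hW]
    have e : 492 * k * D = 492 * (k * D) := by ring
    rw [e3] at w5
    rw [e]
    exact w5
  · rw [← hW]
    have e : 656 * k * D = 4 * (164 * k * D) := by ring
    rw [e]
    exact w6
  · have e : 656 * k * D = 4 * (164 * k * D) := by ring
    rw [e]
    exact w4

open Classical in
theorem start {V : Type} [Fintype V] {G : SimpleGraph V} {w : V} {M : Type} [AddCommGroup M]
    {A : Type} {H : A → AddSubgroup M} {pt : V → M ⊕ A} {dir : V → A} {base : V → M}
    (hE : Emb G w H pt dir base) (y k ζ E : ℕ) (hk : 1 ≤ k) (hky : 100000 * k ≤ y)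
    (hdeg : ∀ v, y + 1 ≤ G.degree v) (hcard : Fintype.card V = E + (y + 1))
    (hζ : E = y ^ 2 + ζ) (hζk : 6 * ζ ≤ k * y) :
    ∃ (W : AddSubgroup M) (m0 : M) (h : ℕ), Finite W ∧ Nat.card W = h ^ 2 ∧
      (∀ x a, G.Adj w x → pt x = Sum.inr a → Nat.card (W ⊓ H a : AddSubgroup M) = h) ∧
      h ^ 2 ≤ y ^ 2 + 985 * k * y ∧ y ^ 2 ≤ h ^ 2 + 1312 * k * y ∧
      (Finset.univ.filter (fun u => (∃ x, G.Adj w x ∧ TN.Joined G w x u) ∧
        ∀ m, pt u = Sum.inl m → m - m0 ∉ W)).card ≤ 1312 * k * y := by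
  have hy1 : 1 ≤ y := by omega
  have hC4 : C4Free G := c4 hE
  set H' : V → AddSubgroup M := fun x => Sum.elim (fun _ => ⊥) H (pt x) with hH'
  set p : V → M := fun u => Sum.elim id (fun _ => 0) (pt u) with hp
  set I : Finset V := G.neighborFinset w with hI
  have hIc : y + 1 ≤ I.card := by
    rw [hI, SimpleGraph.card_neighborFinset_eq_degree]
    exact hdeg w
  have hwI : ∀ x ∈ I, G.Adj w x := by
    intro x hx
    rwa [hI, SimpleGraph.mem_neighborFinset] at hx
  have hHx : ∀ x a, pt x = Sum.inr a → H' x = H a := by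
    intro x a h
    rw [hH']
    simp only [h, Sum.elim_inr]
  have hpu : ∀ u m, pt u = Sum.inl m → p u = m := by
    intro u m h
    rw [hp]
    simp only [h, Sum.elim_inl, id_eq]
  -- points of the classes are affine
  have key : ∀ x ∈ I, ∀ v u, G.Adj x v → v ≠ w → G.Adj v u → u ≠ x →
      ∃ a m, pt x = Sum.inr a ∧ a = dir v ∧ pt u = Sum.inl m := by
    intro x hx v u h1 h2 h3 h4
    obtain ⟨a, ha⟩ := hE.axis x (hwI x hx).symm
    have h5 := hE.inf x v a h1 h2 ha
    rcases hu : pt u with m | b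
    · exact ⟨a, m, ha, h5, rfl⟩
    · exfalso
      have h6 := hE.inf u v b h3.symm h2 hu
      apply h4
      apply hE.inj
      rw [hu, ha, h5, h6]
  have hJaff : ∀ x ∈ I, ∀ u, TN.Joined G w x u → pt u = Sum.inl (p u) := by
    rintro x hx u ⟨v, h1, h2, h3, h4⟩
    obtain ⟨a, m, -, -, h5⟩ := key x hx v u h1 h2 h3 h4
    rw [h5, hpu u m h5]
  have hinj : ∀ x ∈ I, ∀ y ∈ I, ∀ u u', TN.Joined G w x u → TN.Joined G w y u' →
      p u = p u' → u = u' := by
    intro x hx y' hy' u u' h1 h2 h3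
    apply hE.inj
    rw [hJaff x hx u h1, hJaff y' hy' u' h2, h3]
  have hcls : ∀ x ∈ I, ∀ v u u', G.Adj x v → v ≠ w → G.Adj v u → G.Adj v u' → u ≠ x → u' ≠ x →
      p u - p u' ∈ H' x := by
    intro x hx v u u' h1 h2 h3 h4 h5 h6
    obtain ⟨a, m, ha, hd, hm⟩ := key x hx v u h1 h2 h3 h5
    obtain ⟨_, m', _, _, hm'⟩ := key x hx v u' h1 h2 h4 h6
    rw [hHx x a ha, hd, hpu u m hm, hpu u' m' hm']
    have e1 := hE.aff u v m h3.symm h2 hm
    have e2 := hE.aff u' v m' h4.symm h2 hm'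
    have e3 := (H (dir v)).sub_mem e1 e2
    have e4 : m - base v - (m' - base v) = m - m' := by abel
    rwa [e4] at e3
  have hdis : ∀ x ∈ I, ∀ y ∈ I, x ≠ y → H' x ⊓ H' y = ⊥ := by
    intro x hx y' hy' hne
    obtain ⟨a, ha⟩ := hE.axis x (hwI x hx).symm
    obtain ⟨b, hb⟩ := hE.axis y' (hwI y' hy').symm
    rw [hHx x a ha, hHx y' b hb]
    apply hE.spread
    rintro rfl
    exact hne (hE.inj (by rw [ha, hb]))
  have hky2 : k * y ≤ y ^ 2 := by nlinarith
  obtain ⟨U, J, hU, hJU, hcos, hUJ, hlo, hhi, hUy, hUE⟩ := count_of G hC4 y hy1 hdeg w I (by omega)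
    hwI H' p hinj hcls E ζ hcard hζ (by nlinarith)
  have hyD : y ≤ E / y := by
    rw [Nat.le_div_iff_mul_le (by omega)]
    rw [hζ]; nlinarith
  have hD2 : E / y ≤ 2 * y := by
    apply Nat.div_le_of_le_mul
    rw [hζ]; nlinarith
  have hkD : k * y ≤ k * (E / y) := Nat.mul_le_mul_left k hyD
  have hkD2 : k * (E / y) ≤ 2 * (k * y) := by
    have := Nat.mul_le_mul_left k hD2
    nlinarith
  obtain ⟨W, h, hfin, hW, hWH, hle1, hle2, m0, hle3⟩ := assembly2 I (by omega) H' hdis U J hJU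
    (E / y) k ζ hk (by omega) hcos hUJ (by omega) hlo hhi
  have a1 : 492 * k * (E / y) = 492 * (k * (E / y)) := by ring
  have a2 : 656 * k * (E / y) = 656 * (k * (E / y)) := by ring
  have a3 : 985 * k * y = 985 * (k * y) := by ring
  have a4 : 1312 * k * y = 1312 * (k * y) := by ring
  rw [a1] at hle1
  rw [a2] at hle2 hle3
  rw [a3, a4]
  refine ⟨W, m0, h, hfin, hW, ?_, by omega, by omega, ?_⟩
  · intro x a hx ha
    rw [← hHx x a ha]
    exact hWH x (by rw [hI, SimpleGraph.mem_neighborFinset]; exact hx)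
  · refine le_trans ?_ (hle3.trans (by omega))
    have hmem : ∀ u ∈ (Finset.univ.filter (fun u => (∃ x, G.Adj w x ∧ TN.Joined G w x u) ∧
        ∀ m, pt u = Sum.inl m → m - m0 ∉ W)), ∃ x ∈ I, TN.Joined G w x u ∧ p u - m0 ∉ W := by
      intro u hu
      rw [Finset.mem_filter] at hu
      obtain ⟨-, ⟨x, hx, hxu⟩, hum⟩ := hu
      have hxI : x ∈ I := by rw [hI, SimpleGraph.mem_neighborFinset]; exact hx
      exact ⟨x, hxI, hxu, hum _ (hJaff x hxI u hxu)⟩
    refine Finset.card_le_card_of_injOn p ?_ ?_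
    · intro u hu
      obtain ⟨x, hxI, hxu, hux⟩ := hmem u (Finset.mem_coe.1 hu)
      rw [Finset.mem_coe, Finset.mem_filter]
      refine ⟨?_, hux⟩
      rw [hU]
      apply Finset.mem_image_of_mem
      rw [Finset.mem_biUnion]
      exact ⟨x, hxI, Finset.mem_filter.2 ⟨Finset.mem_univ _, hxu⟩⟩
    · intro u hu u' hu' huu
      obtain ⟨x, hxI, hxu, -⟩ := hmem u (Finset.mem_coe.1 hu)
      obtain ⟨x', hxI', hxu', -⟩ := hmem u' (Finset.mem_coe.1 hu')
      exact hinj x hxI x' hxI' u u' hxu hxu' huu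

end Pool.Agent.SC4.TP
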