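import Mathlib
import Pool.Agent.Work.MP_2d1b31_co.TP.Defs
import Pool.Agent.Work.MP_2d1b31_co.TP.C4
import Pool.Agent.Work.MP_2d1b31_co.TP.Start
import Pool.Agent.Work.MP_2d1b31_co.TP.Few
import Pool.Agent.Work.MP_2d1b31_co.TN.MacNeish

set_option autoImplicit false

/-
MODULE TP/Host (size M). Cites c4, two, start, few, TN.macneish.
Take W, m0, h from start. P0 = vertices u with pt u = inl m, m - m0 in W.
(1) Every v <> w has at least y + 1 - k >= 1 neighbours in P0 : N(v) has at least y + 1 elements, at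
most one of them adjacent to w (C4Free, v <> w) and fewer than k in T (few).
(2) Let v <> w, a = dir v, s, s' neighbours of v in P0: m_s - m_s' in W ⊓ H a; so
|W ⊓ H a| >= y + 1 - k. Take x ~ w with pt x = inr a', a' <> a (w has at least two neighbours, their
directions are different). The sum map (W ⊓ H a) x (W ⊓ H a') -> W is an injective homomorphism, so
|W ⊓ H a| * h divides h^2, |W ⊓ H a| divides h (h > 0). Since h^2 <= y^2 + 985 k y < (2 (y + 1 - k))^2,
|W ⊓ H a| >= y + 1 - k > h / 2 and so |W ⊓ H a| = h.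
(3) Let u be affine, pt u = inl m. It has two different neighbours v, v' , both <> w, dir v <> dir v'
(two). With s, s' in P0 neighbours of v and v': as in (1),(2) of Few, m_s - m_s' in W
= (W ⊓ H (dir v)) + (W ⊓ H (dir v')) (orders h, h, trivial intersection, |W| = h^2), and m - m_s in
H (dir v), m - m_s' in H (dir v') give m - m0 in W. So ALL affine vertices are in P0.
(4) New plane: M' = W (the subgroup as a type), A' = {a // Nat.card (W ⊓ H a) = h},
H' a = (H a).addSubgroupOf W (order h), pt' u = inl (m - m0) if pt u = inl m, and inr a if pt u = inr a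
(u has a neighbour v <> w, since u has two neighbours, a = dir v by inf, so a in A'), dir' v = dir v for
v <> w, base' v = m_s - m0 for some chosen neighbour s in P0 of v (v <> w). For v = w take any
values (A' is nonempty). Check Emb: aff: m - base v and m_s - base v in H (dir v), so m - m_s is.
line: m_s - m_s' in H (dir v) = H (dir v') gives base v - base v' in H (dir v), so v = v'.
(5) q = h is a prime power: macneish with I = all neighbours of w: for every prime p | h,
y + 1 <= p^(v_p h) + 1. h >= 2. If two different primes p, r divide h then y^2 <= p^(v_p h) r^(v_r h) <= h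
(their product divides h), contradiction with h^2 <= y^2 + 985 k y. So h = p^(v_p h).
(In macneish take H' : V → AddSubgroup M, H' x = H a if pt x = inr a.)
-/

namespace Pool.Agent.SC4.TP

private theorem ho_range {M : Type} [AddCommGroup M] (W K1 K2 : AddSubgroup M) (h1 : K1 ≤ W)
    (h2 : K2 ≤ W) (hd : K1 ⊓ K2 = ⊥) : ∃ R : AddSubgroup M, R ≤ W ∧
      Nat.card R = Nat.card K1 * Nat.card K2 ∧ ∀ g ∈ R, ∃ a ∈ K1, ∃ b ∈ K2, g = a + b := by
  let φ : K1 × K2 →+ M := AddMonoidHom.coprod K1.subtype K2.subtype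
  have hφ : ∀ x, φ x = (x.1 : M) + (x.2 : M) := fun x => rfl
  have hinj : Function.Injective φ := by
    rw [injective_iff_map_eq_zero]
    rintro ⟨a, b⟩ hab
    rw [hφ] at hab
    have hab' : (a : M) = -(b : M) := eq_neg_of_add_eq_zero_left hab
    have h3 : (a : M) ∈ K1 ⊓ K2 := by
      refine AddSubgroup.mem_inf.2 ⟨a.2, ?_⟩
      rw [hab']
      exact K2.neg_mem b.2
    rw [hd, AddSubgroup.mem_bot] at h3
    have h4 : (b : M) = 0 := by
      rw [h3] at hab'
      exact neg_eq_zero.1 hab'.symm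
    exact Prod.ext (Subtype.ext h3) (Subtype.ext h4)
  refine ⟨φ.range, ?_, ?_, ?_⟩
  · rintro g ⟨x, rfl⟩
    rw [hφ]
    exact W.add_mem (h1 x.1.2) (h2 x.2.2)
  · rw [← Nat.card_prod]
    exact (Nat.card_congr (AddMonoidHom.ofInjective hinj).toEquiv).symm
  · rintro g ⟨x, rfl⟩
    exact ⟨x.1, x.1.2, x.2, x.2.2, rfl⟩

private theorem ho_dvd {M : Type} [AddCommGroup M] (W K1 K2 : AddSubgroup M) (h1 : K1 ≤ W)
    (h2 : K2 ≤ W) (hd : K1 ⊓ K2 = ⊥) : Nat.card K1 * Nat.card K2 ∣ Nat.card W := by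
  obtain ⟨R, hR, hc, -⟩ := ho_range W K1 K2 h1 h2 hd
  rw [← hc]
  exact AddSubgroup.card_dvd_of_le hR

private theorem ho_sum {M : Type} [AddCommGroup M] (W K1 K2 : AddSubgroup M) [Finite W]
    (h1 : K1 ≤ W) (h2 : K2 ≤ W) (hd : K1 ⊓ K2 = ⊥)
    (hc : Nat.card W = Nat.card K1 * Nat.card K2) :
    ∀ g ∈ W, ∃ a ∈ K1, ∃ b ∈ K2, g = a + b := by
  obtain ⟨R, hR, hcR, hs⟩ := ho_range W K1 K2 h1 h2 hd
  have h3 : R = W := AddSubgroup.eq_of_le_of_card_ge hR (by rw [hcR, hc])
  intro g hg
  rw [← h3] at hg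
  exact hs g hg

private theorem ho_inf_bot {M : Type} [AddCommGroup M] (W K1 K2 : AddSubgroup M)
    (hd : K1 ⊓ K2 = ⊥) : (W ⊓ K1) ⊓ (W ⊓ K2) = ⊥ := by
  rw [eq_bot_iff, ← hd]
  exact inf_le_inf inf_le_right inf_le_right

open Classical in
theorem host {V : Type} [Fintype V] {G : SimpleGraph V} {w : V} (hT : TransPlane G w)
    (y k ζ E : ℕ) (hk : 1 ≤ k) (hky : 100000 * k ≤ y)
    (hdeg : ∀ v, y + 1 ≤ G.degree v) (hcard : Fintype.card V = E + (y + 1))
    (hζ : E = y ^ 2 + ζ) (hζk : 6 * ζ ≤ k * y) :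
    ∃ q : ℕ, IsPrimePow q ∧ q ^ 2 ≤ y ^ 2 + 985 * k * y ∧ FinPlane G w q := by
  obtain ⟨M, instM, A, H, pt, dir, base, hE⟩ := hT
  obtain ⟨W, m0, h, hWfin, hWc, hx, hh1, hh2, hout⟩ :=
    start hE y k ζ E hk hky hdeg hcard hζ hζk
  have hfew := few hE y k ζ E hk hky hdeg hcard hζ hζk W m0 h hWc hx hout
  have hC4 := c4 hE
  have hy : 100000 ≤ y := by omega
  have hh0 : 0 < h := by
    rcases Nat.eq_zero_or_pos h with h0 | h0
    · exfalso
      rw [h0] at hh2
      nlinarith
    · exact h0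
  -- neighbours
  have hnb : ∀ v, y + 1 ≤ (G.neighborFinset v).card := by
    intro v
    rw [G.card_neighborFinset_eq_degree v]
    exact hdeg v
  have htwo : ∀ v, ∃ a b, G.Adj v a ∧ G.Adj v b ∧ a ≠ b := by
    intro v
    obtain ⟨a, ha, b, hb, hab⟩ := Finset.one_lt_card.1 (show 1 < (G.neighborFinset v).card by
      have := hnb v
      omega)
    exact ⟨a, b, (G.mem_neighborFinset v a).1 ha, (G.mem_neighborFinset v b).1 hb, hab⟩
  -- (1)
  set S : V → Finset V := fun v => (G.neighborFinset v).filter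
    (fun u => ∃ m, pt u = Sum.inl m ∧ m - m0 ∈ W) with hS
  have hSc : ∀ v, v ≠ w → y + 1 ≤ (S v).card + k := by
    intro v hv
    set T := Finset.univ.filter (fun u => ¬ G.Adj w u ∧ ∀ m, pt u = Sum.inl m → m - m0 ∉ W) with hT
    set C := (G.neighborFinset v).filter (fun u => G.Adj w u) with hC
    have hCc : C.card ≤ 1 := by
      rw [Finset.card_le_one]
      intro a ha b hb
      obtain ⟨ha1, ha2⟩ := Finset.mem_filter.1 ha
      obtain ⟨hb1, hb2⟩ := Finset.mem_filter.1 hb
      exact hC4 v w a b hv ((G.mem_neighborFinset v a).1 ha1) ha2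
        ((G.mem_neighborFinset v b).1 hb1) hb2
    have hsub : G.neighborFinset v ⊆ S v ∪ (C ∪ T) := by
      intro u hu
      rw [Finset.mem_union, Finset.mem_union]
      by_cases h1 : G.Adj w u
      · exact Or.inr (Or.inl (Finset.mem_filter.2 ⟨hu, h1⟩))
      · by_cases h2 : ∃ m, pt u = Sum.inl m ∧ m - m0 ∈ W
        · exact Or.inl (Finset.mem_filter.2 ⟨hu, h2⟩)
        · refine Or.inr (Or.inr (Finset.mem_filter.2 ⟨Finset.mem_univ u, h1, ?_⟩))
          intro m hm hmW
          exact h2 ⟨m, hm, hmW⟩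
    have h1 := Finset.card_le_card hsub
    have h2 := Finset.card_union_le (S v) (C ∪ T)
    have h3 := Finset.card_union_le C T
    have h4 := hnb v
    omega
  have hSn : ∀ v, v ≠ w → ∃ s m, G.Adj v s ∧ pt s = Sum.inl m ∧ m - m0 ∈ W := by
    intro v hv
    have h1 := hSc v hv
    obtain ⟨s, hs⟩ := Finset.card_pos.1 (show 0 < (S v).card by omega)
    obtain ⟨hs1, m, hs2, hs3⟩ := Finset.mem_filter.1 hs
    exact ⟨s, m, (G.mem_neighborFinset v s).1 hs1, hs2, hs3⟩
  -- (2)
  have hcardh : ∀ v, v ≠ w → Nat.card (W ⊓ H (dir v) : AddSubgroup M) = h := by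
    intro v hv
    have hfinK : Finite (W ⊓ H (dir v) : AddSubgroup M) :=
      (Set.Finite.subset (Set.toFinite (W : Set M)) (fun z hz => hz.1)).to_subtype
    have hge : y + 1 ≤ Nat.card (W ⊓ H (dir v) : AddSubgroup M) + k := by
      obtain ⟨s0, m1, hs1, hs2, hs3⟩ := hSn v hv
      set pm : V → M := fun u => Sum.elim (fun m => m) (fun _ => 0) (pt u) with hpm
      have hpmv : ∀ u m, pt u = Sum.inl m → pm u = m := by
        intro u m hu
        rw [hpm]
        dsimp only
        rw [hu]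
        rfl
      have hinj : Set.InjOn (fun u => pm u - m1) (S v : Set V) := by
        intro a ha b hb hab
        obtain ⟨-, ma, ha1, -⟩ := Finset.mem_filter.1 (Finset.mem_coe.1 ha)
        obtain ⟨-, mb, hb1, -⟩ := Finset.mem_filter.1 (Finset.mem_coe.1 hb)
        apply hE.inj
        rw [ha1, hb1]
        have h1 : pm a - m1 = pm b - m1 := hab
        rw [hpmv a ma ha1, hpmv b mb hb1] at h1
        rw [sub_left_inj.1 h1]
      have hsub : (((S v).image (fun u => pm u - m1) : Finset M) : Set M) ⊆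
          ((W ⊓ H (dir v) : AddSubgroup M) : Set M) := by
        intro z hz
        obtain ⟨u, hu, rfl⟩ := Finset.mem_image.1 (Finset.mem_coe.1 hz)
        obtain ⟨hu1, mu, hu2, hu3⟩ := Finset.mem_filter.1 hu
        have hadj := (G.mem_neighborFinset v u).1 hu1
        change pm u - m1 ∈ (W ⊓ H (dir v) : AddSubgroup M)
        rw [hpmv u mu hu2]
        refine AddSubgroup.mem_inf.2 ⟨?_, ?_⟩
        · have h1 : mu - m1 = (mu - m0) - (m1 - m0) := by abel
          rw [h1]
          exact W.sub_mem hu3 hs3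
        · have h1 : mu - m1 = (mu - base v) - (m1 - base v) := by abel
          rw [h1]
          exact (H (dir v)).sub_mem (hE.aff u v mu hadj.symm hv hu2)
            (hE.aff s0 v m1 hs1.symm hv hs2)
      have h1 := Set.ncard_le_ncard hsub (Set.toFinite _)
      rw [Set.ncard_coe_finset, Finset.card_image_of_injOn hinj] at h1
      have h2 : (((W ⊓ H (dir v) : AddSubgroup M) : Set M)).ncard =
          Nat.card (W ⊓ H (dir v) : AddSubgroup M) := rfl
      have h3 := hSc v hv
      omega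
    obtain ⟨a', ha', x, hxw, hxa⟩ : ∃ a', a' ≠ dir v ∧ ∃ x, G.Adj w x ∧ pt x = Sum.inr a' := by
      obtain ⟨x1, x2, hx1, hx2, hne⟩ := htwo w
      obtain ⟨a1, ha1⟩ := hE.axis x1 hx1.symm
      obtain ⟨a2, ha2⟩ := hE.axis x2 hx2.symm
      by_cases h1 : a1 = dir v
      · refine ⟨a2, ?_, x2, hx2, ha2⟩
        intro h2
        apply hne
        apply hE.inj
        rw [ha1, ha2, h1, h2]
      · exact ⟨a1, h1, x1, hx1, ha1⟩
    have hh' := hx x a' hxw hxa
    have hdvd := ho_dvd W (W ⊓ H (dir v)) (W ⊓ H a') inf_le_left inf_le_left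
      (ho_inf_bot W _ _ (hE.spread _ _ ha'.symm))
    rw [hh', hWc, pow_two] at hdvd
    have hdvd2 := Nat.dvd_of_mul_dvd_mul_right hh0 hdvd
    obtain ⟨j, hj⟩ := hdvd2
    rcases Nat.lt_or_ge j 2 with hj2 | hj2
    · have hj1 : j = 1 := by
        rcases Nat.lt_or_ge j 1 with h1 | h1
        · have : j = 0 := by omega
          rw [this, mul_zero] at hj
          omega
        · omega
      rw [hj1, mul_one] at hj
      exact hj.symm
    · exfalso
      have h1 : 2 * Nat.card (W ⊓ H (dir v) : AddSubgroup M) ≤ h := by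
        rw [hj, mul_comm]
        exact Nat.mul_le_mul_left _ hj2
      have h2 : 2 * (y - k) ≤ h := by omega
      obtain ⟨z, hz⟩ : ∃ z, y = z + k := ⟨y - k, by omega⟩
      have h3 : 2 * z ≤ h := by
        have : y - k = z := by omega
        rw [this] at h2
        exact h2
      have h4 : (2 * z) ^ 2 ≤ h ^ 2 := Nat.pow_le_pow_left h3 2
      have h5 : 99999 * k ≤ z := by omega
      rw [hz] at hh1
      nlinarith [Nat.zero_le k, Nat.zero_le z, Nat.mul_le_mul_left z h5, Nat.mul_le_mul_left k h5]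
  -- (3)
  have haff : ∀ u m, pt u = Sum.inl m → m - m0 ∈ W := by
    intro u m hu
    obtain ⟨v, v', hv, hv', hvv⟩ := htwo u
    obtain ⟨hvw, hvw', hdd⟩ := two hE u v v' m hu hv hv' hvv
    obtain ⟨s, ms, hs1, hs2, hs3⟩ := hSn v hvw
    obtain ⟨s', ms', hs1', hs2', hs3'⟩ := hSn v' hvw'
    have hsp := hE.spread _ _ hdd
    obtain ⟨a1, ha1, b1, hb1, hab⟩ := ho_sum W (W ⊓ H (dir v)) (W ⊓ H (dir v')) inf_le_left
      inf_le_left (ho_inf_bot W _ _ hsp) (by
        rw [hcardh v hvw, hcardh v' hvw', hWc, pow_two]) (ms - ms') (by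
        have h1 : ms - ms' = (ms - m0) - (ms' - m0) := by abel
        rw [h1]
        exact W.sub_mem hs3 hs3')
    have e1 : m - ms ∈ H (dir v) := by
      have h1 : m - ms = (m - base v) - (ms - base v) := by abel
      rw [h1]
      exact (H (dir v)).sub_mem (hE.aff u v m hv hvw hu) (hE.aff s v ms hs1.symm hvw hs2)
    have e2 : m - ms' ∈ H (dir v') := by
      have h1 : m - ms' = (m - base v') - (ms' - base v') := by abel
      rw [h1]
      exact (H (dir v')).sub_mem (hE.aff u v' m hv' hvw' hu)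
        (hE.aff s' v' ms' hs1'.symm hvw' hs2')
    have e3 : m - ms + a1 ∈ H (dir v) ⊓ H (dir v') := by
      refine AddSubgroup.mem_inf.2 ⟨(H (dir v)).add_mem e1 (AddSubgroup.mem_inf.1 ha1).2, ?_⟩
      have h1 : m - ms + a1 = (m - ms') - b1 := by
        have h2 : a1 = ms - ms' - b1 := by rw [hab]; abel
        rw [h2]
        abel
      rw [h1]
      exact (H (dir v')).sub_mem e2 (AddSubgroup.mem_inf.1 hb1).2
    rw [hsp, AddSubgroup.mem_bot] at e3
    have e4 : m - m0 = (ms - m0) - a1 := by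
      have h1 : m = ms - a1 := by
        have h2 : m - (ms - a1) = 0 := by
          rw [← e3]
          abel
        exact sub_eq_zero.1 h2
      rw [h1]
      abel
    rw [e4]
    exact W.sub_mem hs3 (AddSubgroup.mem_inf.1 ha1).1
  -- (5)
  have hpp : IsPrimePow h := by
    set K : V → AddSubgroup M := fun x => Sum.elim (fun _ => ⊥) (fun a => H a) (pt x) with hKd
    have hKv : ∀ x a, pt x = Sum.inr a → K x = H a := by
      intro x a hxa
      rw [hKd]
      dsimp only
      rw [hxa]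
      rfl
    have hmac : ∀ p : ℕ, p.Prime → p ∣ h → y ≤ p ^ (h.factorization p) := by
      intro p hp hph
      have h1 := TN.macneish (G.neighborFinset w) W K h hWc ?_ ?_ p hp hph
      · have h2 := hnb w
        omega
      · intro x hxm
        have hxw := (G.mem_neighborFinset w x).1 hxm
        obtain ⟨a, ha⟩ := hE.axis x hxw.symm
        rw [hKv x a ha]
        exact hx x a hxw ha
      · intro x hxm x' hxm' hne
        obtain ⟨a, ha⟩ := hE.axis x ((G.mem_neighborFinset w x).1 hxm).symm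
        obtain ⟨a', ha'⟩ := hE.axis x' ((G.mem_neighborFinset w x').1 hxm').symm
        rw [hKv x a ha, hKv x' a' ha']
        apply hE.spread
        intro h2
        apply hne
        apply hE.inj
        rw [ha, ha', h2]
    have hh2' : h ≠ 1 := by
      intro h1
      rw [h1] at hh2
      nlinarith
    rw [isPrimePow_iff_unique_prime_dvd]
    obtain ⟨p, hp, hph⟩ := Nat.exists_prime_and_dvd hh2'
    refine ⟨p, ⟨hp, hph⟩, ?_⟩
    rintro r ⟨hr, hrh⟩
    by_contra hrp
    have hcop : Nat.Coprime (p ^ h.factorization p) (r ^ h.factorization r) :=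
      Nat.Coprime.pow _ _ ((Nat.coprime_primes hp hr).2 (fun h1 => hrp h1.symm))
    have hdv := Nat.Coprime.mul_dvd_of_dvd_of_dvd hcop (Nat.ordProj_dvd h p) (Nat.ordProj_dvd h r)
    have h1 := Nat.le_of_dvd hh0 hdv
    have h2 : y * y ≤ h := (Nat.mul_le_mul (hmac p hp hph) (hmac r hr hrh)).trans h1
    have h3 : (y * y) ^ 2 ≤ h ^ 2 := Nat.pow_le_pow_left h2 2
    have h4 : 985 * k * y ≤ y * y := Nat.mul_le_mul_right y (by omega)
    have h5 : (y * y) * (y * y) ≤ 2 * (y * y) := by nlinarith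
    have h6 : y * y ≤ 2 := Nat.le_of_mul_le_mul_right h5 (by nlinarith)
    nlinarith
  refine ⟨h, hpp, hh1, ?_⟩
  -- (4)
  obtain ⟨v0, hv0⟩ : ∃ v0 : V, v0 ≠ w := by
    obtain ⟨a, b, ha, -, -⟩ := htwo w
    exact ⟨a, ha.ne'⟩
  have hpt' : ∀ u, ∃ p' : W ⊕ {a : A // Nat.card (W ⊓ H a : AddSubgroup M) = h},
      (∀ m, pt u = Sum.inl m → ∃ z : W, p' = Sum.inl z ∧ (z : M) = m - m0) ∧
      (∀ a, pt u = Sum.inr a → ∃ b : {a : A // Nat.card (W ⊓ H a : AddSubgroup M) = h},
        p' = Sum.inr b ∧ b.1 = a) := by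
    intro u
    rcases hpu : pt u with m | a
    · refine ⟨Sum.inl ⟨m - m0, haff u m hpu⟩, ?_, ?_⟩
      · intro m' hm'
        exact ⟨_, rfl, congrArg (fun t => t - m0) (Sum.inl.inj hm')⟩
      · intro a' ha'
        exact absurd ha' (by simp)
    · obtain ⟨v, hv, hvw⟩ : ∃ v, G.Adj u v ∧ v ≠ w := by
        obtain ⟨b, c, hb, hc, hbc⟩ := htwo u
        by_cases h1 : b = w
        · exact ⟨c, hc, fun h2 => hbc (by rw [h1, h2])⟩
        · exact ⟨b, hb, h1⟩
      have had := hE.inf u v a hv hvw hpu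
      refine ⟨Sum.inr ⟨a, by rw [had]; exact hcardh v hvw⟩, ?_, ?_⟩
      · intro m' hm'
        exact absurd hm' (by simp)
      · intro a' ha'
        exact ⟨_, rfl, Sum.inr.inj ha'⟩
  have hdir' : ∀ v, ∃ d : {a : A // Nat.card (W ⊓ H a : AddSubgroup M) = h},
      v ≠ w → d.1 = dir v := by
    intro v
    by_cases hv : v = w
    · exact ⟨⟨dir v0, hcardh v0 hv0⟩, fun h1 => absurd hv h1⟩
    · exact ⟨⟨dir v, hcardh v hv⟩, fun _ => rfl⟩
  have hbase' : ∀ v, ∃ b : W, v ≠ w → ∃ s m, G.Adj v s ∧ pt s = Sum.inl m ∧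
      (b : M) = m - m0 := by
    intro v
    by_cases hv : v = w
    · exact ⟨0, fun h1 => absurd hv h1⟩
    · obtain ⟨s, m, h1, h2, h3⟩ := hSn v hv
      exact ⟨⟨m - m0, h3⟩, fun _ => ⟨s, m, h1, h2, rfl⟩⟩
  choose pt' hpt1 hpt2 using hpt'
  choose dir' hdir1 using hdir'
  choose base' hbase1 using hbase'
  refine ⟨W, inferInstance, {a : A // Nat.card (W ⊓ H a : AddSubgroup M) = h},
    fun a => (H a.1).addSubgroupOf W, pt', dir', base', ?_, hWc, ?_⟩
  · refine ⟨?_, ?_, ?_, ?_, ?_, ?_⟩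
    · intro a b hab
      have h1 : a.1 ≠ b.1 := fun h2 => hab (Subtype.ext h2)
      rw [eq_bot_iff]
      intro z hz
      obtain ⟨hz1, hz2⟩ := AddSubgroup.mem_inf.1 hz
      rw [AddSubgroup.mem_addSubgroupOf] at hz1 hz2
      have h3 : (z : M) ∈ H a.1 ⊓ H b.1 := AddSubgroup.mem_inf.2 ⟨hz1, hz2⟩
      rw [hE.spread _ _ h1, AddSubgroup.mem_bot] at h3
      rw [AddSubgroup.mem_bot]
      exact Subtype.ext h3
    · intro u u' huu
      apply hE.inj
      rcases hpu : pt u with m | a <;> rcases hpu' : pt u' with m' | a'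
      · obtain ⟨z, hz1, hz2⟩ := hpt1 u m hpu
        obtain ⟨z', hz1', hz2'⟩ := hpt1 u' m' hpu'
        rw [hz1, hz1'] at huu
        have h1 : z = z' := Sum.inl.inj huu
        rw [h1, hz2'] at hz2
        rw [sub_left_inj.1 hz2]
      · obtain ⟨z, hz1, -⟩ := hpt1 u m hpu
        obtain ⟨b, hb1, -⟩ := hpt2 u' a' hpu'
        rw [hz1, hb1] at huu
        exact absurd huu (by simp)
      · obtain ⟨z, hz1, -⟩ := hpt1 u' m' hpu'
        obtain ⟨b, hb1, -⟩ := hpt2 u a hpu
        rw [hz1, hb1] at huu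
        exact absurd huu (by simp)
      · obtain ⟨b, hb1, hb2⟩ := hpt2 u a hpu
        obtain ⟨b', hb1', hb2'⟩ := hpt2 u' a' hpu'
        rw [hb1, hb1'] at huu
        have h1 : b = b' := Sum.inr.inj huu
        rw [← hb2, ← hb2', h1]
    · intro v v' hv hv' hd hb
      have hd1 : dir v = dir v' := by rw [← hdir1 v hv, ← hdir1 v' hv', hd]
      obtain ⟨s, m, h1, h2, h3⟩ := hbase1 v hv
      obtain ⟨s', m', h1', h2', h3'⟩ := hbase1 v' hv'
      apply hE.line v v' hv hv' hd1
      rw [AddSubgroup.mem_addSubgroupOf, hdir1 v hv] at hb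
      have h4 : base v - base v' = ((m' - base v') - (m - base v)) +
          (((base' v - base' v' : W)) : M) := by
        rw [AddSubgroup.coe_sub, h3, h3']
        abel
      rw [h4]
      refine (H (dir v)).add_mem ((H (dir v)).sub_mem ?_ (hE.aff s v m h1.symm hv h2)) hb
      rw [hd1]
      exact hE.aff s' v' m' h1'.symm hv' h2'
    · intro u hu
      obtain ⟨a, ha⟩ := hE.axis u hu
      obtain ⟨b, hb, -⟩ := hpt2 u a ha
      exact ⟨b, hb⟩
    · intro u v m hu hv hm
      obtain ⟨s, ms, h1, h2, h3⟩ := hbase1 v hv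
      rcases hpu : pt u with m1 | a
      · obtain ⟨z, hz1, hz2⟩ := hpt1 u m1 hpu
        rw [hm] at hz1
        have h4 : m = z := Sum.inl.inj hz1
        rw [AddSubgroup.mem_addSubgroupOf, hdir1 v hv, AddSubgroup.coe_sub, h4, hz2, h3]
        have h5 : m1 - m0 - (ms - m0) = (m1 - base v) - (ms - base v) := by abel
        rw [h5]
        exact (H (dir v)).sub_mem (hE.aff u v m1 hu hv hpu) (hE.aff s v ms h1.symm hv h2)
      · obtain ⟨b, hb, -⟩ := hpt2 u a hpu
        rw [hm] at hb
        exact absurd hb (by simp)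
    · intro u v a hu hv ha
      rcases hpu : pt u with m1 | a1
      · obtain ⟨z, hz1, -⟩ := hpt1 u m1 hpu
        rw [ha] at hz1
        exact absurd hz1 (by simp)
      · obtain ⟨b, hb, hb2⟩ := hpt2 u a1 hpu
        rw [ha] at hb
        have h4 : a = b := Sum.inr.inj hb
        apply Subtype.ext
        rw [h4, hb2, hdir1 v hv]
        exact hE.inf u v a1 hu hv hpu
  · intro a
    have h1 : (H a.1).addSubgroupOf W = (W ⊓ H a.1).addSubgroupOf W :=
      (AddSubgroup.inf_addSubgroupOf_left (H a.1) W).symm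
    change Nat.card ((H a.1).addSubgroupOf W) = h
    rw [h1]
    have h2 := Nat.card_congr (AddSubgroup.addSubgroupOfEquivOfLe
      (inf_le_left : W ⊓ H a.1 ≤ W)).toEquiv
    rw [h2]
    exact a.2

end Pool.Agent.SC4.TP
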