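import Mathlib

set_option autoImplicit false

/-
MODULE TP/Bessel (size M). Incidences in a partial congruence partition (a translation net).
M has q^2 elements, the H a have q elements, pairwise trivial intersection, so every coset C of H a
meets every coset C' of H b (a <> b) in exactly one element (the map M -> M/H a x M/H b is injective,
hence bijective: both sides have q^2 elements). P a set of points, mu = |P| / q^2, c(C) = |P cap C|.
g(m) = [m in P] - mu, g_a(m) = c(m + H a)/q - mu (real functions on M). Then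
  sum_m g_a(m)^2 = sum_C q (c(C)/q - mu)^2  (C over the cosets of H a);
  sum_m g(m) g_a(m) = sum_C (c(C) - q mu)(c(C)/q - mu) = sum_m g_a(m)^2;
  sum_m g_a(m) g_b(m) = (sum_C (c(C)/q - mu)) (sum_C' (c(C')/q - mu)) = 0 for a <> b
(|C cap C'| = 1 and sum_C (c(C)/q - mu) = |P|/q - q mu = 0). Expanding
0 <= sum_m (g - sum_a g_a)^2 = sum_m g^2 - sum_a sum_m g_a^2 gives
  V := sum_a sum_C (c(C) - q mu)^2 = q sum_a sum_m g_a^2 <= q sum_m g^2 = q (|P| - |P|^2/q^2).
L a set of lines (pairs a, coset). I = sum over L of c. S = I - |L| |P| / q = sum_{L} (c - q mu)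
= - sum_{lines not in L} (c - q mu), so by Cauchy-Schwarz S^2 <= (|A| q - |L|) V. Multiply by q^2.
-/

namespace Pool.Agent.SC4.TP

open Classical in
private theorem fib_card {M : Type} [AddCommGroup M] [Fintype M] (H : AddSubgroup M) (q : ℕ)
    (hH : Nat.card H = q) (C : M ⧸ H) :
    (Finset.univ.filter fun m : M => (m : M ⧸ H) = C).card = q := by
  obtain ⟨m0, rfl⟩ := QuotientAddGroup.mk_surjective C
  rw [← hH, Nat.card_eq_fintype_card, ← Finset.card_univ]
  symm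
  refine Finset.card_bij (fun h _ => m0 + (h : M)) ?_ ?_ ?_
  · intro h _
    simp only [Finset.mem_filter, Finset.mem_univ, true_and]
    rw [eq_comm, QuotientAddGroup.eq]
    simpa using h.2
  · intro h _ h' _ e
    exact Subtype.ext (add_left_cancel e)
  · intro m hm
    simp only [Finset.mem_filter, Finset.mem_univ, true_and] at hm
    rw [eq_comm, QuotientAddGroup.eq] at hm
    exact ⟨⟨-m0 + m, hm⟩, Finset.mem_univ _, by simp⟩

open Classical in
private theorem quot_card {M : Type} [AddCommGroup M] [Fintype M] (H : AddSubgroup M) (q : ℕ)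
    (hq : 1 ≤ q) (hM : Fintype.card M = q ^ 2) (hH : Nat.card H = q) :
    Fintype.card (M ⧸ H) = q := by
  have h := AddSubgroup.card_eq_card_quotient_mul_card_addSubgroup H
  rw [hH, Nat.card_eq_fintype_card, hM, Nat.card_eq_fintype_card, sq] at h
  exact (Nat.eq_of_mul_eq_mul_right (by omega) h).symm

open Classical in
private theorem sum_fib {M : Type} [AddCommGroup M] [Fintype M] (H : AddSubgroup M)
    (F : M ⧸ H → ℝ) (K : M → ℝ) : ∑ m : M, F (m : M ⧸ H) * K m =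
      ∑ C, F C * ∑ m ∈ Finset.univ.filter (fun m : M => (m : M ⧸ H) = C), K m := by
  rw [← Finset.sum_fiberwise Finset.univ (fun m : M => (m : M ⧸ H))]
  refine Finset.sum_congr rfl fun C _ => ?_
  rw [Finset.mul_sum]
  refine Finset.sum_congr rfl fun m hm => ?_
  rw [(Finset.mem_filter.1 hm).2]

open Classical in
private theorem cross {M : Type} [AddCommGroup M] [Fintype M] (H K : AddSubgroup M) (q : ℕ)
    (hq : 1 ≤ q) (hM : Fintype.card M = q ^ 2) (hH : Nat.card H = q) (hK : Nat.card K = q)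
    (hd : H ⊓ K = ⊥) (F : M ⧸ H → ℝ) (G : M ⧸ K → ℝ) :
    ∑ m : M, F (m : M ⧸ H) * G (m : M ⧸ K) = (∑ C, F C) * ∑ C, G C := by
  have hbij : Function.Bijective (fun m : M => ((m : M ⧸ H), (m : M ⧸ K))) := by
    rw [Fintype.bijective_iff_injective_and_card]
    constructor
    · intro m m' h
      simp only [Prod.mk.injEq] at h
      rw [QuotientAddGroup.eq, QuotientAddGroup.eq] at h
      have h1 : -m + m' ∈ H ⊓ K := ⟨h.1, h.2⟩
      rw [hd, AddSubgroup.mem_bot] at h1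
      exact (neg_add_eq_zero.1 h1)
    · rw [Fintype.card_prod, quot_card H q hq hM hH, quot_card K q hq hM hK, hM, sq]
  have h2 := hbij.sum_comp (fun x : (M ⧸ H) × (M ⧸ K) => F x.1 * G x.2)
  rw [Fintype.sum_prod_type] at h2
  simp only at h2
  rw [h2, Finset.sum_mul_sum]

open Classical in
theorem bessel {M : Type} [AddCommGroup M] [Fintype M] {A : Type} [Fintype A]
    (H : A → AddSubgroup M) (q : ℕ) (hq : 1 ≤ q) (hM : Fintype.card M = q ^ 2)
    (hH : ∀ a, Nat.card (H a) = q) (hd : ∀ a b, a ≠ b → H a ⊓ H b = ⊥)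
    (P : Finset M) (L : Finset (Σ a, M ⧸ H a)) :
    ((q : ℝ) * (∑ l ∈ L, ((P.filter (fun m : M => (m : M ⧸ H l.1) = l.2)).card : ℝ))
        - L.card * P.card) ^ 2 ≤
      q * P.card * ((q : ℝ) ^ 2 - P.card) * (Fintype.card A * q - L.card) := by
  have hq0 : (0 : ℝ) < q := by exact_mod_cast hq
  -- the weights
  obtain ⟨w, hw⟩ : ∃ w : ∀ a, M ⧸ H a → ℝ, ∀ a C,
      w a C = (q : ℝ) * ((P.filter (fun m : M => (m : M ⧸ H a) = C)).card : ℝ) - P.card :=
    ⟨fun a C => _, fun a C => rfl⟩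
  obtain ⟨h, hh⟩ : ∃ h : M → ℝ, ∀ m, h m = (q : ℝ) ^ 2 * (if m ∈ P then 1 else 0) - P.card :=
    ⟨fun m => _, fun m => rfl⟩
  have hcq : ∀ a, Fintype.card (M ⧸ H a) = q := fun a => quot_card (H a) q hq hM (hH a)
  -- the sum of the weights over a parallel class
  have hw0 : ∀ a, ∑ C, w a C = 0 := by
    intro a
    simp only [hw]
    rw [Finset.sum_sub_distrib, ← Finset.mul_sum, Finset.sum_const, Finset.card_univ, hcq a,
      nsmul_eq_mul]
    have h1 : ∑ C : M ⧸ H a, ((P.filter (fun m : M => (m : M ⧸ H a) = C)).card : ℝ) = P.card := by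
      rw [← Nat.cast_sum]
      congr 1
      exact (Finset.card_eq_sum_card_fiberwise (f := fun m : M => (m : M ⧸ H a)) (s := P)
        (t := Finset.univ) (fun _ _ => Finset.mem_univ _)).symm
    rw [h1]
    ring
  -- sum of `h` over a coset
  have hcos : ∀ a C, ∑ m ∈ Finset.univ.filter (fun m : M => (m : M ⧸ H a) = C), h m = q * w a C := by
    intro a C
    simp only [hh]
    rw [Finset.sum_sub_distrib, ← Finset.mul_sum, Finset.sum_const, fib_card (H a) q (hH a) C,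
      nsmul_eq_mul, hw]
    have h1 : ∑ m ∈ Finset.univ.filter (fun m : M => (m : M ⧸ H a) = C),
        (if m ∈ P then (1 : ℝ) else 0) = ((P.filter (fun m : M => (m : M ⧸ H a) = C)).card : ℝ) := by
      rw [Finset.sum_ite_mem, Finset.sum_const, nsmul_eq_mul, mul_one]
      congr 2
      ext m
      simp only [Finset.mem_inter, Finset.mem_filter, Finset.mem_univ, true_and]
      tauto
    rw [h1]
    ring
  have hA : ∀ a, ∑ m : M, w a (m : M ⧸ H a) * w a (m : M ⧸ H a) = q * ∑ C, w a C ^ 2 := by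
    intro a
    rw [sum_fib (H a) (w a) (fun m => w a (m : M ⧸ H a)), Finset.mul_sum]
    refine Finset.sum_congr rfl fun C _ => ?_
    have h1 : ∑ m ∈ Finset.univ.filter (fun m : M => (m : M ⧸ H a) = C), w a (m : M ⧸ H a) =
        q * w a C := by
      rw [Finset.sum_congr rfl (fun m hm => by rw [(Finset.mem_filter.1 hm).2] :
        ∀ m ∈ Finset.univ.filter (fun m : M => (m : M ⧸ H a) = C),
          w a (m : M ⧸ H a) = w a C), Finset.sum_const, fib_card (H a) q (hH a) C, nsmul_eq_mul]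
    rw [h1]
    ring
  have hB : ∀ a, ∑ m : M, w a (m : M ⧸ H a) * h m = q * ∑ C, w a C ^ 2 := by
    intro a
    rw [sum_fib (H a) (w a) h, Finset.mul_sum]
    refine Finset.sum_congr rfl fun C _ => ?_
    rw [hcos]
    ring
  have hC : ∀ a b, a ≠ b → ∑ m : M, w a (m : M ⧸ H a) * w b (m : M ⧸ H b) = 0 := by
    intro a b hab
    rw [cross (H a) (H b) q hq hM (hH a) (hH b) (hd a b hab) (w a) (w b), hw0 a, zero_mul]
  have hD : ∑ m : M, h m ^ 2 = (P.card : ℝ) * ((q : ℝ) ^ 2 - P.card) * (q : ℝ) ^ 2 := by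
    have h1 : ∀ m, h m ^ 2 = ((q : ℝ) ^ 2 * ((q : ℝ) ^ 2 - 2 * P.card)) * (if m ∈ P then 1 else 0) +
        (P.card : ℝ) ^ 2 := by
      intro m
      rw [hh]
      split_ifs <;> ring
    simp only [h1]
    rw [Finset.sum_add_distrib, ← Finset.mul_sum, Finset.sum_ite_mem, Finset.univ_inter,
      Finset.sum_const, Finset.sum_const, Finset.card_univ, hM, nsmul_eq_mul, nsmul_eq_mul]
    push_cast
    ring
  -- Bessel
  have hE : (0 : ℝ) ≤ ∑ m : M, (h m - ∑ a, w a (m : M ⧸ H a)) ^ 2 :=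
    Finset.sum_nonneg fun m _ => sq_nonneg _
  have hF : ∑ m : M, (h m - ∑ a, w a (m : M ⧸ H a)) ^ 2 =
      ∑ m : M, h m ^ 2 - q * ∑ a, ∑ C, w a C ^ 2 := by
    have h1 : ∀ m, (h m - ∑ a, w a (m : M ⧸ H a)) ^ 2 = h m ^ 2 - 2 * ∑ a, w a (m : M ⧸ H a) * h m +
        ∑ a, ∑ b, w a (m : M ⧸ H a) * w b (m : M ⧸ H b) := by
      intro m
      rw [← Finset.sum_mul_sum, ← Finset.sum_mul]
      ring
    simp only [h1]
    rw [Finset.sum_add_distrib, Finset.sum_sub_distrib, ← Finset.mul_sum]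
    have h2 : ∑ m : M, ∑ a, w a (m : M ⧸ H a) * h m = q * ∑ a, ∑ C, w a C ^ 2 := by
      rw [Finset.sum_comm, Finset.mul_sum]
      exact Finset.sum_congr rfl fun a _ => hB a
    have h3 : ∑ m : M, ∑ a, ∑ b, w a (m : M ⧸ H a) * w b (m : M ⧸ H b) =
        q * ∑ a, ∑ C, w a C ^ 2 := by
      rw [Finset.sum_comm, Finset.mul_sum]
      refine Finset.sum_congr rfl fun a _ => ?_
      rw [Finset.sum_comm, Finset.sum_eq_single a]
      · exact hA a
      · intro b _ hb
        exact hC a b hb.symm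
      · intro ha
        exact absurd (Finset.mem_univ a) ha
    rw [h2, h3]
    ring
  have hW : ∑ a, ∑ C, w a C ^ 2 ≤ q * (P.card : ℝ) * ((q : ℝ) ^ 2 - P.card) := by
    rw [hF, hD] at hE
    have h1 : (q : ℝ) * ∑ a, ∑ C, w a C ^ 2 ≤
        q * (q * (P.card : ℝ) * ((q : ℝ) ^ 2 - P.card)) := by nlinarith
    exact le_of_mul_le_mul_left h1 hq0
  -- the lines
  have hS : (q : ℝ) * (∑ l ∈ L, ((P.filter (fun m : M => (m : M ⧸ H l.1) = l.2)).card : ℝ))
        - L.card * P.card = ∑ l ∈ L, w l.1 l.2 := by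
    simp only [hw]
    rw [Finset.sum_sub_distrib, ← Finset.mul_sum, Finset.sum_const, nsmul_eq_mul]
  have hT : ∑ l : (Σ a, M ⧸ H a), w l.1 l.2 = 0 := by
    rw [Fintype.sum_sigma]
    exact Finset.sum_eq_zero fun a _ => hw0 a
  have hU : ∑ l ∈ Lᶜ, w l.1 l.2 = -∑ l ∈ L, w l.1 l.2 := by
    have := Finset.sum_add_sum_compl L (fun l : (Σ a, M ⧸ H a) => w l.1 l.2)
    rw [hT] at this
    linarith
  have hcard : ((Lᶜ.card : ℕ) : ℝ) = Fintype.card A * q - L.card := by
    have h1 : Fintype.card (Σ a, M ⧸ H a) = Fintype.card A * q := by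
      rw [Fintype.card_sigma, Finset.sum_congr rfl (fun a _ => hcq a), Finset.sum_const,
        Finset.card_univ, smul_eq_mul]
    rw [Finset.card_compl, Nat.cast_sub (Finset.card_le_univ L), h1]
    push_cast
    ring
  rw [hS]
  have h1 : (∑ l ∈ L, w l.1 l.2) ^ 2 = (∑ l ∈ Lᶜ, w l.1 l.2) ^ 2 := by
    rw [hU]
    ring
  rw [h1]
  have h2 : (∑ l ∈ Lᶜ, w l.1 l.2) ^ 2 ≤ (Lᶜ.card : ℝ) * ∑ l ∈ Lᶜ, w l.1 l.2 ^ 2 :=
    sq_sum_le_card_mul_sum_sq
  have h3 : ∑ l ∈ Lᶜ, w l.1 l.2 ^ 2 ≤ ∑ l : (Σ a, M ⧸ H a), w l.1 l.2 ^ 2 :=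
    Finset.sum_le_univ_sum_of_nonneg fun l => sq_nonneg _
  have h4 : ∑ l : (Σ a, M ⧸ H a), w l.1 l.2 ^ 2 = ∑ a, ∑ C, w a C ^ 2 := by
    rw [Fintype.sum_sigma]
  rw [h4] at h3
  have h5 : (0 : ℝ) ≤ Lᶜ.card := Nat.cast_nonneg _
  calc (∑ l ∈ Lᶜ, w l.1 l.2) ^ 2 ≤ (Lᶜ.card : ℝ) * ∑ l ∈ Lᶜ, w l.1 l.2 ^ 2 := h2
    _ ≤ (Lᶜ.card : ℝ) * (q * (P.card : ℝ) * ((q : ℝ) ^ 2 - P.card)) :=
        mul_le_mul_of_nonneg_left (h3.trans hW) h5
    _ = _ := by
        rw [hcard]
        ring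

end Pool.Agent.SC4.TP
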