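import Mathlib
import Pool.Agent.Work.MP_2d1b31_co.TP.Defs
import Pool.Agent.Work.MP_2d1b31_co.TP.Bessel

set_option autoImplicit false

/-
MODULE TP/Inc (size M). Cites bessel. G on N vertices in a plane of order q (FinPlane), all degrees >= d.
(0) M is finite with q^2 elements (q >= 2, Nat.card M = q^2 > 0). A is finite with at most q + 1
elements: the sets H a \ {0} are pairwise disjoint, each of size q - 1 >= 1, in M \ {0}; so for any
finite set F of directions |F| (q - 1) <= q^2 - 1, |F| <= q + 1.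
(1) pt is injective into M ⊕ A: N <= q^2 + |A| <= q^2 + q + 1.
(2) P = {m : exists u, pt u = inl m}, |P| >= N - |A| >= N - q - 1. L = {(dir v, base v mod H (dir v)) :
v <> w}, |L| = N - 1 by `line`. I = sum over L of |P cap line| = sum over v <> w of
|{u affine : pt u on the line v}| >= sum over affine u of deg u >= d |P| (every neighbour v of an affine
vertex u is <> w by axis and pt u lies on it by aff).
(3) X = q^2 + q + 1 - N >= 0. If N - 1 <= d q, bessel gives
(q d |P| - (N-1) |P|)^2 <= (q I - |L||P|)^2 <= q |P| (q^2 - |P|)(|A| q - (N - 1)) <= q |P| X^2,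
as q^2 - |P| <= X and |A| q - (N - 1) <= X. Divide by |P| (if |P| = 0 then N <= q + 1 and the claim is
trivial): |P| (d q - (N-1))^2 <= q X^2 and N - q - 1 <= |P|.
-/

namespace Pool.Agent.SC4.TP

open Classical in
theorem inc {V : Type} [Fintype V] {G : SimpleGraph V} {w : V} (q : ℕ) (hq : 2 ≤ q)
    (hT : FinPlane G w q) (d : ℕ) (hdeg : ∀ v, d ≤ G.degree v) :
    Fintype.card V ≤ q ^ 2 + q + 1 ∧
    ((Fintype.card V : ℝ) - 1 ≤ d * q →
      ((Fintype.card V : ℝ) - q - 1) * (d * q - (Fintype.card V - 1)) ^ 2 ≤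
        q * ((q : ℝ) ^ 2 + q + 1 - Fintype.card V) ^ 2) := by
  obtain ⟨M, iM, A, H, pt, dir, base, hE, hMc, hHc⟩ := hT
  have hMfin : Finite M := Nat.finite_of_card_ne_zero (by rw [hMc]; positivity)
  have iMF : Fintype M := Fintype.ofFinite M
  have hMc' : Fintype.card M = q ^ 2 := by rw [← Nat.card_eq_fintype_card, hMc]
  -- the number of directions
  have hHF : ∀ a, ((Finset.univ.filter fun m : M => m ∈ H a).erase 0).card = q - 1 := by
    intro a
    rw [Finset.card_erase_of_mem (Finset.mem_filter.2 ⟨Finset.mem_univ _, (H a).zero_mem⟩)]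
    have h1 : (Finset.univ.filter fun m : M => m ∈ H a).card = q := by
      rw [← hHc a, Nat.card_eq_fintype_card, ← Fintype.card_subtype]
    rw [h1]
  have hF : ∀ F : Finset A, F.card ≤ q + 1 := by
    intro F
    have h2 : (F.biUnion fun a => (Finset.univ.filter fun m : M => m ∈ H a).erase 0).card =
        F.card * (q - 1) := by
      rw [Finset.card_biUnion]
      · rw [Finset.sum_congr rfl (fun a _ => hHF a), Finset.sum_const, smul_eq_mul]
      · intro a _ b _ hab
        rw [Function.onFun, Finset.disjoint_left]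
        intro m hm1 hm2
        rw [Finset.mem_erase, Finset.mem_filter] at hm1 hm2
        have h3 : m ∈ H a ⊓ H b := ⟨hm1.2.2, hm2.2.2⟩
        rw [hE.spread a b hab, AddSubgroup.mem_bot] at h3
        exact hm1.1 h3
    have h3 : (F.biUnion fun a => (Finset.univ.filter fun m : M => m ∈ H a).erase 0) ⊆
        Finset.univ.erase 0 := by
      intro m hm
      obtain ⟨a, -, hm⟩ := Finset.mem_biUnion.1 hm
      exact Finset.mem_erase.2 ⟨(Finset.mem_erase.1 hm).1, Finset.mem_univ _⟩
    have h1 := Finset.card_le_card h3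
    rw [h2, Finset.card_erase_of_mem (Finset.mem_univ _), Finset.card_univ, hMc'] at h1
    have h4 : q ^ 2 - 1 = (q + 1) * (q - 1) := by
      obtain ⟨r, rfl⟩ : ∃ r, q = r + 1 := ⟨q - 1, by omega⟩
      refine Nat.sub_eq_of_eq_add ?_
      rw [Nat.add_sub_cancel]
      ring
    rw [h4] at h1
    exact Nat.le_of_mul_le_mul_right h1 (by omega)
  have hAfin : Finite A := by
    by_contra hc
    rw [not_finite_iff_infinite] at hc
    obtain ⟨F, hFc⟩ := Infinite.exists_subset_card_eq A (q + 2)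
    have := hF F
    omega
  have iAF : Fintype A := Fintype.ofFinite A
  have hA : Fintype.card A ≤ q + 1 := by
    rw [← Finset.card_univ]
    exact hF _
  -- (1)
  have h1 : Fintype.card V ≤ q ^ 2 + q + 1 := by
    have h2 := Fintype.card_le_of_injective pt hE.inj
    rw [Fintype.card_sum, hMc'] at h2
    omega
  refine ⟨h1, fun hdq => ?_⟩
  -- the points
  set P : Finset M := Finset.univ.filter fun m => ∃ u, pt u = Sum.inl m with hP
  have hPc : Fintype.card V ≤ P.card + Fintype.card A := by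
    have h2 : Finset.univ.image pt ⊆ P.disjSum (Finset.univ : Finset A) := by
      intro x hx
      obtain ⟨u, -, rfl⟩ := Finset.mem_image.1 hx
      rcases hu : pt u with m | a
      · rw [Finset.inl_mem_disjSum, hP, Finset.mem_filter]
        exact ⟨Finset.mem_univ _, u, hu⟩
      · rw [Finset.inr_mem_disjSum]
        exact Finset.mem_univ _
    have h3 := Finset.card_le_card h2
    rwa [Finset.card_image_of_injective _ hE.inj, Finset.card_disjSum, Finset.card_univ,
      Finset.card_univ] at h3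
  have hPq : P.card ≤ q ^ 2 := by
    rw [← hMc', ← Finset.card_univ]
    exact Finset.card_le_card (Finset.subset_univ _)
  -- the lines
  have hmk : ∀ (a b : A) (x y : M), (⟨a, (x : M ⧸ H a)⟩ : Σ a, M ⧸ H a) = ⟨b, (y : M ⧸ H b)⟩ →
      a = b ∧ x - y ∈ H a := by
    intro a b x y h
    obtain ⟨h1, h2⟩ := Sigma.mk.inj_iff.1 h
    subst h1
    refine ⟨rfl, ?_⟩
    have h3 := QuotientAddGroup.eq.1 (eq_of_heq h2)
    have h4 := (H a).neg_mem h3
    rwa [neg_add_rev, neg_neg, add_comm, ← sub_eq_add_neg] at h4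
  let ln : V → Σ a, M ⧸ H a := fun v => ⟨dir v, (base v : M ⧸ H (dir v))⟩
  have hln : Set.InjOn ln ((Finset.univ.erase w : Finset V) : Set V) := by
    intro v hv v' hv' h
    obtain ⟨h2, h3⟩ := hmk _ _ _ _ h
    exact hE.line v v' (Finset.mem_erase.1 hv).1 (Finset.mem_erase.1 hv').1 h2 h3
  set L : Finset (Σ a, M ⧸ H a) := (Finset.univ.erase w).image ln with hL
  have hLc : L.card = Fintype.card V - 1 := by
    rw [hL, Finset.card_image_of_injOn hln, Finset.card_erase_of_mem (Finset.mem_univ _),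
      Finset.card_univ]
  have hV1 : 1 ≤ Fintype.card V := Fintype.card_pos_iff.2 ⟨w⟩
  have hI : d * P.card ≤ ∑ l ∈ L, (P.filter (fun m : M => (m : M ⧸ H l.1) = l.2)).card := by
    rw [hL, Finset.sum_image hln]
    have h2 : ∑ v ∈ Finset.univ.erase w, (P.filter (fun m : M => (m : M ⧸ H (ln v).1) = (ln v).2)).card
        = ∑ m ∈ P, ((Finset.univ.erase w).filter
          (fun v => (m : M ⧸ H (ln v).1) = (ln v).2)).card := by
      simp only [Finset.card_filter]
      exact Finset.sum_comm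
    rw [h2, mul_comm, ← smul_eq_mul]
    refine Finset.card_nsmul_le_sum _ _ _ fun m hm => ?_
    obtain ⟨u, hu⟩ := (Finset.mem_filter.1 hm).2
    refine (hdeg u).trans ?_
    rw [← SimpleGraph.card_neighborFinset_eq_degree]
    refine Finset.card_le_card fun v hv => ?_
    rw [SimpleGraph.mem_neighborFinset] at hv
    have hvw : v ≠ w := by
      rintro rfl
      obtain ⟨a, ha⟩ := hE.axis u hv
      rw [hu] at ha
      exact absurd ha (by simp)
    refine Finset.mem_filter.2 ⟨Finset.mem_erase.2 ⟨hvw, Finset.mem_univ _⟩, ?_⟩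
    have h3 := hE.aff u v m hv hvw hu
    refine QuotientAddGroup.eq.2 ?_
    have h4 := (H (dir v)).neg_mem h3
    rwa [neg_sub, sub_eq_add_neg, add_comm] at h4
  -- the inequality
  have hb := bessel H q (by omega) hMc' hHc hE.spread P L
  rw [hLc, Nat.cast_sub hV1, Nat.cast_one] at hb
  have hI' : (d : ℝ) * P.card ≤
      ∑ l ∈ L, ((P.filter (fun m : M => (m : M ⧸ H l.1) = l.2)).card : ℝ) := by
    exact_mod_cast hI
  set I : ℝ := ∑ l ∈ L, ((P.filter (fun m : M => (m : M ⧸ H l.1) = l.2)).card : ℝ) with hId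
  set n : ℝ := (Fintype.card V : ℝ) with hn
  set p : ℝ := (P.card : ℝ) with hp
  set α : ℝ := (Fintype.card A : ℝ) with hα
  have hq0 : (0 : ℝ) < q := by exact_mod_cast (by omega : 0 < q)
  have r1 : n ≤ (q : ℝ) ^ 2 + q + 1 := by rw [hn]; exact_mod_cast h1
  have r2 : n ≤ p + α := by rw [hn, hp, hα]; exact_mod_cast hPc
  have r3 : p ≤ (q : ℝ) ^ 2 := by rw [hp]; exact_mod_cast hPq
  have r4 : α ≤ (q : ℝ) + 1 := by rw [hα]; exact_mod_cast hA
  have r5 : 0 ≤ p := by rw [hp]; positivity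
  have hX : 0 ≤ (q : ℝ) ^ 2 + q + 1 - n := by linarith
  have hT0 : 0 ≤ (d : ℝ) * q - (n - 1) := by linarith
  have e1 : (p * ((d : ℝ) * q - (n - 1))) ^ 2 ≤ (q * I - (n - 1) * p) ^ 2 := by
    have h2 : p * ((d : ℝ) * q - (n - 1)) ≤ q * I - (n - 1) * p := by
      nlinarith
    have h3 : 0 ≤ p * ((d : ℝ) * q - (n - 1)) := mul_nonneg r5 hT0
    gcongr
  have e2 : ((q : ℝ) ^ 2 - p) * (α * q - (n - 1)) ≤ ((q : ℝ) ^ 2 + q + 1 - n) ^ 2 := by
    have h2 : α * q - (n - 1) ≤ (q : ℝ) ^ 2 + q + 1 - n := by nlinarith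
    have h3 : (q : ℝ) ^ 2 - p ≤ (q : ℝ) ^ 2 + q + 1 - n := by linarith
    have h4 : 0 ≤ (q : ℝ) ^ 2 - p := by linarith
    calc ((q : ℝ) ^ 2 - p) * (α * q - (n - 1)) ≤
        ((q : ℝ) ^ 2 - p) * ((q : ℝ) ^ 2 + q + 1 - n) := mul_le_mul_of_nonneg_left h2 h4
      _ ≤ ((q : ℝ) ^ 2 + q + 1 - n) * ((q : ℝ) ^ 2 + q + 1 - n) :=
          mul_le_mul_of_nonneg_right h3 hX
      _ = _ := by ring
  rcases r5.eq_or_lt with h0 | h0
  · have h2 : n - q - 1 ≤ 0 := by linarith
    have h3 : (n - q - 1) * ((d : ℝ) * q - (n - 1)) ^ 2 ≤ 0 :=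
      mul_nonpos_of_nonpos_of_nonneg h2 (sq_nonneg _)
    have h4 : 0 ≤ (q : ℝ) * ((q : ℝ) ^ 2 + q + 1 - n) ^ 2 := by positivity
    linarith
  · have h2 : p * ((d : ℝ) * q - (n - 1)) ^ 2 ≤ q * ((q : ℝ) ^ 2 + q + 1 - n) ^ 2 := by
      refine le_of_mul_le_mul_left ?_ h0
      calc p * (p * ((d : ℝ) * q - (n - 1)) ^ 2) = (p * ((d : ℝ) * q - (n - 1))) ^ 2 := by ring
        _ ≤ q * p * ((q : ℝ) ^ 2 - p) * (α * q - (n - 1)) := e1.trans hb
        _ = q * p * (((q : ℝ) ^ 2 - p) * (α * q - (n - 1))) := by ring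
        _ ≤ q * p * ((q : ℝ) ^ 2 + q + 1 - n) ^ 2 := by gcongr
        _ = p * (q * ((q : ℝ) ^ 2 + q + 1 - n) ^ 2) := by ring
    refine le_trans ?_ h2
    have h3 : n - q - 1 ≤ p := by linarith
    exact mul_le_mul_of_nonneg_right h3 (sq_nonneg _)

end Pool.Agent.SC4.TP
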