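import Mathlib
import Pool.Agent.Work.MP_2d1b31_co.Base
import Pool.Agent.Work.MP_2d1b31_co.TP.Defs
import Pool.Agent.Work.MP_2d1b31_co.TP.C4
import Pool.Agent.Work.MP_2d1b31_co.TP.Host
import Pool.Agent.Work.MP_2d1b31_co.TP.Inc
import Pool.Agent.Work.MP_2d1b31_co.TN.Degree
import Pool.Agent.Work.MP_2d1b31_co.TN.Density

set_option autoImplicit false

/-! The question of Burr, Erdős, Faudree, Rousseau and Schelp for graphs embedded in translation
planes: if no prime power is within `R(c)` of `√n`, all `N ≥ N₀` work for some `N₀ ≤ n + √n - c`. -/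

namespace Pool.Agent.SC4.TP

theorem conj (c : ℝ) : ∃ R : ℝ, ∀ n : ℕ,
    (∀ q : ℕ, IsPrimePow q → R < |(q : ℝ) - Real.sqrt n|) →
    ∃ N0 : ℕ, (N0 : ℝ) ≤ (n : ℝ) + Real.sqrt n - c ∧
      ∀ N : ℕ, N0 ≤ N → ∀ (G : SimpleGraph (Fin N)) (w : Fin N), TransPlane G w →
        (completeBipartiteGraph (Fin 1) (Fin n)).IsContained Gᶜ := by
  classical
  set c0 : ℝ := max c 0 with hc0
  have hc00 : 0 ≤ c0 := le_max_right _ _
  have hcc : c ≤ c0 := le_max_left _ _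
  obtain ⟨k, hk⟩ := exists_nat_ge (24 * (c0 + 2) + 1)
  have hk1 : (1 : ℝ) ≤ k := by linarith
  have hk1' : 1 ≤ k := by exact_mod_cast hk1
  set s0 : ℝ := 1000000 * k with hs0
  refine ⟨s0 + 500 * k + c0 + 5, fun n hn => ?_⟩
  set s : ℝ := Real.sqrt n with hs
  have hs_nn : 0 ≤ s := Real.sqrt_nonneg _
  have hsq : s ^ 2 = n := Real.sq_sqrt (Nat.cast_nonneg n)
  -- `s` is large, otherwise `q = 2` is too near
  have hsl : s0 ≤ s := by
    by_contra hlt
    push Not at hlt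
    have h2 := hn 2 Nat.prime_two.isPrimePow
    have h3 : |((2 : ℕ) : ℝ) - s| ≤ s0 + 2 := by
      rw [abs_le]; push_cast; constructor <;> linarith
    have h4 : (0 : ℝ) ≤ 500 * k := by positivity
    linarith
  have hs0k : 1000000 * (k : ℝ) ≤ s := hsl
  set N1 : ℕ := ⌊(n : ℝ) + s - c0⌋₊ with hN
  have hn0 : (0 : ℝ) ≤ n := Nat.cast_nonneg n
  have hcs : c0 + 3 ≤ k := by linarith
  have hN1 : (N1 : ℝ) ≤ (n : ℝ) + s - c0 := Nat.floor_le (by nlinarith)
  have hN2' : (n : ℝ) + s - c0 < N1 + 1 := Nat.lt_floor_add_one _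
  refine ⟨N1, by linarith, fun N hNN G w hT => ?_⟩
  have hNNr : (N1 : ℝ) ≤ N := by exact_mod_cast hNN
  have hN2 : (n : ℝ) + s - c0 < N + 1 := by linarith
  by_contra hstar
  rw [star_iff] at hstar
  push Not at hstar
  simp only [Fintype.card_fin] at hstar
  have hC4 : C4Free G := by
    obtain ⟨M, inst, A, H, pt, dir, base, hE⟩ := hT
    exact c4 hE
  have hnN : n + 2 ≤ N := by
    have : ((n + 1 : ℕ) : ℝ) < (N : ℝ) := by push_cast; nlinarith
    have h3 : n + 1 < N := by exact_mod_cast this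
    omega
  obtain ⟨y, hy⟩ : ∃ y, N = n + (y + 1) := ⟨N - n - 1, by omega⟩
  have hdeg : ∀ v, y + 1 ≤ G.degree v := fun v => by have := hstar v; omega
  haveI : Nonempty (Fin N) := ⟨w⟩
  obtain ⟨hyn, -⟩ := TN.degree_bound G hC4 y hdeg n (by rw [Fintype.card_fin, hy])
  obtain ⟨ζ, hζ⟩ := Nat.exists_eq_add_of_le hyn
  have hyR : s - c0 - 2 < y := by
    have : (N : ℝ) = n + (y + 1) := by exact_mod_cast hy
    linarith
  have hζR : (n : ℝ) = y ^ 2 + ζ := by exact_mod_cast hζ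
  have hy_nn : (0 : ℝ) ≤ y := Nat.cast_nonneg y
  have hys : (y : ℝ) ≤ s := by
    refine Real.le_sqrt_of_sq_le ?_
    exact_mod_cast hyn
  have hζk : 6 * ζ ≤ k * y := by
    have h1 : (ζ : ℝ) ≤ 2 * (c0 + 2) * s := by nlinarith
    have h2 : s ≤ 2 * y := by nlinarith
    have h3 : (6 : ℝ) * ζ ≤ k * y := by
      have h4 : (6 : ℝ) * ζ ≤ 24 * (c0 + 2) * y := by nlinarith
      have h5 : 24 * (c0 + 2) * (y : ℝ) ≤ k * y := by
        apply mul_le_mul_of_nonneg_right _ hy_nn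
        linarith
      linarith
    exact_mod_cast h3
  have hky : 100000 * k ≤ y := by
    have : (100000 : ℝ) * k ≤ y := by nlinarith
    exact_mod_cast this
  obtain ⟨q, hq, hqy, hF⟩ := host hT y k ζ n hk1' hky hdeg (by rw [Fintype.card_fin, hy]) hζ hζk
  have hinc := (inc q hq.two_le hF (y + 1) hdeg).1
  rw [Fintype.card_fin] at hinc
  have hqR : (q : ℝ) ^ 2 ≤ y ^ 2 + 985 * k * y := by exact_mod_cast hqy
  have hincR : (N : ℝ) ≤ (q : ℝ) ^ 2 + q + 1 := by exact_mod_cast hinc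
  have hq_nn : (0 : ℝ) ≤ q := Nat.cast_nonneg q
  have hk0 : (0 : ℝ) ≤ k := by linarith
  have h1 : (q : ℝ) ≤ s + 500 * k := by
    by_contra hlt
    push Not at hlt
    have h2 : (s + 500 * k) ^ 2 ≤ (q : ℝ) ^ 2 := pow_le_pow_left₀ (by positivity) hlt.le 2
    have h3 : (y : ℝ) ^ 2 ≤ s ^ 2 := pow_le_pow_left₀ hy_nn hys 2
    have h4 : 985 * (k : ℝ) * y ≤ 985 * k * s := mul_le_mul_of_nonneg_left hys (by positivity)
    nlinarith
  have h2 : s - c0 - 3 ≤ q := by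
    by_contra hlt
    push Not at hlt
    have h3 : (q : ℝ) ^ 2 ≤ (s - c0 - 3) ^ 2 := pow_le_pow_left₀ hq_nn hlt.le 2
    nlinarith
  have h3 := hn q hq
  have h4 : |(q : ℝ) - s| ≤ s0 + 500 * k + c0 + 5 := by
    rw [abs_le]; constructor <;> nlinarith
  linarith

open Classical in
/-- Density form. -/
theorem conj_density (c ε : ℝ) (hε : 0 < ε) : ∃ X0 : ℕ, ∀ X : ℕ, X0 ≤ X →
    (((Finset.range (X + 1)).filter (fun n : ℕ => ¬ ∃ N0 : ℕ,
      (N0 : ℝ) ≤ (n : ℝ) + Real.sqrt (n : ℝ) - c ∧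
      ∀ N : ℕ, N0 ≤ N → ∀ (G : SimpleGraph (Fin N)) (w : Fin N), TransPlane G w →
        (completeBipartiteGraph (Fin 1) (Fin n)).IsContained Gᶜ)).card : ℝ) ≤ ε * X := by
  obtain ⟨R, hR⟩ := conj c
  obtain ⟨r, X0, hd⟩ := TN.density R (ε / 2) (half_pos hε)
  obtain ⟨n0, hn0⟩ := exists_nat_ge ((|R| + r) ^ 2)
  refine ⟨max X0 (⌈2 * n0 / ε⌉₊), fun X hX => ?_⟩
  have hsub : (Finset.range (X + 1)).filter (fun n : ℕ => ¬ ∃ N0 : ℕ,
      (N0 : ℝ) ≤ (n : ℝ) + Real.sqrt (n : ℝ) - c ∧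
      ∀ N : ℕ, N0 ≤ N → ∀ (G : SimpleGraph (Fin N)) (w : Fin N), TransPlane G w →
        (completeBipartiteGraph (Fin 1) (Fin n)).IsContained Gᶜ) ⊆
      Finset.range n0 ∪ (Finset.range (X + 1)).filter (fun n : ℕ => ∃ h : ℕ,
        |(h : ℝ) - Real.sqrt n| ≤ R ∧
        ∀ p : ℕ, p.Prime → p ∣ h → r ≤ p ^ (h.factorization p) + 1) := by
    intro n hn
    rw [Finset.mem_filter] at hn
    rw [Finset.mem_union]
    by_cases h1 : n < n0
    · exact Or.inl (Finset.mem_range.2 h1)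
    refine Or.inr (Finset.mem_filter.2 ⟨hn.1, ?_⟩)
    by_contra hc
    refine hn.2 (hR n fun q hq => ?_)
    by_contra hlt
    push Not at hlt
    refine hc ⟨q, hlt, fun p hp hpq => ?_⟩
    -- `q` is at least `r`
    have hs : |R| + r ≤ Real.sqrt n := by
      refine Real.le_sqrt_of_sq_le (hn0.trans ?_)
      exact_mod_cast not_lt.1 h1
    have h2 : (r : ℝ) ≤ q := by
      have h3 := (abs_le.1 hlt).1
      have h4 := le_abs_self R
      linarith
    have h3 : r ≤ q := by exact_mod_cast h2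
    obtain ⟨p', e, hp', he, rfl⟩ := (isPrimePow_nat_iff q).1 hq
    have h4 : p = p' := (Nat.prime_dvd_prime_iff_eq hp hp').1 (hp.dvd_of_dvd_pow hpq)
    subst h4
    rw [hp.factorization_pow, Finsupp.single_eq_same]
    omega
  have hcard := (Finset.card_le_card hsub).trans (Finset.card_union_le _ _)
  rw [Finset.card_range] at hcard
  have hd' := hd X ((le_max_left _ _).trans hX)
  have hX2 : (n0 : ℝ) ≤ ε / 2 * X := by
    have h1 : 2 * n0 / ε ≤ (⌈2 * n0 / ε⌉₊ : ℝ) := Nat.le_ceil _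
    have h2 : ((⌈2 * n0 / ε⌉₊ : ℕ) : ℝ) ≤ X := by
      exact_mod_cast (le_max_right _ _).trans hX
    have h3 : 2 * n0 / ε ≤ (X : ℝ) := h1.trans h2
    rw [div_le_iff₀ hε] at h3
    linarith
  refine (Nat.cast_le.2 hcard).trans ?_
  push_cast
  linarith

end Pool.Agent.SC4.TP
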