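import Mathlib
import Pool.Agent.Work.MP_2d1b31_co.TP.Defs

set_option autoImplicit false

/-
MODULE TP/LinT (size M). A graph linear over a division ring K is a TransPlane graph for every w.
l_w is not zero; by renaming the three coordinates we may assume its third coordinate is not zero. So
write p u = (x, y, z), l v = (a, b, c), c_w <> 0. (Prove the case of a nonzero coordinate i0, with j, k
the other two, or prove the case i0 = 2 and permute.)
M = K x K. A = {H : AddSubgroup (K x K) // exists (al, be) <> (0,0), for all (s,t),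
(s,t) in H iff s al + t be = 0}. Two different elements of A meet only in 0: if (s,t) <> 0 is in H, then
H = K (s,t) = {(f s, f t)} (e.g. al <> 0: s = - t be al^-1, so t <> 0 and every (s',t') in H is
(t' t^-1)(s,t); same for be <> 0).
Points: let e(u) = x a_w + y b_w + z c_w. If e(u) <> 0 : pt u = inl (e^-1 x, e^-1 y). If e(u) = 0 :
(x,y) <> 0 (else z c_w = 0, z = 0), pt u = inr of the subgroup K (x,y) (it is in A: take
(al, be) = (-x^-1 y... ), for x <> 0: s (-x^-1 y) + t = 0 ; if x = 0: s = 0, (al,be) = (1,0)).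
inj: e(u), e(u') <> 0 and equal affine coordinates: e^-1 z c_w = 1 - e^-1 x a_w - e^-1 y b_w equal as
well, so p u = (e e'^-1) p u'. Directions equal: (x,y) = f (x',y'), z c_w = -(x a_w + y b_w) = f z' c_w.
Lines: v <> w: g = c_w^-1 c_v, al = a_v - a_w g, be = b_v - b_w g; (al,be) <> (0,0) since otherwise
l v = l w g. dir v = {(s,t) : s al + t be = 0}; for every (x,y,z): x a_v + y b_v + z c_v
= x al + y be + (x a_w + y b_w + z c_w) g. So an affine point (X,Y) (e = 1) is on the line v iff
X al + Y be + g = 0; base v = a solution (e.g. al <> 0: (-g al^-1, 0); else (0, -g be^-1)).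
aff: X al + Y be + g = 0 and the same for base v: the difference is in dir v. inf: e = 0 gives
x al + y be = 0, so K(x,y) = dir v. axis: p u . l w = 0 means e(u) = 0.
line: dir v = dir v' and base v - base v' in dir v imply (al', be') = (al, be) f for some f <> 0 (both
pairs describe the same line K(s0,t0), (s0,t0) <> 0: e.g. s0 <> 0: al = -s0^-1 t0 be, al' = -s0^-1 t0 be',
be, be' <> 0, f = be^-1 be'), and base v satisfies X al' + Y be' + g' = 0 , so g' = g f; then
c_v' = c_w g' = c_v f, a_v' = al' + a_w g' = a_v f, b_v' = b_v f, so l v' = l v f and v = v'.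
For v = w choose dir w, base w arbitrarily (A is nonempty).
-/

namespace Pool.Agent.SC4.TP

private def Ls {K : Type} [DivisionRing K] (n : K × K) : AddSubgroup (K × K) where
  carrier := {m | m.1 * n.1 + m.2 * n.2 = 0}
  zero_mem' := by simp
  add_mem' := by
    intro x y hx hy
    simp only [Set.mem_ofPred_eq, Prod.fst_add, Prod.snd_add] at *
    rw [add_mul, add_mul, add_add_add_comm, hx, hy, add_zero]
  neg_mem' := by
    intro x hx
    simp only [Set.mem_ofPred_eq, Prod.fst_neg, Prod.snd_neg] at *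
    rw [neg_mul, neg_mul, ← neg_add, hx, neg_zero]

private theorem mem_Ls {K : Type} [DivisionRing K] (n m : K × K) :
    m ∈ Ls n ↔ m.1 * n.1 + m.2 * n.2 = 0 := Iff.rfl

private theorem key {K : Type} [DivisionRing K] {n m : K × K} (hn : n ≠ 0) (hm : m ≠ 0)
    (h : m.1 * n.1 + m.2 * n.2 = 0) (x : K × K) :
    x.1 * n.1 + x.2 * n.2 = 0 ↔ ∃ f : K, x.1 = f * m.1 ∧ x.2 = f * m.2 := by
  obtain ⟨al, be⟩ := n
  obtain ⟨s, t⟩ := m
  obtain ⟨x, y⟩ := x
  simp only at h ⊢
  constructor
  · intro hx
    by_cases ha : al = 0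
    · subst ha
      have hb : be ≠ 0 := by
        intro hb
        exact hn (by rw [hb]; rfl)
      rw [mul_zero, zero_add] at h hx
      have ht : t = 0 := (mul_eq_zero.mp h).resolve_right hb
      have hy : y = 0 := (mul_eq_zero.mp hx).resolve_right hb
      have hs : s ≠ 0 := by
        intro hs
        exact hm (by rw [hs, ht]; rfl)
      refine ⟨x * s⁻¹, ?_, ?_⟩
      · rw [mul_assoc, inv_mul_cancel₀ hs, mul_one]
      · rw [ht, hy, mul_zero]
    · have hs : s = -(t * be * al⁻¹) := by
        have : s * al = -(t * be) := eq_neg_of_add_eq_zero_left h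
        calc s = s * al * al⁻¹ := by rw [mul_assoc, mul_inv_cancel₀ ha, mul_one]
          _ = -(t * be * al⁻¹) := by rw [this, neg_mul]
      have hx' : x = -(y * be * al⁻¹) := by
        have : x * al = -(y * be) := eq_neg_of_add_eq_zero_left hx
        calc x = x * al * al⁻¹ := by rw [mul_assoc, mul_inv_cancel₀ ha, mul_one]
          _ = -(y * be * al⁻¹) := by rw [this, neg_mul]
      have ht : t ≠ 0 := by
        intro ht
        apply hm
        rw [hs, ht]
        simp
      refine ⟨y * t⁻¹, ?_, ?_⟩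
      · rw [hs, hx', mul_neg]
        congr 1
        rw [mul_assoc y t⁻¹, mul_assoc t, ← mul_assoc t⁻¹, inv_mul_cancel₀ ht, one_mul,
          mul_assoc]
      · rw [mul_assoc, inv_mul_cancel₀ ht, mul_one]
  · rintro ⟨f, h1, h2⟩
    rw [h1, h2, mul_assoc, mul_assoc, ← mul_add, h, mul_zero]

private theorem key2 {K : Type} [DivisionRing K] {n n' m : K × K} (hn : n ≠ 0) (hm : m ≠ 0)
    (h : m.1 * n.1 + m.2 * n.2 = 0) (h' : m.1 * n'.1 + m.2 * n'.2 = 0) :
    ∃ f : K, n'.1 = n.1 * f ∧ n'.2 = n.2 * f := by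
  obtain ⟨al, be⟩ := n
  obtain ⟨al', be'⟩ := n'
  obtain ⟨s, t⟩ := m
  simp only at h h' ⊢
  by_cases hs : s = 0
  · subst hs
    have ht : t ≠ 0 := by
      intro ht
      exact hm (by rw [ht]; rfl)
    rw [zero_mul, zero_add] at h h'
    have hb : be = 0 := (mul_eq_zero.mp h).resolve_left ht
    have hb' : be' = 0 := (mul_eq_zero.mp h').resolve_left ht
    have ha : al ≠ 0 := by
      intro ha
      exact hn (by rw [ha, hb]; rfl)
    refine ⟨al⁻¹ * al', ?_, ?_⟩
    · rw [← mul_assoc, mul_inv_cancel₀ ha, one_mul]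
    · rw [hb, hb', zero_mul]
  · have ha : al = -(s⁻¹ * (t * be)) := by
      have : s * al = -(t * be) := eq_neg_of_add_eq_zero_left h
      calc al = s⁻¹ * (s * al) := by rw [← mul_assoc, inv_mul_cancel₀ hs, one_mul]
        _ = -(s⁻¹ * (t * be)) := by rw [this, mul_neg]
    have ha' : al' = -(s⁻¹ * (t * be')) := by
      have : s * al' = -(t * be') := eq_neg_of_add_eq_zero_left h'
      calc al' = s⁻¹ * (s * al') := by rw [← mul_assoc, inv_mul_cancel₀ hs, one_mul]
        _ = -(s⁻¹ * (t * be')) := by rw [this, mul_neg]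
    have hb : be ≠ 0 := by
      intro hb
      apply hn
      rw [ha, hb]
      simp
    refine ⟨be⁻¹ * be', ?_, ?_⟩
    · rw [ha, ha', neg_mul]
      congr 1
      rw [mul_assoc s⁻¹, mul_assoc t, ← mul_assoc be, mul_inv_cancel₀ hb, one_mul]
    · rw [← mul_assoc, mul_inv_cancel₀ hb, one_mul]

private def AA (K : Type) [DivisionRing K] : Type :=
  {H : AddSubgroup (K × K) // ∃ n : K × K, n ≠ 0 ∧ H = Ls n}

private theorem AA_eq {K : Type} [DivisionRing K] (a b : AA K) {m : K × K} (hm : m ≠ 0)
    (ha : m ∈ a.1) (hb : m ∈ b.1) : a = b := by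
  obtain ⟨A, n, hn, rfl⟩ := a
  obtain ⟨B, n', hn', rfl⟩ := b
  apply Subtype.ext
  ext x
  have h1 := key hn hm ((mem_Ls n m).mp ha) x
  have h2 := key hn' hm ((mem_Ls n' m).mp hb) x
  show x ∈ Ls n ↔ x ∈ Ls n'
  rw [mem_Ls, mem_Ls, h1, h2]

private def mkA {K : Type} [DivisionRing K] (n : K × K) (h : n ≠ 0) : AA K := ⟨Ls n, n, h, rfl⟩

open Classical in
/-- a vector orthogonal to `m` -/
private noncomputable def ort {K : Type} [DivisionRing K] (m : K × K) : K × K :=
  if m.1 = 0 then (1, 0) else (-(m.1⁻¹ * m.2), 1)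

private theorem ort_ne {K : Type} [DivisionRing K] (m : K × K) : ort m ≠ 0 := by
  unfold ort
  split_ifs
  · intro h
    exact one_ne_zero (congrArg Prod.fst h)
  · intro h
    exact one_ne_zero (congrArg Prod.snd h)

private theorem ort_mem {K : Type} [DivisionRing K] (m : K × K) : m ∈ Ls (ort m) := by
  rw [mem_Ls]
  unfold ort
  split_ifs with h
  · simp [h]
  · simp only [mul_neg, mul_one]
    rw [← mul_assoc, mul_inv_cancel₀ h, one_mul, neg_add_cancel]

/-- a nonzero vector of `Ls n` -/
private theorem ex_mem {K : Type} [DivisionRing K] (n : K × K) : ∃ m : K × K, m ≠ 0 ∧ m ∈ Ls n := by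
  by_cases h : n.1 = 0
  · refine ⟨(1, 0), ?_, ?_⟩
    · intro h
      exact one_ne_zero (congrArg Prod.fst h)
    · rw [mem_Ls]
      simp [h]
  · refine ⟨(-(n.2 * n.1⁻¹), 1), ?_, ?_⟩
    · intro h
      exact one_ne_zero (congrArg Prod.snd h)
    · rw [mem_Ls]
      simp only [neg_mul, one_mul]
      rw [mul_assoc, inv_mul_cancel₀ h, mul_one, neg_add_cancel]

/-- a solution of `X al + Y be + g = 0` -/
private theorem ex_sol {K : Type} [DivisionRing K] (n : K × K) (hn : n ≠ 0) (g : K) :
    ∃ m : K × K, m.1 * n.1 + m.2 * n.2 + g = 0 := by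
  by_cases h : n.1 = 0
  · have h2 : n.2 ≠ 0 := by
      intro h2
      exact hn (Prod.ext h h2)
    refine ⟨(0, -(g * n.2⁻¹)), ?_⟩
    simp only [zero_mul, zero_add, neg_mul]
    rw [mul_assoc, inv_mul_cancel₀ h2, mul_one, neg_add_cancel]
  · refine ⟨(-(g * n.1⁻¹), 0), ?_⟩
    simp only [zero_mul, add_zero, neg_mul]
    rw [mul_assoc, inv_mul_cancel₀ h, mul_one, neg_add_cancel]

private theorem linT2 (K : Type) [DivisionRing K] {V : Type} (G : SimpleGraph V)
    (p l : V → Fin 3 → K) (hp0 : ∀ u, p u ≠ 0)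
    (hp : ∀ u v, u ≠ v → ∀ t : K, p u ≠ fun i => t * p v i)
    (hl : ∀ u v, u ≠ v → ∀ t : K, l u ≠ fun i => l v i * t)
    (hG : ∀ u v, G.Adj u v → ∑ i, p u i * l v i = 0) (w : V) (hw : l w 2 ≠ 0) :
    TransPlane G w := by
  classical
  -- the value on the line w
  set e : V → K := fun u => p u 0 * l w 0 + p u 1 * l w 1 + p u 2 * l w 2 with he
  set g : V → K := fun v => (l w 2)⁻¹ * l v 2 with hg
  set nn : V → K × K := fun v => (l v 0 - l w 0 * g v, l v 1 - l w 1 * g v) with hnn
  have hcg : ∀ v, l w 2 * g v = l v 2 := by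
    intro v
    simp only [hg]
    rw [← mul_assoc, mul_inv_cancel₀ hw, one_mul]
  have hn0 : ∀ v, v ≠ w → nn v ≠ 0 := by
    intro v hv h
    have h0 : l v 0 - l w 0 * g v = 0 := congrArg Prod.fst h
    have h1 : l v 1 - l w 1 * g v = 0 := congrArg Prod.snd h
    apply hl v w hv (g v)
    funext i
    fin_cases i
    · exact sub_eq_zero.mp h0
    · exact sub_eq_zero.mp h1
    · exact (hcg v).symm
  have hid : ∀ v (x : Fin 3 → K), ∑ i, x i * l v i =
      x 0 * (nn v).1 + x 1 * (nn v).2 + (x 0 * l w 0 + x 1 * l w 1 + x 2 * l w 2) * g v := by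
    intro v x
    rw [Fin.sum_univ_three]
    simp only [hnn]
    rw [← hcg v]
    noncomm_ring
  have hxy : ∀ u, e u = 0 → (p u 0, p u 1) ≠ (0 : K × K) := by
    intro u hu h
    have h0 : p u 0 = 0 := congrArg Prod.fst h
    have h1 : p u 1 = 0 := congrArg Prod.snd h
    have h2 : p u 2 = 0 := by
      simp only [he, h0, h1, zero_mul, zero_add] at hu
      exact (mul_eq_zero.mp hu).resolve_right hw
    apply hp0 u
    funext i
    fin_cases i
    · exact h0
    · exact h1
    · exact h2
  set nr : V → K × K := fun v => if nn v = 0 then (1, 0) else nn v with hnr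
  have hnr0 : ∀ v, nr v ≠ 0 := by
    intro v
    simp only [hnr]
    split_ifs with h
    · intro h
      exact one_ne_zero (congrArg Prod.fst h)
    · exact h
  have hnrw : ∀ v, v ≠ w → nr v = nn v := by
    intro v hv
    simp only [hnr]
    rw [if_neg (hn0 v hv)]
  choose bs hbs using fun v => ex_sol (nr v) (hnr0 v) (g v)
  refine ⟨K × K, inferInstance, AA K, fun a => a.1,
    fun u => if e u = 0 then Sum.inr (mkA (ort (p u 0, p u 1)) (ort_ne _))
      else Sum.inl ((e u)⁻¹ * p u 0, (e u)⁻¹ * p u 1),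
    fun v => mkA (nr v) (hnr0 v), bs, ?_, ?_, ?_, ?_, ?_, ?_⟩
  · -- spread
    intro a b hab
    rw [eq_bot_iff]
    intro m hm
    rw [AddSubgroup.mem_inf] at hm
    rw [AddSubgroup.mem_bot]
    by_contra h
    exact hab (AA_eq a b h hm.1 hm.2)
  · -- inj
    intro u u' huu
    by_contra hne
    simp only at huu
    by_cases h : e u = 0
    · by_cases h' : e u' = 0
      · rw [if_pos h, if_pos h'] at huu
        have h1 : mkA (ort (p u 0, p u 1)) (ort_ne _) = mkA (ort (p u' 0, p u' 1)) (ort_ne _) :=
          Sum.inr_injective huu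
        have h2 : (p u 0, p u 1) ∈ (mkA (ort (p u' 0, p u' 1)) (ort_ne _)).1 := by
          rw [← h1]
          exact ort_mem _
        obtain ⟨f, f1, f2⟩ := (key (ort_ne (p u' 0, p u' 1)) (hxy u' h')
          ((mem_Ls _ _).mp (ort_mem _)) (p u 0, p u 1)).mp ((mem_Ls _ _).mp h2)
        simp only at f1 f2
        apply hp u u' hne f
        funext i
        fin_cases i
        · exact f1
        · exact f2
        · have a1 : p u 2 * l w 2 = f * p u' 2 * l w 2 := by
            have b1 : p u 2 * l w 2 = -(p u 0 * l w 0 + p u 1 * l w 1) := by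
              rw [eq_neg_iff_add_eq_zero, add_comm]
              exact h
            have b2 : p u' 2 * l w 2 = -(p u' 0 * l w 0 + p u' 1 * l w 1) := by
              rw [eq_neg_iff_add_eq_zero, add_comm]
              exact h'
            rw [b1, mul_assoc, b2, f1, f2]
            noncomm_ring
          exact mul_right_cancel₀ hw a1
      · rw [if_pos h, if_neg h'] at huu
        exact absurd huu (by simp)
    · by_cases h' : e u' = 0
      · rw [if_neg h, if_pos h'] at huu
        exact absurd huu (by simp)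
      · rw [if_neg h, if_neg h'] at huu
        have h1 := Sum.inl_injective huu
        have x0 : (e u)⁻¹ * p u 0 = (e u')⁻¹ * p u' 0 := congrArg Prod.fst h1
        have x1 : (e u)⁻¹ * p u 1 = (e u')⁻¹ * p u' 1 := congrArg Prod.snd h1
        have one : ∀ v, e v ≠ 0 → (e v)⁻¹ * p v 0 * l w 0 + (e v)⁻¹ * p v 1 * l w 1 +
            (e v)⁻¹ * p v 2 * l w 2 = 1 := by
          intro v hv
          have : (e v)⁻¹ * e v = 1 := inv_mul_cancel₀ hv
          rw [← this]
          simp only [he]
          noncomm_ring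
        have x2 : (e u)⁻¹ * p u 2 = (e u')⁻¹ * p u' 2 := by
          have o1 := one u h
          have o2 := one u' h'
          rw [x0, x1] at o1
          exact mul_right_cancel₀ hw (add_left_cancel (o1.trans o2.symm))
        apply hp u u' hne (e u * (e u')⁻¹)
        have fin : ∀ i, (e u)⁻¹ * p u i = (e u')⁻¹ * p u' i → p u i = e u * (e u')⁻¹ * p u' i := by
          intro i hi
          rw [mul_assoc, ← hi, ← mul_assoc, mul_inv_cancel₀ h, one_mul]
        funext i
        fin_cases i
        · exact fin 0 x0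
        · exact fin 1 x1
        · exact fin 2 x2
  · -- line
    intro v v' hv hv' hd hb
    by_contra hne
    have hd' : Ls (nr v) = Ls (nr v') := congrArg Subtype.val hd
    rw [hnrw v hv, hnrw v' hv'] at hd'
    have hb' : bs v - bs v' ∈ Ls (nn v) := by
      have : bs v - bs v' ∈ Ls (nr v) := hb
      rwa [hnrw v hv] at this
    obtain ⟨m, hm, hmm⟩ := ex_mem (nn v)
    have hmm' : m ∈ Ls (nn v') := hd' ▸ hmm
    obtain ⟨f, f1, f2⟩ := key2 (hn0 v hv) hm ((mem_Ls _ _).mp hmm) ((mem_Ls _ _).mp hmm')
    have s1 := hbs v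
    have s2 := hbs v'
    rw [hnrw v hv] at s1
    rw [hnrw v' hv'] at s2
    rw [mem_Ls] at hb'
    simp only [Prod.fst_sub, Prod.snd_sub] at hb'
    have s3 : (bs v').1 * (nn v).1 + (bs v').2 * (nn v).2 + g v = 0 := by
      have : (bs v').1 * (nn v).1 + (bs v').2 * (nn v).2 + g v =
          ((bs v).1 * (nn v).1 + (bs v).2 * (nn v).2 + g v) -
          (((bs v).1 - (bs v').1) * (nn v).1 + ((bs v).2 - (bs v').2) * (nn v).2) := by
        noncomm_ring
      rw [this, s1, hb', sub_zero]
    have s4 : g v' = g v * f := by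
      have e1 : (bs v').1 * (nn v').1 + (bs v').2 * (nn v').2 + g v * f = 0 := by
        rw [f1, f2]
        have : (bs v').1 * ((nn v).1 * f) + (bs v').2 * ((nn v).2 * f) + g v * f =
            ((bs v').1 * (nn v).1 + (bs v').2 * (nn v).2 + g v) * f := by noncomm_ring
        rw [this, s3, zero_mul]
      exact add_left_cancel (s2.trans e1.symm)
    apply hl v' v (Ne.symm hne) f
    funext i
    fin_cases i
    · show l v' 0 = l v 0 * f
      have a1 : l v' 0 = (nn v').1 + l w 0 * g v' := by simp only [hnn]; noncomm_ring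
      have a2 : l v 0 = (nn v).1 + l w 0 * g v := by simp only [hnn]; noncomm_ring
      rw [a1, a2, f1, s4]
      noncomm_ring
    · show l v' 1 = l v 1 * f
      have a1 : l v' 1 = (nn v').2 + l w 1 * g v' := by simp only [hnn]; noncomm_ring
      have a2 : l v 1 = (nn v).2 + l w 1 * g v := by simp only [hnn]; noncomm_ring
      rw [a1, a2, f2, s4]
      noncomm_ring
    · show l v' 2 = l v 2 * f
      calc l v' 2 = l w 2 * g v' := (hcg v').symm
        _ = l w 2 * g v * f := by
          rw [s4]
          exact (mul_assoc _ _ _).symm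
        _ = l v 2 * f := by rw [hcg v]
  · -- axis
    intro u hu
    have h := hG u w hu
    rw [Fin.sum_univ_three] at h
    have h' : e u = 0 := h
    exact ⟨_, if_pos h'⟩
  · -- aff
    intro u v m huv hv hm
    have h := hG u v huv
    rw [hid v (p u)] at h
    by_cases h' : e u = 0
    · simp only [if_pos h'] at hm
      exact absurd hm (by simp)
    · simp only [if_neg h'] at hm
      have hm' := Sum.inl_injective hm
      have h1 : (e u)⁻¹ * p u 0 * (nn v).1 + (e u)⁻¹ * p u 1 * (nn v).2 + g v = 0 := by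
        have : (e u)⁻¹ * p u 0 * (nn v).1 + (e u)⁻¹ * p u 1 * (nn v).2 + ((e u)⁻¹ * e u) * g v =
            (e u)⁻¹ * (p u 0 * (nn v).1 + p u 1 * (nn v).2 + e u * g v) := by noncomm_ring
        rw [inv_mul_cancel₀ h', one_mul] at this
        rw [this]
        have h3 : p u 0 * (nn v).1 + p u 1 * (nn v).2 + e u * g v = 0 := h
        rw [h3, mul_zero]
      show m - bs v ∈ Ls (nr v)
      rw [hnrw v hv, mem_Ls, ← hm']
      have s1 := hbs v
      rw [hnrw v hv] at s1
      simp only [Prod.fst_sub, Prod.snd_sub]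
      have : ((e u)⁻¹ * p u 0 - (bs v).1) * (nn v).1 + ((e u)⁻¹ * p u 1 - (bs v).2) * (nn v).2 =
          ((e u)⁻¹ * p u 0 * (nn v).1 + (e u)⁻¹ * p u 1 * (nn v).2 + g v) -
          ((bs v).1 * (nn v).1 + (bs v).2 * (nn v).2 + g v) := by noncomm_ring
      rw [this, h1, s1, sub_zero]
  · -- inf
    intro u v a huv hv ha
    have h := hG u v huv
    rw [hid v (p u)] at h
    by_cases h' : e u = 0
    · simp only [if_pos h'] at ha
      have ha' := Sum.inr_injective ha
      rw [← ha']
      apply AA_eq _ _ (hxy u h')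
      · exact ort_mem _
      · show (p u 0, p u 1) ∈ Ls (nr v)
        rw [hnrw v hv, mem_Ls]
        have h3 : p u 0 * (nn v).1 + p u 1 * (nn v).2 + e u * g v = 0 := h
        rw [h', zero_mul, add_zero] at h3
        exact h3
    · simp only [if_neg h'] at ha
      exact absurd ha (by simp)

theorem linT (K : Type) [DivisionRing K] {V : Type} (G : SimpleGraph V) (hG : LinearOver K G)
    (w : V) : TransPlane G w := by
  obtain ⟨p, l, hp0, hl0, hp, hl, hA⟩ := hG
  obtain ⟨i0, hi0⟩ : ∃ i, l w i ≠ 0 := by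
    by_contra h
    push Not at h
    exact hl0 w (funext h)
  set σ : Equiv.Perm (Fin 3) := Equiv.swap i0 2 with hσ
  have hσ2 : σ 2 = i0 := Equiv.swap_apply_right _ _
  apply linT2 K G (fun u i => p u (σ i)) (fun u i => l u (σ i)) ?_ ?_ ?_ ?_ w ?_
  · intro u h
    apply hp0 u
    funext i
    have := congrFun h (σ.symm i)
    simpa using this
  · intro u v huv t h
    apply hp u v huv t
    funext i
    have := congrFun h (σ.symm i)
    simpa using this
  · intro u v huv t h
    apply hl u v huv t
    funext i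
    have := congrFun h (σ.symm i)
    simpa using this
  · intro u v huv
    rw [Equiv.sum_comp σ (fun i => p u i * l v i)]
    exact hA u v huv
  · show l w (σ 2) ≠ 0
    rw [hσ2]
    exact hi0

end Pool.Agent.SC4.TP
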