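import Mathlib

set_option autoImplicit false

/-
MODULE TP/Num (size S-M). Real estimates. s = sqrt n, q = s + g, 0 <= g <= s, d >= s/2, N = n + d.
Let a = d q - (N - 1) = d (q - 1) - n + 1. If a <= 0: d <= (n - 1)/(q - 1) <= s^2/(s + g - 1). Otherwise
X = q^2 + q + 1 - N <= 2 g s + g^2 + s + g + 1 <= (4 g + 2) s (s >= 1, g <= s; and X >= 0 as assumed),
N - q - 1 >= n + s/2 - 2 s - 1 >= n/2 for s >= 10, so a^2 <= q X^2 / (n/2) <= 2 s * (4g+2)^2 s^2 * 2 / s^2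
= 4 s (4 g + 2)^2, a <= 2 sqrt s (4 g + 2), d (q - 1) <= n - 1 + a.
So in both cases d <= (s^2 + 2 sqrt s (4 g + 2)) / (s + g - 1). Now
s^2/(s+g-1) = s - g + 1 + (g-1)^2/(s+g-1) <= s - g + 1 + 2 (g^2+1)/s (s + g - 1 >= s/2, s >= 2) and
2 sqrt s (4g+2)/(s/2) = 16 g/sqrt s + 8/sqrt s <= 8 (1 + g^2/s) + 8. Total <= s - g + 20 (1 + g^2/s),
and s - g = 2 s - q. (s0 = 100 is enough.)
-/

namespace Pool.Agent.SC4.TP

theorem num (n d q : ℕ) (hs : 100 ≤ Real.sqrt n) (hq : n ≤ q ^ 2) (hq2 : (q : ℝ) ≤ 2 * Real.sqrt n)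
    (hd : Real.sqrt n / 2 ≤ d) (hX : n + d ≤ q ^ 2 + q + 1)
    (hinc : ((n : ℝ) + d) - 1 ≤ d * q → (((n : ℝ) + d) - q - 1) * (d * q - ((n + d) - 1)) ^ 2 ≤
        q * ((q : ℝ) ^ 2 + q + 1 - (n + d)) ^ 2) :
    (d : ℝ) ≤ 2 * Real.sqrt n - q + 20 * (1 + (q - Real.sqrt n) ^ 2 / Real.sqrt n) := by
  have hsn : Real.sqrt n ^ 2 = n := Real.sq_sqrt (Nat.cast_nonneg n)
  have hqs : Real.sqrt n ≤ q := by
    rw [Real.sqrt_le_iff]
    exact ⟨Nat.cast_nonneg q, by exact_mod_cast hq⟩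
  have hX' : (n : ℝ) + d ≤ (q : ℝ) ^ 2 + q + 1 := by exact_mod_cast hX
  rw [← hsn] at hinc hX'
  generalize hs' : Real.sqrt n = s at *
  generalize hQ : (q : ℝ) = Q at *
  generalize hD : (d : ℝ) = D at *
  obtain ⟨r, hr0, hr⟩ : ∃ r : ℝ, 0 ≤ r ∧ r ^ 2 = s :=
    ⟨Real.sqrt s, Real.sqrt_nonneg s, Real.sq_sqrt (by linarith)⟩
  obtain ⟨g, hg⟩ : ∃ g : ℝ, Q = s + g := ⟨Q - s, by ring⟩
  subst hg
  have hg0 : 0 ≤ g := by linarith
  have hgs : g ≤ s := by linarith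
  have hr1 : 1 ≤ r := by nlinarith
  have hkey : D * (s + g - 1) ≤ s ^ 2 + 2 * r * (4 * g + 2) := by
    by_cases hc : (s ^ 2 + D) - 1 ≤ D * (s + g)
    · have h1 := hinc hc
      have hXle : (s + g) ^ 2 + (s + g) + 1 - (s ^ 2 + D) ≤ (4 * g + 2) * s := by nlinarith
      have hX0 : 0 ≤ (s + g) ^ 2 + (s + g) + 1 - (s ^ 2 + D) := by linarith
      have hN : s ^ 2 / 2 ≤ s ^ 2 + D - (s + g) - 1 := by nlinarith
      have hXsq : ((s + g) ^ 2 + (s + g) + 1 - (s ^ 2 + D)) ^ 2 ≤ ((4 * g + 2) * s) ^ 2 :=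
        pow_le_pow_left₀ hX0 hXle 2
      have h2 : s ^ 2 / 2 * (D * (s + g) - (s ^ 2 + D - 1)) ^ 2 ≤ (2 * s) * ((4 * g + 2) * s) ^ 2 := by
        calc s ^ 2 / 2 * (D * (s + g) - (s ^ 2 + D - 1)) ^ 2
            ≤ (s ^ 2 + D - (s + g) - 1) * (D * (s + g) - (s ^ 2 + D - 1)) ^ 2 :=
              mul_le_mul_of_nonneg_right hN (sq_nonneg _)
          _ ≤ (s + g) * ((s + g) ^ 2 + (s + g) + 1 - (s ^ 2 + D)) ^ 2 := h1
          _ ≤ (2 * s) * ((4 * g + 2) * s) ^ 2 := by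
              refine mul_le_mul (by linarith) hXsq (sq_nonneg _) (by linarith)
      have h3 : (D * (s + g) - (s ^ 2 + D - 1)) ^ 2 ≤ (2 * r * (4 * g + 2)) ^ 2 := by
        have hs0 : 0 < s ^ 2 / 2 := by positivity
        have h4 : s ^ 2 / 2 * (2 * r * (4 * g + 2)) ^ 2 = (2 * s) * ((4 * g + 2) * s) ^ 2 := by
          rw [← hr]
          ring
        rw [← h4] at h2
        exact le_of_mul_le_mul_left h2 hs0
      have h5 := abs_le_of_sq_le_sq h3 (by positivity)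
      have h6 := (abs_le.1 h5).2
      linarith
    · push Not at hc
      have h7 : 0 ≤ 2 * r * (4 * g + 2) := by positivity
      linarith
  have hpos : 0 < s + g - 1 := by linarith
  have hdiv : 99 / 100 * g ^ 2 ≤ g ^ 2 / s * (s + g - 1) := by
    have e1 : g ^ 2 / s * (s + g - 1) = (g ^ 2 * (s + g - 1)) / s := by ring
    rw [e1, le_div_iff₀ (by linarith)]
    have h8 : 99 / 100 * s ≤ s + g - 1 := by linarith
    nlinarith [mul_le_mul_of_nonneg_left h8 (sq_nonneg g)]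
  have h9 : s + g - s = g := by ring
  rw [h9]
  have hgoal : D * (s + g - 1) ≤ (2 * s - (s + g) + 20 * (1 + g ^ 2 / s)) * (s + g - 1) := by
    refine hkey.trans ?_
    have h10 : (2 * s - (s + g) + 20 * (1 + g ^ 2 / s)) * (s + g - 1) =
        (s - g) * (s + g - 1) + 20 * (s + g - 1) + 20 * (g ^ 2 / s * (s + g - 1)) := by ring
    rw [h10]
    have h11 : 2 * r * (4 * g + 2) ≤ 4 * r ^ 2 + 4 * g ^ 2 + 4 * r ^ 2 := by
      nlinarith [sq_nonneg (r - g)]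
    nlinarith
  exact le_of_mul_le_mul_right hgoal hpos

end Pool.Agent.SC4.TP
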