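import Mathlib
import Pool.Agent.Work.MP_2d1b31_co.TP.Defs
import Pool.Agent.Work.MP_2d1b31_co.TP.C4
import Pool.Agent.Work.MP_2d1b31_co.TP.Host
import Pool.Agent.Work.MP_2d1b31_co.TP.Inc
import Pool.Agent.Work.MP_2d1b31_co.TP.Num
import Pool.Agent.Work.MP_2d1b31_co.TN.Degree

set_option autoImplicit false

/-
MODULE TP/Upper (size M). Cites c4, host, inc, num, TN.degree_bound.
s = sqrt n, q = the least prime power with n <= q^2, g1 = q - s >= 0. q <= 2 s: the least power 2^j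
(j >= 1) with 2^j >= s is at most 2 s if s > 1 (for s > 1: 2^(j-1) < s if j >= 2; j = 1: 2 <= 2 s); for
n = 1, q = 2 = 2 s.
G on N vertices with N <= deg v + n for all v; C4-free (c4). Degree bound: with N = n + d', if d' >= 2,
degree_bound (y = d' - 1, E = n) gives (d'-1)^2 <= n, so always N <= n + s + 1.
Let K0 = 10^9, C = 10^19 (any large constant will do).
CASE A: g1 >= s / K0 or s <= K0^... small (say s <= 10^9). Then 2 s - q >= 0 and C (1 + g1^2/s) >= s + 1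
(g1^2/s >= s/K0^2, resp. C >= s + 1), so N <= n + s + 1 <= n + 2 s - q + C (1 + g1^2/s).
CASE B: g1 < s / K0, s > 10^9. Suppose N > n + 2 s - q + C (1 + g1^2/s). d = N - n (natural number)
satisfies d > s - g1 + C >= s - g1 + 1, d <= s + 1. y = d - 1 > s - g1 >= s/2, y <= s, E = n,
zeta = n - y^2 (>= 0) <= s^2 - (s - g1)^2 <= 2 g1 s <= 4 g1 y. k = ceil(24 g1) + 1: 6 zeta <= k y,
100000 k <= y. host gives a prime power r with r^2 <= y^2 + 985 k y <= s^2 + 985 k s, so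
r <= s + 500 k <= s + 12000 g1 + 1000 (k <= 24 g1 + 2), FinPlane G w r; inc gives N <= r^2 + r + 1.
 If r^2 < n: first alternative. Otherwise n <= r^2, q <= r (q least). g = r - s satisfies
 g1 <= g <= 12000 g1 + 1000 <= s/40 and r <= 2 s; num (with q := r) gives d <= s - g + 20 (1 + g^2/s). With
 g = g1 + t, t >= 0: 20 g^2/s <= 40 g1^2/s + 40 t^2/s <= 40 g1^2/s + t, so d <= s - g1 + 20 + 40 g1^2/s
 <= s - g1 + C (1 + g1^2/s), contradiction (s - g1 = 2 s - q).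
-/

namespace Pool.Agent.SC4.TP

private theorem upper_pow (n q : ℕ) (hn : 1 ≤ n)
    (hmin : ∀ r : ℕ, IsPrimePow r → n ≤ r ^ 2 → q ≤ r) : (q : ℝ) ≤ 2 * Real.sqrt n := by
  have hex : ∃ j : ℕ, n ≤ (2 ^ (j + 1)) ^ 2 := by
    refine ⟨n, ?_⟩
    have h1 : n < 2 ^ n := Nat.lt_two_pow_self
    have h2 : 2 ^ n ≤ 2 ^ (n + 1) := Nat.pow_le_pow_right (by norm_num) (Nat.le_succ n)
    have h3 : 2 ^ (n + 1) ≤ (2 ^ (n + 1)) ^ 2 := Nat.le_self_pow (by norm_num) _
    omega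
  classical
  have hj := Nat.find_spec hex
  have hjm := fun m => Nat.find_min hex (m := m)
  obtain ⟨j, hjd⟩ : ∃ j, j = Nat.find hex := ⟨_, rfl⟩
  rw [← hjd] at hj
  have hqj : q ≤ 2 ^ (j + 1) := by
    refine hmin _ ?_ hj
    exact (Nat.prime_two.isPrimePow).pow (Nat.succ_ne_zero j)
  have hqjr : (q : ℝ) ≤ 2 ^ (j + 1) := by exact_mod_cast hqj
  have hs1 : 1 ≤ Real.sqrt n := by
    rw [Real.one_le_sqrt]
    exact_mod_cast hn
  rcases Nat.eq_zero_or_pos j with h0 | h0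
  · rw [h0, zero_add, pow_one] at hqjr
    linarith
  · have h1 := hjm (j - 1) (by omega)
    have h2 : j - 1 + 1 = j := by omega
    rw [h2, not_le] at h1
    have h3 : ((2 : ℝ) ^ j) ^ 2 < n := by exact_mod_cast h1
    have h4 : (2 : ℝ) ^ j ≤ Real.sqrt n := Real.le_sqrt_of_sq_le h3.le
    rw [pow_succ] at hqjr
    linarith

/-- the arithmetic of case B -/
private theorem upper_num (s g1 y k r q d : ℝ) (hs : 10 ^ 18 ≤ s) (hg : g1 = q - s) (hg1 : 0 ≤ g1)
    (hgs : g1 < s / 10 ^ 9) (hys : y ≤ s) (hy0 : 0 ≤ y) (hk0 : 0 ≤ k) (hk : k ≤ 24 * g1 + 2)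
    (hr0 : 0 ≤ r) (hr : r ^ 2 ≤ y ^ 2 + 985 * k * y) (hqr : q ≤ r) :
    r ≤ 2 * s ∧ (d ≤ 2 * s - r + 20 * (1 + (r - s) ^ 2 / s) →
      d ≤ 2 * s - q + 10 ^ 19 * (1 + (q - s) ^ 2 / s)) := by
  have hs0 : 0 < s := lt_of_lt_of_le (by norm_num) hs
  have h1 : r ^ 2 ≤ (s + 500 * k) ^ 2 := by
    have e1 : y ^ 2 ≤ s ^ 2 := pow_le_pow_left₀ hy0 hys 2
    have e2 : 985 * k * y ≤ 985 * k * s := mul_le_mul_of_nonneg_left hys (by positivity)
    have e3 : (s + 500 * k) ^ 2 = s ^ 2 + 1000 * (k * s) + 250000 * (k * k) := by ring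
    have e4 := mul_nonneg hk0 hs0.le
    have e5 := mul_nonneg hk0 hk0
    linarith
  have h2 : r ≤ s + 500 * k := by
    refine le_of_sq_le_sq ?_ (by positivity)
    exact h1
  have h3 : r - s ≤ 12000 * g1 + 1000 := by linarith
  have h4 : r - s ≤ s / 40 := by
    have e1 : 12000 * g1 ≤ 12000 * (s / 10 ^ 9) := by linarith
    have e2 : (1000 : ℝ) ≤ s / 100 := by
      rw [le_div_iff₀ (by norm_num)]
      exact le_trans (by norm_num) hs
    have e3 : 12000 * (s / 10 ^ 9) ≤ s / 100 := by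
      have : 12000 * (s / 10 ^ 9) = s * (12000 / 10 ^ 9) := by ring
      rw [this]
      have : s / 100 = s * (1 / 100) := by ring
      rw [this]
      exact mul_le_mul_of_nonneg_left (by norm_num) hs0.le
    linarith
  refine ⟨by linarith, fun hd => ?_⟩
  have ht0 : 0 ≤ r - q := by linarith
  have ht1 : r - q ≤ s / 40 := by linarith
  have h5 : 40 * ((r - q) ^ 2 / s) ≤ r - q := by
    rw [← mul_div_assoc, div_le_iff₀ hs0]
    have e1 := mul_le_mul_of_nonneg_left ht1 ht0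
    linarith
  have h6 : (r - s) ^ 2 / s ≤ 2 * ((q - s) ^ 2 / s) + 2 * ((r - q) ^ 2 / s) := by
    rw [← mul_div_assoc, ← mul_div_assoc, ← add_div]
    refine div_le_div_of_nonneg_right ?_ hs0.le
    have e1 := sq_nonneg ((q - s) - (r - q))
    linarith
  have h7 : 0 ≤ (q - s) ^ 2 / s := by positivity
  have h8 : 40 * ((q - s) ^ 2 / s) ≤ 10 ^ 19 * ((q - s) ^ 2 / s) :=
    mul_le_mul_of_nonneg_right (by norm_num) h7
  have h9 : (20 : ℝ) ≤ 10 ^ 19 := by norm_num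
  linarith

open Classical in
theorem upper : ∃ C : ℝ, ∀ n q N : ℕ, 1 ≤ n → IsPrimePow q → n ≤ q ^ 2 →
    (∀ r : ℕ, IsPrimePow r → n ≤ r ^ 2 → q ≤ r) →
    ∀ (G : SimpleGraph (Fin N)) (w : Fin N), TransPlane G w → (∀ v, N ≤ G.degree v + n) →
      (∃ r : ℕ, IsPrimePow r ∧ r ^ 2 < n ∧ N ≤ r ^ 2 + r + 1) ∨
      (N : ℝ) ≤ n + 2 * Real.sqrt n - q + C * (1 + (q - Real.sqrt n) ^ 2 / Real.sqrt n) := by
  refine ⟨10 ^ 19, ?_⟩
  intro n q N hn hqp hnq hmin G w hT hdeg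
  by_contra hcon
  rw [not_or] at hcon
  obtain ⟨hA, hB⟩ := hcon
  rw [not_le] at hB
  obtain ⟨s, hsdef⟩ : ∃ s, s = Real.sqrt n := ⟨_, rfl⟩
  rw [← hsdef] at hB
  have hs2 : s ^ 2 = n := by
    rw [hsdef]
    exact Real.sq_sqrt (Nat.cast_nonneg n)
  have hq2s : (q : ℝ) ≤ 2 * s := by
    rw [hsdef]
    exact upper_pow n q hn hmin
  have hsq : s ≤ q := by
    rw [hsdef]
    refine Real.sqrt_le_iff.2 ⟨Nat.cast_nonneg q, ?_⟩
    exact_mod_cast hnq
  have hs1 : 1 ≤ s := by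
    rw [hsdef, Real.one_le_sqrt]
    exact_mod_cast hn
  have hs0 : 0 < s := by linarith
  have hg0 : 0 ≤ ((q : ℝ) - s) ^ 2 / s := by positivity
  -- the number `d`
  have hNn : n < N := by
    have h1 : (n : ℝ) < N := by
      have : (0 : ℝ) ≤ 10 ^ 19 * (1 + ((q : ℝ) - s) ^ 2 / s) := by positivity
      linarith
    exact_mod_cast h1
  obtain ⟨d, hd⟩ : ∃ d, N = n + d := ⟨N - n, by omega⟩
  have hdr : (N : ℝ) = n + d := by
    rw [hd]
    push_cast
    ring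
  have hBd : 2 * s - q + 10 ^ 19 * (1 + ((q : ℝ) - s) ^ 2 / s) < d := by linarith
  have hd19 : (10 : ℝ) ^ 19 < d := by
    have : (0 : ℝ) ≤ 10 ^ 19 * (((q : ℝ) - s) ^ 2 / s) := by positivity
    have h2 : (10 : ℝ) ^ 19 * (1 + ((q : ℝ) - s) ^ 2 / s) =
      10 ^ 19 + 10 ^ 19 * (((q : ℝ) - s) ^ 2 / s) := by ring
    linarith
  have hd2 : 2 ≤ d := by
    have h1 : (2 : ℝ) < d := lt_trans (by norm_num) hd19
    have h2 : 2 < d := by exact_mod_cast h1
    exact h2.le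
  obtain ⟨y, hy⟩ : ∃ y, d = y + 1 := ⟨d - 1, by omega⟩
  have hyr : (d : ℝ) = y + 1 := by
    rw [hy]
    push_cast
    ring
  have hdegd : ∀ v, d ≤ G.degree v := fun v => by
    have := hdeg v
    omega
  have hdegy : ∀ v, y + 1 ≤ G.degree v := fun v => by
    have := hdegd v
    omega
  have hC4 : C4Free G := by
    obtain ⟨M, hM, A, H, pt, dir, base, hE⟩ := hT
    exact c4 hE
  have hcard : Fintype.card (Fin N) = n + (y + 1) := by
    rw [Fintype.card_fin]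
    omega
  have : Nonempty (Fin N) := ⟨w⟩
  have hy2 : y ^ 2 ≤ n := (TN.degree_bound G hC4 y hdegy n hcard).1
  have hys : (y : ℝ) ≤ s := by
    refine le_of_sq_le_sq ?_ hs0.le
    rw [hs2]
    exact_mod_cast hy2
  have hy0 : (0 : ℝ) ≤ y := Nat.cast_nonneg y
  have hs19 : (10 : ℝ) ^ 19 ≤ s + 1 := by linarith
  have hs19b : (10 : ℝ) ^ 18 ≤ s := by
    have : (10 : ℝ) ^ 18 + 1 ≤ 10 ^ 19 := by norm_num
    linarith
  have hyy : (10 : ℝ) ^ 19 ≤ y + 1 := by linarith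
  obtain ⟨g1, hg1⟩ : ∃ g1, g1 = (q : ℝ) - s := ⟨_, rfl⟩
  have hg10 : 0 ≤ g1 := by linarith
  rcases le_or_gt (s / 10 ^ 9) g1 with hcase | hcase
  · -- case A
    have h1 : s / 10 ^ 18 ≤ ((q : ℝ) - s) ^ 2 / s := by
      rw [← hg1, le_div_iff₀ hs0]
      have h2 : s / 10 ^ 18 * s = (s / 10 ^ 9) ^ 2 := by ring
      rw [h2]
      exact pow_le_pow_left₀ (by positivity) hcase 2
    have h3 : (10 : ℝ) * s ≤ 10 ^ 19 * (((q : ℝ) - s) ^ 2 / s) := by
      have h4 : (10 : ℝ) ^ 19 * (s / 10 ^ 18) = 10 * s := by ring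
      rw [← h4]
      exact mul_le_mul_of_nonneg_left h1 (by norm_num)
    have h5 : (10 : ℝ) ^ 19 * (1 + ((q : ℝ) - s) ^ 2 / s) =
      10 ^ 19 + 10 ^ 19 * (((q : ℝ) - s) ^ 2 / s) := by ring
    have h6 : (1 : ℝ) ≤ 10 ^ 19 := by norm_num
    linarith
  · -- case B
    have hBy : s - g1 < y := by
      have h5 : (10 : ℝ) ^ 19 * (1 + ((q : ℝ) - s) ^ 2 / s) =
        10 ^ 19 + 10 ^ 19 * (((q : ℝ) - s) ^ 2 / s) := by ring
      have h6 : (1 : ℝ) ≤ 10 ^ 19 := by norm_num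
      have h7 : (0 : ℝ) ≤ 10 ^ 19 * (((q : ℝ) - s) ^ 2 / s) := by positivity
      linarith
    have hsmall : s / 10 ^ 9 ≤ s / 2 :=
      div_le_div_of_nonneg_left hs0.le (by norm_num) (by norm_num)
    have hysh : s / 2 ≤ y := by linarith
    obtain ⟨ζ, hζ⟩ : ∃ ζ, n = y ^ 2 + ζ := ⟨n - y ^ 2, by omega⟩
    have hζr : (n : ℝ) = (y : ℝ) ^ 2 + ζ := by exact_mod_cast hζ
    have hsg : 0 ≤ s - g1 := by linarith
    have hζ1 : (ζ : ℝ) ≤ 2 * g1 * s := by
      have h1 : (s - g1) ^ 2 ≤ (y : ℝ) ^ 2 := pow_le_pow_left₀ hsg hBy.le 2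
      have h2 : (s - g1) ^ 2 = s ^ 2 - 2 * g1 * s + g1 ^ 2 := by ring
      have h3 := sq_nonneg g1
      linarith
    obtain ⟨k, hk⟩ : ∃ k, k = ⌈24 * g1⌉₊ + 1 := ⟨_, rfl⟩
    have hkr : (k : ℝ) = (⌈24 * g1⌉₊ : ℝ) + 1 := by
      rw [hk]
      push_cast
      ring
    have hk1 : 24 * g1 ≤ k := by
      have := Nat.le_ceil (24 * g1)
      linarith
    have hk2 : (k : ℝ) ≤ 24 * g1 + 2 := by
      have := Nat.ceil_lt_add_one (a := 24 * g1) (by positivity)
      linarith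
    have hk3 : 1 ≤ k := by omega
    have hζk : 6 * ζ ≤ k * y := by
      have h1 : (6 : ℝ) * ζ ≤ k * y := by
        calc (6 : ℝ) * ζ ≤ 12 * g1 * s := by linarith
          _ ≤ 24 * g1 * y := by
              have h2 := mul_le_mul_of_nonneg_left hysh (mul_nonneg (by norm_num : (0 : ℝ) ≤ 24) hg10)
              linarith
          _ ≤ k * y := mul_le_mul_of_nonneg_right hk1 hy0
      exact_mod_cast h1
    have hky : 100000 * k ≤ y := by
      have h1 : (100000 : ℝ) * k ≤ y := by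
        have e1 : (100000 : ℝ) * k ≤ 2400000 * g1 + 200000 := by linarith
        have e2 : 2400000 * g1 ≤ 2400000 * (s / 10 ^ 9) := by linarith
        have e3 : 2400000 * (s / 10 ^ 9) ≤ s / 4 := by
          have : 2400000 * (s / 10 ^ 9) = s * (2400000 / 10 ^ 9) := by ring
          rw [this]
          have : s / 4 = s * (1 / 4) := by ring
          rw [this]
          exact mul_le_mul_of_nonneg_left (by norm_num) hs0.le
        have e4 : (200000 : ℝ) ≤ s / 4 := by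
          have : (200000 : ℝ) ≤ 10 ^ 18 / 4 := by norm_num
          linarith
        linarith
      exact_mod_cast h1
    obtain ⟨r, hrp, hr2, hrF⟩ := host hT y k ζ n hk3 hky hdegy hcard hζ hζk
    have hr1 : 2 ≤ r := hrp.two_le
    obtain ⟨hi1, hi2⟩ := inc r hr1 hrF d hdegd
    rw [Fintype.card_fin] at hi1
    rw [Fintype.card_fin] at hi2
    rcases lt_or_ge (r ^ 2) n with hrn | hrn
    · exact hA ⟨r, hrp, hrn, hi1⟩
    · have hqr : q ≤ r := hmin r hrp hrn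
      have hqrr : (q : ℝ) ≤ r := by exact_mod_cast hqr
      have hr2r : (r : ℝ) ^ 2 ≤ (y : ℝ) ^ 2 + 985 * k * y := by exact_mod_cast hr2
      obtain ⟨h1, h2⟩ := upper_num s g1 y k r q d hs19b hg1 hg10 hcase hys hy0 (Nat.cast_nonneg k)
        hk2 (Nat.cast_nonneg r) hr2r hqrr
      have h3 := num n d r (by
          rw [← hsdef]
          have : (100 : ℝ) ≤ 10 ^ 18 := by norm_num
          linarith) hrn (by rw [← hsdef]; exact h1) (by rw [← hsdef]; linarith)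
          (by rw [← hd]; exact hi1) (by rw [← hdr]; exact hi2)
      rw [← hsdef] at h3
      exact absurd (h2 h3) (not_le.2 hBd)

end Pool.Agent.SC4.TP
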