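import Mathlib
import Pool.Agent.Work.MP_2d1b31_co.Base
import Pool.Agent.Work.MP_2d1b31_co.TP.Defs
import Pool.Agent.Work.MP_2d1b31_co.TP.C4
import Pool.Agent.Work.MP_2d1b31_co.TP.Upper
import Pool.Agent.Work.MP_2d1b31_co.TP.Lower
import Pool.Agent.Work.MP_2d1b31_co.TP.LinT

set_option autoImplicit false

/-
MODULE TP/Main (size S-M). Cites upper, lower, lower', linT, star_iff.
Part 1: upper and star_iff (if the star is not contained in the complement then N <= deg v + n for all
v). Part 2, 3: lower, lower' with K = GaloisField p e for q = p^e (Fintype.card = q), and star_iff;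
no 4-cycle: linT at some vertex w and c4, c4_iff (N = 0 is trivial: no copy of a 4-cycle).
-/

namespace Pool.Agent.SC4.TP

private theorem main_field (q : ℕ) (hq : IsPrimePow q) :
    ∃ (K : Type) (_ : Field K) (_ : Fintype K), Fintype.card K = q := by
  obtain ⟨p, k, hp, hk, rfl⟩ := (isPrimePow_nat_iff q).1 hq
  have : Fact p.Prime := ⟨hp⟩
  have hfin : Finite (GaloisField p k) := by
    apply Nat.finite_of_card_ne_zero
    rw [GaloisField.card p k hk.ne']
    exact pow_ne_zero _ hp.ne_zero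
  let hF : Fintype (GaloisField p k) := Fintype.ofFinite _
  exact ⟨GaloisField p k, inferInstance, hF,
    (Nat.card_eq_fintype_card).symm.trans (GaloisField.card p k hk.ne')⟩

private theorem main_c4 (K : Type) [DivisionRing K] {N : ℕ} (G : SimpleGraph (Fin N))
    (hG : LinearOver K G) : ¬ (SimpleGraph.cycleGraph 4).IsContained G := by
  rw [c4_iff, not_not]
  intro u v x z h1 h2 h3 h4 h5
  obtain ⟨M, _, A, H, pt, dir, base, hE⟩ := linT K G hG u
  exact c4 hE u v x z h1 h2 h3 h4 h5

open Classical in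
private theorem main_star {N n : ℕ} (G : SimpleGraph (Fin N)) (h : ∀ v, N ≤ G.degree v + n) :
    ¬ (completeBipartiteGraph (Fin 1) (Fin n)).IsContained Gᶜ := by
  rw [star_iff G n]
  rintro ⟨v, hv⟩
  rw [Fintype.card_fin] at hv
  have := h v
  omega

open Classical in
theorem main : (∀ (K : Type) [DivisionRing K] (N : ℕ) (G : SimpleGraph (Fin N)),
      LinearOver K G → ∀ w, TransPlane G w) ∧
    ∃ C : ℝ, ∀ n q : ℕ, 1 ≤ n → IsPrimePow q → n ≤ q ^ 2 →
      (∀ r : ℕ, IsPrimePow r → n ≤ r ^ 2 → q ≤ r) →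
      (∀ N : ℕ, (∀ r : ℕ, IsPrimePow r → r ^ 2 < n → r ^ 2 + r + 1 < N) →
        (n : ℝ) + 2 * Real.sqrt n - q + C * (1 + (q - Real.sqrt n) ^ 2 / Real.sqrt n) < N →
        ∀ (G : SimpleGraph (Fin N)) (w : Fin N), TransPlane G w →
          (completeBipartiteGraph (Fin 1) (Fin n)).IsContained Gᶜ) ∧
      (∃ N : ℕ, (n : ℝ) + 2 * Real.sqrt n - q - 10 ≤ N ∧
        ∃ (K : Type) (_ : Field K) (_ : Fintype K), Fintype.card K = q ∧
          ∃ G : SimpleGraph (Fin N), LinearOver K G ∧
            ¬ (SimpleGraph.cycleGraph 4).IsContained G ∧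
            ¬ (completeBipartiteGraph (Fin 1) (Fin n)).IsContained Gᶜ) ∧
      (∀ r : ℕ, IsPrimePow r → r ^ 2 < n →
        ∃ (K : Type) (_ : Field K) (_ : Fintype K), Fintype.card K = r ∧
          ∃ G : SimpleGraph (Fin (r ^ 2 + r + 1)), LinearOver K G ∧
            ¬ (SimpleGraph.cycleGraph 4).IsContained G ∧
            ¬ (completeBipartiteGraph (Fin 1) (Fin n)).IsContained Gᶜ) := by
  obtain ⟨C, hC⟩ := upper
  refine ⟨fun K _ N G hG w => linT K G hG w, C, ?_⟩
  intro n q hn hq hnq hmin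
  refine ⟨?_, ?_, ?_⟩
  · intro N h1 h2 G w hw
    by_contra hcon
    have h3 : ∀ v, N ≤ G.degree v + n := by
      intro v
      by_contra h4
      apply hcon
      rw [star_iff G n]
      exact ⟨v, by rw [Fintype.card_fin]; omega⟩
    rcases hC n q N hn hq hnq hmin G w hw h3 with ⟨r, g1, g2, g3⟩ | h5
    · have := h1 r g1 g2
      omega
    · exact absurd h2 (not_lt.2 h5)
  · obtain ⟨K, _, _, hK⟩ := main_field q hq
    obtain ⟨N, g1, G, g2, g3⟩ := lower K n q hK hn hnq
    exact ⟨N, g1, K, inferInstance, inferInstance, hK, G, g2, main_c4 K G g2, main_star G g3⟩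
  · intro r hr hrn
    obtain ⟨K, _, _, hK⟩ := main_field r hr
    obtain ⟨G, g2, g3⟩ := lower' K n r hK hrn
    exact ⟨K, inferInstance, inferInstance, hK, G, g2, main_c4 K G g2, main_star G g3⟩

end Pool.Agent.SC4.TP
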