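import Mathlib
import Pool.Agent.Work.MP_2d1b31_co.TP.Defs
import Pool.Agent.Work.MP_2d1b31_co.TP.C4

set_option autoImplicit false

/-! A graph embedded in a translation plane with the vertex `w` as line at infinity is translational at
`w`, for every set of neighbours of `w`. -/

namespace Pool.Agent.SC4.TP

theorem toTN {V : Type} {G : SimpleGraph V} {w : V} (hT : TransPlane G w) (I : Finset V)
    (hI : ∀ x ∈ I, G.Adj w x) : TN.Translational G w I := by
  obtain ⟨M, inst, A, H, pt, dir, base, hE⟩ := hT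
  have hdirn : ∀ x ∈ I, ∃ a, pt x = Sum.inr a := fun x hx => hE.axis x (hI x hx).symm
  -- points of the classes are affine
  have haff : ∀ x ∈ I, ∀ v u, G.Adj x v → v ≠ w → G.Adj v u → u ≠ x → ∃ m, pt u = Sum.inl m := by
    intro x hx v u hxv hvw hvu hux
    rcases hpt : pt u with m | a
    · exact ⟨m, rfl⟩
    · exfalso
      obtain ⟨b, hb⟩ := hdirn x hx
      have h1 := hE.inf u v a hvu.symm hvw hpt
      have h2 := hE.inf x v b hxv hvw hb
      exact hux (hE.inj (by rw [hpt, hb, h1, h2]))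
  refine ⟨hI, M, inst, fun x => Sum.elim (fun _ => (⊥ : AddSubgroup M)) H (pt x),
    fun u => Sum.elim id (fun _ => 0) (pt u), ?_, ?_, ?_⟩
  · intro x hx y hy hxy
    obtain ⟨a, ha⟩ := hdirn x hx
    obtain ⟨b, hb⟩ := hdirn y hy
    simp only [ha, hb, Sum.elim_inr]
    refine hE.spread a b fun hab => hxy (hE.inj (by rw [ha, hb, hab]))
  · rintro x hx y hy u u' ⟨v, h1, h2, h3, h4⟩ ⟨v', h1', h2', h3', h4'⟩ hp
    obtain ⟨m, hm⟩ := haff x hx v u h1 h2 h3 h4
    obtain ⟨m', hm'⟩ := haff y hy v' u' h1' h2' h3' h4'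
    simp only [hm, hm', Sum.elim_inl, id] at hp
    exact hE.inj (by rw [hm, hm', hp])
  · intro x hx v u u' hxv hvw hvu hvu' hux hux'
    obtain ⟨a, ha⟩ := hdirn x hx
    obtain ⟨m, hm⟩ := haff x hx v u hxv hvw hvu hux
    obtain ⟨m', hm'⟩ := haff x hx v u' hxv hvw hvu' hux'
    have hda := hE.inf x v a hxv hvw ha
    simp only [hm, hm', ha, Sum.elim_inl, Sum.elim_inr, id]
    have h1 := hE.aff u v m hvu.symm hvw hm
    have h2 := hE.aff u' v m' hvu'.symm hvw hm'
    rw [hda]
    have h3 := (H (dir v)).sub_mem h1 h2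
    simpa using h3

end Pool.Agent.SC4.TP
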